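import Pool.Agent.U279.KR.GenUp

/-!
# Independent sets among random points of a probability space: the lower bound
-/

set_option autoImplicit false

namespace Pool.Agent.U279.KR

open MeasureTheory Set Finset ProbabilityTheory Filter Topology
open scoped ENNReal NNReal
open Pool.Agent.U279.PR (prs eb am sf sum_pairs card_prs eb_mono eb_nonneg sf_anti sf_ge shearer)

variable {Ω : Type} [MeasurableSpace Ω] {μ : Measure Ω} [IsProbabilityMeasure μ]
  {R : Ω → Ω → Prop} {p q : ℝ} {N m : ℕ}

/-- Few triangles. -/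
def Tri (μ : Measure Ω) (R : Ω → Ω → Prop) (p q : ℝ) : Prop :=
  ∀ x, ∫⁻ u in {y | R x y}, μ ({y | R x y} ∩ {y | R u y}) ∂μ ≤ ENNReal.ofReal (q * p * p)

/-- The event that two points are close. -/
def nrE (R : Ω → Ω → Prop) (N : ℕ) (e : Fin N × Fin N) : Set (Fin N → Ω) :=
  {X | R (X e.1) (X e.2)}

theorem nrE_swap (hG : Geo μ R p) (e : Fin N × Fin N) : nrE R N (e.2, e.1) = nrE R N e := by
  ext X
  simp only [nrE, Set.mem_ofPred_eq]
  exact ⟨hG.symm _ _, hG.symm _ _⟩

theorem nrE_meas (hG : Geo μ R p) (e : Fin N × Fin N) : MeasurableSet (nrE R N e) :=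
  meas_pairG hG.meas e.1 e.2

theorem nrE_inter (hG : Geo μ R p) {e : Fin N × Fin N} (he : e.1 ≠ e.2)
    (A : Set (Fin N → Ω)) (hA : MeasurableSet A)
    (hAj : ∀ X t, Function.update X e.2 t ∈ A ↔ X ∈ A) :
    lawG μ N (A ∩ nrE R N e) = lawG μ N A * ENNReal.ofReal (p) :=
  Pool.Agent.U279.PR.indep_gen μ R hG.meas _ hG.vol he A hA hAj

theorem nrE_one (hG : Geo μ R p) {e : Fin N × Fin N} (he : e.1 ≠ e.2) :
    lawG μ N (nrE R N e) = ENNReal.ofReal (p) := by
  have h := nrE_inter hG he Set.univ MeasurableSet.univ fun X t => by simp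
  simpa using h

theorem nrE_update (e : Fin N × Fin N) (j : Fin N) (h1 : j ≠ e.1) (h2 : j ≠ e.2)
    (X : Fin N → Ω) (t : Ω) :
    Function.update X j t ∈ nrE R N e ↔ X ∈ nrE R N e := by
  simp only [nrE, Set.mem_ofPred_eq, Function.update_of_ne h1.symm, Function.update_of_ne h2.symm]

theorem nrE_two (hG : Geo μ R p) {e f : Fin N × Fin N} (he : e.1 < e.2)
    (hf : f.1 < f.2) (hef : e ≠ f) :
    lawG μ N (nrE R N e ∩ nrE R N f) = ENNReal.ofReal (p) ^ 2 := by
  rw [sq]
  by_cases h : f.2 ≠ e.1 ∧ f.2 ≠ e.2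
  · rw [nrE_inter hG hf.ne _ (nrE_meas hG e) (nrE_update e f.2 h.1 h.2), nrE_one hG he.ne]
  · have h1 : f.1 ≠ e.1 ∧ f.1 ≠ e.2 := by
      by_cases h2 : f.2 = e.1
      · have : f.1 < e.1 := by rw [← h2]; exact hf
        exact ⟨this.ne, (this.trans he).ne⟩
      · have h3 : f.2 = e.2 := by
          by_contra h4
          exact h ⟨h2, h4⟩
        refine ⟨fun h4 => hef (Prod.ext h4.symm h3.symm), ?_⟩
        rw [← h3]
        exact hf.ne
    have hsw : nrE R N f = nrE R N (f.2, f.1) := (nrE_swap hG f).symm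
    rw [hsw]
    have := nrE_inter hG (e := (f.2, f.1)) hf.ne' _ (nrE_meas hG e)
      (nrE_update e f.1 h1.1 h1.2)
    rw [this, nrE_one hG he.ne]

/-- The indicator of a close pair. -/
noncomputable def ind (R : Ω → Ω → Prop) (N : ℕ) (e : Fin N × Fin N) : (Fin N → Ω) → ℝ :=
  (nrE R N e).indicator 1

theorem ind_memLp (hG : Geo μ R p) (e : Fin N × Fin N) : MemLp (ind R N e) 2 (lawG μ N) := by
  unfold ind
  exact (memLp_const (1 : ℝ)).indicator (nrE_meas hG e)

theorem ind_int (hG : Geo μ R p) {e : Fin N × Fin N} (he : e.1 < e.2) :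
    ∫ X, ind R N e X ∂(lawG μ N) = p := by
  unfold ind
  rw [integral_indicator_one (nrE_meas hG e), measureReal_def, nrE_one hG he.ne,
    ENNReal.toReal_ofReal hG.pos.le]

theorem ind_cov (hG : Geo μ R p) {e f : Fin N × Fin N} (he : e.1 < e.2)
    (hf : f.1 < f.2) (hef : e ≠ f) : cov[ind R N e, ind R N f; lawG μ N] = 0 := by
  rw [covariance_eq_sub (ind_memLp hG e) (ind_memLp hG f), ind_int hG he, ind_int hG hf]
  have h : ind R N e * ind R N f = (nrE R N e ∩ nrE R N f).indicator 1 := by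
    unfold ind
    rw [Set.inter_indicator_one]
  rw [h, integral_indicator_one ((nrE_meas hG e).inter (nrE_meas hG f)), measureReal_def,
    nrE_two hG he hf hef, ENNReal.toReal_pow, ENNReal.toReal_ofReal hG.pos.le]
  ring

theorem ind_var (hG : Geo μ R p) {e : Fin N × Fin N} (he : e.1 < e.2) :
    Var[ind R N e; lawG μ N] ≤ p := by
  refine (variance_le_expectation_sq (ind_memLp hG e).aestronglyMeasurable).trans (le_of_eq ?_)
  rw [← ind_int hG he]
  congr 1
  funext X
  unfold ind
  by_cases h : X ∈ nrE R N e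
  · simp [Set.indicator_of_mem h]
  · simp [Set.indicator_of_notMem h]

/-- The number of close pairs is concentrated. -/
theorem edges_le (hG : Geo μ R p) {η : ℝ} (hη : 0 < η)
    (hC : 0 < (prs N).card) :
    (lawG μ N).real {X | (1 + η) * ((prs N).card * p) ≤ ∑ e ∈ prs N, ind R N e X} ≤
      1 / (η ^ 2 * ((prs N).card * p)) := by
  have hv := hG.pos
  have hC' : (0 : ℝ) < (prs N).card := by exact_mod_cast hC
  set W : (Fin N → Ω) → ℝ := fun X => ∑ e ∈ prs N, ind R N e X with hW
  have hmem : MemLp W 2 (lawG μ N) := memLp_finsetSum _ fun e _ => ind_memLp hG e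
  have hlt : ∀ e ∈ prs N, e.1 < e.2 := fun e he => (Finset.mem_filter.1 he).2
  have hint : ∫ X, W X ∂(lawG μ N) = (prs N).card * p := by
    rw [hW, integral_finsetSum _ fun e _ => (ind_memLp hG e).integrable one_le_two,
      Finset.sum_congr rfl fun e he => ind_int hG (hlt e he), Finset.sum_const, nsmul_eq_mul]
  have hvar : Var[W; lawG μ N] ≤ (prs N).card * p := by
    rw [hW, variance_fun_sum' fun e _ => ind_memLp hG e]
    have h1 : ∀ e ∈ prs N, ∑ f ∈ prs N, cov[ind R N e, ind R N f; lawG μ N] ≤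
        p := by
      intro e he
      rw [Finset.sum_eq_single_of_mem e he fun f hf hfe =>
        ind_cov hG (hlt e he) (hlt f hf) hfe.symm,
        covariance_self (ind_memLp hG e).aemeasurable]
      exact ind_var hG (hlt e he)
    refine (Finset.sum_le_sum h1).trans ?_
    rw [Finset.sum_const, nsmul_eq_mul]
  have hc : 0 < η * ((prs N).card * p) := by positivity
  have h := meas_ge_le_variance_div_sq hmem hc
  rw [hint] at h
  have hsub : {X | (1 + η) * ((prs N).card * p) ≤ W X} ⊆
      {X | η * ((prs N).card * p) ≤ |W X - (prs N).card * p|} := by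
    intro X hX
    simp only [Set.mem_ofPred_eq] at hX ⊢
    refine le_trans ?_ (le_abs_self _)
    linarith
  have h2 := (measure_mono hsub).trans h
  have h3 := ENNReal.toReal_mono ENNReal.ofReal_ne_top h2
  have h0 : 0 ≤ Var[W; lawG μ N] / (η * ((prs N).card * p)) ^ 2 :=
    div_nonneg (variance_nonneg _ _) (sq_nonneg _)
  rw [ENNReal.toReal_ofReal h0] at h3
  refine h3.trans ?_
  rw [div_le_div_iff₀ (by positivity) (by positivity)]
  have h4 := mul_le_mul_of_nonneg_right hvar
    (show 0 ≤ η ^ 2 * ((prs N).card * p) by positivity)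
  refine h4.trans (le_of_eq ?_)
  ring

/-- The event that three points are mutually close. -/
def tri (R : Ω → Ω → Prop) (N : ℕ) (i j k : Fin N) : Set (Fin N → Ω) :=
  nrE R N (i, j) ∩ (nrE R N (i, k) ∩ nrE R N (j, k))

theorem tri_meas (hG : Geo μ R p) (i j k : Fin N) : MeasurableSet (tri R N i j k) :=
  (nrE_meas hG _).inter ((nrE_meas hG _).inter (nrE_meas hG _))

theorem near_meas (hG : Geo μ R p) (x : Ω) : MeasurableSet {y | R x y} := by
  have : Measurable fun y : Ω => (x, y) := measurable_const.prodMk measurable_id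
  exact this hG.meas

theorem tri_le (hG : Geo μ R p) (hq : Tri μ R p q) {i j k : Fin N} (hij : i ≠ j)
    (hik : i ≠ k) (hjk : j ≠ k) :
    lawG μ N (tri R N i j k) ≤ ENNReal.ofReal (q * p * p) := by
  let c : Ω → Ω → ℝ≥0∞ := fun x y => ({y | R x y} : Set Ω).indicator 1 y
  have hc : Measurable fun e : Ω × Ω => c e.1 e.2 := by
    have h1 : (fun e : Ω × Ω => c e.1 e.2) = ({e : Ω × Ω | R e.1 e.2} : Set _).indicator 1 := by
      funext e
      by_cases h : R e.1 e.2
      · simp only [c]
        rw [Set.indicator_of_mem (show e.2 ∈ {y | R e.1 y} from h),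
          Set.indicator_of_mem (show e ∈ {e : Ω × Ω | R e.1 e.2} from h)]
        rfl
      · simp only [c]
        rw [Set.indicator_of_notMem (show e.2 ∉ {y | R e.1 y} from h),
          Set.indicator_of_notMem (show e ∉ {e : Ω × Ω | R e.1 e.2} from h)]
    rw [h1]
    exact measurable_one.indicator hG.meas
  have hb : ∀ x, ∫⁻ u, ∫⁻ t, c x u * (c x t * c u t) ∂μ ∂μ ≤ ENNReal.ofReal (q * p * p) := by
    intro x
    have hT := near_meas hG x
    have h1 : ∀ u, ∫⁻ t, c x u * (c x t * c u t) ∂μ =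
        ({y | R x y} : Set Ω).indicator (fun u => μ ({y | R x y} ∩ {y | R u y})) u := by
      intro u
      have hU := near_meas hG u
      have h2 : ∀ t, c x t * c u t =
          (({y | R x y} ∩ {y | R u y} : Set Ω)).indicator 1 t := by
        intro t
        rw [Set.inter_indicator_one]
        rfl
      by_cases hu : u ∈ ({y | R x y} : Set Ω)
      · have h3 : c x u = 1 := by
          simp only [c]
          rw [Set.indicator_of_mem hu]
          rfl
        simp only [h3, one_mul, h2]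
        rw [lintegral_indicator_one (hT.inter hU), Set.indicator_of_mem hu]
      · have h3 : c x u = 0 := by
          simp only [c]
          rw [Set.indicator_of_notMem hu]
        simp only [h3, zero_mul]
        rw [Set.indicator_of_notMem hu]
        simp
    simp only [h1]
    rw [lintegral_indicator hT]
    exact hq x
  have h := Pool.Agent.U279.PR.triple_gen μ c hc _ hb hij hik hjk
  refine le_trans (le_of_eq ?_) h
  unfold lawG
  rw [← lintegral_indicator_one (tri_meas hG i j k)]
  refine lintegral_congr fun X => ?_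
  have e : ∀ a b : Fin N, c (X a) (X b) = (nrE R N (a, b)).indicator 1 X := by
    intro a b
    by_cases h : R (X a) (X b)
    · simp only [c]
      rw [Set.indicator_of_mem (show X b ∈ {y | R (X a) y} from h),
        Set.indicator_of_mem (show X ∈ nrE R N (a, b) from h)]
      rfl
    · simp only [c]
      rw [Set.indicator_of_notMem (show X b ∉ {y | R (X a) y} from h),
        Set.indicator_of_notMem (show X ∉ nrE R N (a, b) from h)]
  rw [e, e, e]
  unfold tri
  rw [Set.inter_indicator_one, Set.inter_indicator_one]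
  rfl

/-- Two of the points are close. -/
def adj (R : Ω → Ω → Prop) (X : Fin m → Ω) (i j : Fin m) : Prop := i ≠ j ∧ R (X i) (X j)

theorem adj_symm (hG : Geo μ R p) (X : Fin m → Ω) (i j : Fin m) (h : adj R X i j) : adj R X j i :=
  ⟨h.1.symm, hG.symm _ _ h.2⟩

theorem adj_irrefl (X : Fin m → Ω) (i : Fin m) : ¬ adj R X i i := fun h => h.1 rfl

open Classical in
theorem eb_univ (hG : Geo μ R p) (X : Fin m → Ω) :
    eb (adj R X) univ univ = 2 * ∑ e ∈ prs m, ind R m e X := by
  have h1 : eb (adj R X) univ univ = ∑ e : Fin m × Fin m, am (adj R X) e.1 e.2 := by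
    unfold eb
    rw [← Finset.univ_product_univ, Finset.sum_product]
  have h2 := sum_pairs (m := m) (fun e => am (adj R X) e.1 e.2) fun e => by
    unfold am
    have : adj R X e.2 e.1 ↔ adj R X e.1 e.2 := ⟨adj_symm hG X _ _, adj_symm hG X _ _⟩
    simp only [this]
  have h3 : ∑ i, am (adj R X) i i = 0 := Finset.sum_eq_zero fun i _ => by
    unfold am
    rw [if_neg (adj_irrefl X i)]
  rw [h1, h2, h3, add_zero]
  congr 1
  refine Finset.sum_congr rfl fun e he => ?_
  have hlt := (Finset.mem_filter.1 he).2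
  unfold am ind
  by_cases h : R (X e.1) (X e.2)
  · rw [if_pos ⟨hlt.ne, h⟩, Set.indicator_of_mem (show X ∈ nrE R m e from h)]
    rfl
  · rw [if_neg fun h' => h h'.2, Set.indicator_of_notMem (show X ∉ nrE R m e from h)]

open Classical in
/-- The points in close triples. -/
noncomputable def Bd (R : Ω → Ω → Prop) (X : Fin m → Ω) : Finset (Fin m) :=
  univ.filter fun i => ∃ j k, i ≠ j ∧ i ≠ k ∧ j ≠ k ∧ X ∈ tri R m i j k

open Classical in
/-- The number of close triples. -/
noncomputable def nT (R : Ω → Ω → Prop) (m : ℕ) (X : Fin m → Ω) : ℝ≥0∞ :=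
  ∑ i : Fin m, ∑ j : Fin m, ∑ k : Fin m,
    if i ≠ j ∧ i ≠ k ∧ j ≠ k then (tri R m i j k).indicator 1 X else 0

theorem nT_meas (hG : Geo μ R p) : Measurable (nT R m) := by
  unfold nT
  refine Finset.measurable_sum _ fun i _ => Finset.measurable_sum _ fun j _ =>
    Finset.measurable_sum _ fun k _ => ?_
  split_ifs
  · exact measurable_one.indicator (tri_meas hG i j k)
  · exact measurable_const

open Classical in
theorem Bd_le (X : Fin m → Ω) : ((Bd R X).card : ℝ≥0∞) ≤ nT R m X := by
  have h1 : ((Bd R X).card : ℝ≥0∞) = ∑ i : Fin m, if i ∈ Bd R X then 1 else 0 := by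
    rw [Finset.sum_boole]
    simp
  rw [h1]
  unfold nT
  refine Finset.sum_le_sum fun i _ => ?_
  by_cases hi : i ∈ Bd R X
  · rw [if_pos hi]
    obtain ⟨j, k, h⟩ := (Finset.mem_filter.1 hi).2
    calc (1 : ℝ≥0∞) = (if i ≠ j ∧ i ≠ k ∧ j ≠ k then (tri R m i j k).indicator 1 X else 0) := by
          rw [if_pos ⟨h.1, h.2.1, h.2.2.1⟩, Set.indicator_of_mem h.2.2.2]
          rfl
      _ ≤ ∑ k : Fin m, if i ≠ j ∧ i ≠ k ∧ j ≠ k then (tri R m i j k).indicator 1 X else 0 :=
          Finset.single_le_sum (f := fun k => if i ≠ j ∧ i ≠ k ∧ j ≠ k then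
            (tri R m i j k).indicator (1 : (Fin m → Ω) → ℝ≥0∞) X else 0) (fun _ _ => zero_le)
            (Finset.mem_univ k)
      _ ≤ _ := Finset.single_le_sum (f := fun j => ∑ k : Fin m, if i ≠ j ∧ i ≠ k ∧ j ≠ k then
            (tri R m i j k).indicator (1 : (Fin m → Ω) → ℝ≥0∞) X else 0) (fun _ _ => zero_le)
            (Finset.mem_univ j)
  · rw [if_neg hi]
    exact zero_le

theorem nT_int (hG : Geo μ R p) (hq : Tri μ R p q) :
    ∫⁻ X, nT R m X ∂(lawG μ m) ≤
      (m : ℝ≥0∞) * (m * (m * ENNReal.ofReal (q * p * p))) := by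
  unfold nT
  set b := ENNReal.ofReal (q * p * p) with hb
  have hm : ∀ i j k : Fin m, Measurable fun X : Fin m → Ω =>
      if i ≠ j ∧ i ≠ k ∧ j ≠ k then (tri R m i j k).indicator (1 : (Fin m → Ω) → ℝ≥0∞) X else 0 := by
    intro i j k
    split_ifs
    · exact measurable_one.indicator (tri_meas hG i j k)
    · exact measurable_const
  rw [lintegral_finsetSum _ fun i _ => Finset.measurable_sum _ fun j _ =>
    Finset.measurable_sum _ fun k _ => hm i j k]
  have h1 : ∀ i : Fin m, ∫⁻ X, ∑ j : Fin m, ∑ k : Fin m,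
      (if i ≠ j ∧ i ≠ k ∧ j ≠ k then (tri R m i j k).indicator (1 : (Fin m → Ω) → ℝ≥0∞) X else 0)
        ∂(lawG μ m) ≤ m * (m * b) := by
    intro i
    rw [lintegral_finsetSum _ fun j _ => Finset.measurable_sum _ fun k _ => hm i j k]
    have h2 : ∀ j : Fin m, ∫⁻ X, ∑ k : Fin m,
        (if i ≠ j ∧ i ≠ k ∧ j ≠ k then (tri R m i j k).indicator (1 : (Fin m → Ω) → ℝ≥0∞) X else 0)
          ∂(lawG μ m) ≤ m * b := by
      intro j
      rw [lintegral_finsetSum _ fun k _ => hm i j k]
      have h3 : ∀ k : Fin m, ∫⁻ X,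
          (if i ≠ j ∧ i ≠ k ∧ j ≠ k then (tri R m i j k).indicator (1 : (Fin m → Ω) → ℝ≥0∞) X else 0)
            ∂(lawG μ m) ≤ b := by
        intro k
        by_cases h : i ≠ j ∧ i ≠ k ∧ j ≠ k
        · simp only [if_pos h]
          rw [lintegral_indicator_one (tri_meas hG i j k)]
          exact tri_le hG hq h.1 h.2.1 h.2.2
        · simp only [if_neg h]
          simp
      refine (Finset.sum_le_sum fun k _ => h3 k).trans ?_
      simp
    refine (Finset.sum_le_sum fun j _ => h2 j).trans ?_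
    simp
  refine (Finset.sum_le_sum fun i _ => h1 i).trans ?_
  simp

/-- Few points are in close triples. -/
theorem Bd_prob (hG : Geo μ R p) (hq : Tri μ R p q) (hq0 : 0 ≤ q) (hm : 1 ≤ m) {η : ℝ} (hη : 0 < η) :
    (lawG μ m).real {X | η * m ≤ (Bd R X).card} ≤
      q * (m * p) ^ 2 / η := by
  have hmR : (0 : ℝ) < m := by exact_mod_cast hm
  have hv := hG.pos
  have hc : ENNReal.ofReal (η * m) ≠ 0 := by
    rw [Ne, ENNReal.ofReal_eq_zero, not_le]
    positivity
  have hsub : {X : Fin m → Ω | η * m ≤ (Bd R X).card} ⊆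
      {X | ENNReal.ofReal (η * m) ≤ nT R m X} := by
    intro X hX
    simp only [Set.mem_ofPred_eq] at hX ⊢
    refine le_trans ?_ (Bd_le X)
    rw [← ENNReal.ofReal_natCast]
    exact ENNReal.ofReal_le_ofReal hX
  have h1 := (measure_mono hsub).trans
    (meas_ge_le_lintegral_div (μ := lawG μ m) (nT_meas hG).aemeasurable hc ENNReal.ofReal_ne_top)
  have h2 : (∫⁻ X, nT R m X ∂(lawG μ m)) / ENNReal.ofReal (η * m) ≤
      ENNReal.ofReal (q * (m * p) ^ 2 / η) := by
    refine (ENNReal.div_le_div_right (nT_int hG hq) _).trans ?_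
    rw [← ENNReal.ofReal_natCast, ← ENNReal.ofReal_mul (by positivity),
      ← ENNReal.ofReal_mul (by positivity), ← ENNReal.ofReal_mul (by positivity),
      ← ENNReal.ofReal_div_of_pos (by positivity)]
    refine ENNReal.ofReal_le_ofReal (le_of_eq ?_)
    field_simp
  have h3 := ENNReal.toReal_mono ENNReal.ofReal_ne_top (h1.trans h2)
  rwa [ENNReal.toReal_ofReal (by positivity)] at h3

/-- Points with few close pairs and few points in close triples contain a large packing. -/
theorem best_ge (hG : Geo μ R p) (hm : 1 ≤ m) {η : ℝ} (h0 : 0 < η) (h1 : η < 1)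
    (hL : 1 ≤ Real.log (m * p)) (X : Fin m → Ω)
    (hB : ((Bd R X).card : ℝ) ≤ η * m)
    (hE : ∑ e ∈ prs m, ind R m e X ≤ (1 + η) * ((prs m).card * p)) :
    (1 - η) ^ 2 / (1 + η) * (Real.log (m * p) - 1) ≤ best R X * p := by
  classical
  have hmR : (0 : ℝ) < m := by exact_mod_cast hm
  have hv := hG.pos
  set L := m * p with hLdef
  have hL0 : 0 < L := by positivity
  set S : Finset (Fin m) := univ \ Bd R X with hS
  have hScard : (1 - η) * m ≤ S.card := by
    have h2 : (S.card : ℝ) = m - (Bd R X).card := by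
      rw [hS, Finset.card_sdiff_of_subset (Finset.subset_univ _), Finset.card_univ,
        Fintype.card_fin, Nat.cast_sub]
      simpa using (Bd R X).card_le_univ
    rw [h2]
    linarith
  have hSpos : (0 : ℝ) < S.card := lt_of_lt_of_le (by nlinarith) hScard
  obtain ⟨I, hIS, hI, hIc⟩ := shearer (adj R X) (adj_symm hG X) (adj_irrefl X) _ S rfl (by
    intro a ha b hb c hc hab hbc hac
    rw [hS, Finset.mem_sdiff] at ha
    apply ha.2
    refine Finset.mem_filter.2 ⟨Finset.mem_univ _, b, c, hab.1, hac.1, hbc.1, ?_⟩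
    exact ⟨hab.2, hac.2, hbc.2⟩)
  have hIbest : I.card ≤ best R X := le_best fun i hi j hj hij => by
    intro h
    exact hI i hi j hj ⟨hij, h⟩
  have heb : eb (adj R X) S S ≤ (1 + η) * m * L := by
    refine (eb_mono (adj R X) (Finset.subset_univ S)).trans ?_
    rw [eb_univ hG X]
    have h2 := card_prs m
    have h3 : 2 * ((1 + η) * ((prs m).card * p)) ≤ (1 + η) * m * L := by
      have h4 : 2 * ((prs m).card : ℝ) ≤ m ^ 2 := by linarith
      have h5 := mul_le_mul_of_nonneg_right h4 (show 0 ≤ (1 + η) * p by positivity)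
      rw [hLdef]
      nlinarith
    linarith
  set d := (1 + η) / (1 - η) * L with hd
  have h1' : 0 < 1 - η := by linarith
  have hd0 : 0 < d := by positivity
  have hdL : L ≤ d := by
    rw [hd]
    have : 1 ≤ (1 + η) / (1 - η) := by
      rw [le_div_iff₀ h1']
      linarith
    nlinarith
  have hdle : eb (adj R X) S S / S.card ≤ d := by
    rw [div_le_iff₀ hSpos]
    refine heb.trans ?_
    calc (1 + η) * m * L = d * ((1 - η) * m) := by
          rw [hd]
          field_simp
      _ ≤ d * S.card := mul_le_mul_of_nonneg_left hScard hd0.le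
  have hsf : (Real.log L - 1) / d ≤ sf (eb (adj R X) S S / S.card) := by
    refine le_trans ?_ (sf_anti (div_nonneg (eb_nonneg _ _ _) hSpos.le) hdle)
    refine le_trans ?_ (sf_ge hd0)
    refine div_le_div_of_nonneg_right ?_ hd0.le
    have : Real.log L ≤ Real.log (1 + d) := Real.log_le_log hL0 (by linarith)
    linarith
  have h2 : (1 - η) * m * ((Real.log L - 1) / d) ≤ best R X := by
    have h3 : 0 ≤ (Real.log L - 1) / d := div_nonneg (by linarith) hd0.le
    calc (1 - η) * m * ((Real.log L - 1) / d) ≤ S.card * ((Real.log L - 1) / d) :=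
          mul_le_mul_of_nonneg_right hScard h3
      _ ≤ S.card * sf (eb (adj R X) S S / S.card) := mul_le_mul_of_nonneg_left hsf hSpos.le
      _ ≤ I.card := hIc
      _ ≤ best R X := by exact_mod_cast hIbest
  have h3 := mul_le_mul_of_nonneg_right h2 hv.le
  refine le_trans (le_of_eq ?_) h3
  rw [hd, hLdef]
  field_simp

/-- **The lower bound for `m` points.** -/
theorem low_m (hG : Geo μ R p) (hq : Tri μ R p q) (hq0 : 0 ≤ q) (hm : 2 ≤ m) {η : ℝ} (h0 : 0 < η)
    (h1 : η < 1) (hL : 1 ≤ Real.log (m * p)) :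
    (lawG μ m).real {X | best R X * p <
      (1 - η) ^ 2 / (1 + η) * (Real.log (m * p) - 1)} ≤
      4 * p / (η ^ 2 * (m * p) ^ 2) +
        q * (m * p) ^ 2 / η := by
  have hmR : (2 : ℝ) ≤ m := by exact_mod_cast hm
  have hv := hG.pos
  have hC := card_prs m
  have hC1 : (m : ℝ) ^ 2 / 4 ≤ (prs m).card := by nlinarith
  have hC0 : 0 < (prs m).card := by
    have : (0 : ℝ) < (prs m).card := lt_of_lt_of_le (by positivity) hC1
    exact_mod_cast this
  have hsub : {X : Fin m → Ω | best R X * p <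
      (1 - η) ^ 2 / (1 + η) * (Real.log (m * p) - 1)} ⊆
      {X | (1 + η) * ((prs m).card * p) ≤ ∑ e ∈ prs m, ind R m e X} ∪
        {X | η * m ≤ (Bd R X).card} := by
    intro X hX
    by_contra hcon
    simp only [Set.mem_union, Set.mem_ofPred_eq, not_or, not_le] at hcon hX
    exact absurd (best_ge hG (by omega) h0 h1 hL X hcon.2.le hcon.1.le) (not_le.2 hX)
  refine (measureReal_mono hsub (measure_ne_top _ _)).trans ?_
  refine (measureReal_union_le _ _).trans ?_
  refine add_le_add ?_ (Bd_prob hG hq hq0 (by omega) h0)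
  refine (edges_le hG h0 hC0).trans ?_
  have h2 : (m : ℝ) ^ 2 / 4 * p ≤ (prs m).card * p :=
    mul_le_mul_of_nonneg_right hC1 hv.le
  have h3 : 4 * p / (η ^ 2 * (m * p) ^ 2) =
      1 / (η ^ 2 * ((m : ℝ) ^ 2 / 4 * p)) := by
    field_simp
  rw [h3]
  exact one_div_le_one_div_of_le (by positivity) (mul_le_mul_of_nonneg_left h2 (by positivity))


/-- More points contain larger packings. -/
theorem best_mono (h : m ≤ N) (X : Fin N → Ω) :
    best R (fun i => X (Fin.castLE h i)) ≤ best R X := by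
  classical
  obtain ⟨s, hs, hc⟩ := exists_best R (fun i => X (Fin.castLE h i))
  have hinj : Function.Injective (Fin.castLE h) := Fin.castLE_injective h
  rw [← hc, ← Finset.card_image_of_injective s hinj]
  refine le_best ?_
  intro i hi j hj hij
  obtain ⟨a, ha, rfl⟩ := Finset.mem_image.1 hi
  obtain ⟨b, hb, rfl⟩ := Finset.mem_image.1 hj
  exact hs a ha b hb fun h => hij (by rw [h])

theorem law_mono (hG : Geo μ R p) (h : m ≤ N) (c : ℝ) :
    (lawG μ N).real {X | best R X * p < c} ≤
      (lawG μ m).real {X | best R X * p < c} := by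
  have hm : Measurable fun (X : Fin N → Ω) (i : Fin m) => X (Fin.castLE h i) :=
    measurable_pi_lambda _ fun i => measurable_pi_apply _
  have h1 := Measure.le_map_apply (μ := lawG μ N) hm.aemeasurable
    {X : Fin m → Ω | best R X * p < c}
  rw [map_inj (Fin.castLE_injective h)] at h1
  have h2 : {X : Fin N → Ω | best R X * p < c} ⊆
      (fun (X : Fin N → Ω) (i : Fin m) => X (Fin.castLE h i)) ⁻¹'
        {X : Fin m → Ω | best R X * p < c} := by
    intro X hX
    simp only [Set.mem_ofPred_eq, Set.mem_preimage] at hX ⊢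
    have h3 : (best R (fun i => X (Fin.castLE h i)) : ℝ) ≤ best R X := by
      exact_mod_cast best_mono h X
    have h4 : 0 ≤ p := hG.pos.le
    exact (mul_le_mul_of_nonneg_right h3 h4).trans_lt hX
  exact ENNReal.toReal_mono (measure_ne_top _ _) ((measure_mono h2).trans h1)


/-- **The lower bound, asymptotically.** -/
theorem low_evG {ε xs : ℝ} (hε : 0 < ε) (hx1 : xs < 1 / 12) : ∃ n₀ : ℕ, ∀ n : ℕ, n₀ ≤ n →
    ∀ {Ω : Type} [MeasurableSpace Ω] {μ : Measure Ω} [IsProbabilityMeasure μ] {R : Ω → Ω → Prop}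
    {p : ℝ}, Geo μ R p → Tri μ R p (Real.exp (-((2 * xs - ε / 2) * n))) → p ≤ (19 / 20) ^ n →
    ∀ (x : ℝ) (N : ℕ), Real.exp (x * n) ≤ N * p →
    (lawG μ N).real {X | best R X * p < (min x xs - ε) * n} ≤ ε := by
  by_cases hε1 : xs ≤ ε
  · refine ⟨0, fun n _ Ω _ μ _ R p hG _ _ x N _ => ?_⟩
    have : {X : Fin N → Ω | best R X * p < (min x xs - ε) * n} = ∅ := by
      ext X
      simp only [Set.mem_ofPred_eq, Set.mem_empty_iff_false, iff_false, not_lt]
      have h1 : (min x xs - ε) * n ≤ 0 :=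
        mul_nonpos_of_nonpos_of_nonneg (by linarith [min_le_right x xs]) (Nat.cast_nonneg n)
      have h2 : 0 ≤ best R X * p :=
        mul_nonneg (Nat.cast_nonneg _) hG.pos.le
      linarith
    rw [this]
    simpa using hε.le
  push Not at hε1
  set η : ℝ := ε / 3 with hη
  have hη0 : 0 < η := by positivity
  have hη1 : η < 1 := by linarith
  have e1 : ∀ᶠ n : ℕ in atTop, 4 * (19 / 20 : ℝ) ^ n / η ^ 2 ≤ ε / 2 := by
    have h1 : Tendsto (fun n : ℕ => 4 * (19 / 20 : ℝ) ^ n / η ^ 2) atTop (𝓝 (4 * 0 / η ^ 2)) :=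
      ((tendsto_pow_atTop_nhds_zero_of_lt_one (by norm_num) (by norm_num)).const_mul 4).div_const _
    rw [mul_zero, zero_div] at h1
    exact h1.eventually_le_const (by positivity)
  have e2 : ∀ᶠ n : ℕ in atTop, 4 * Real.exp (-(ε / 2 * n)) / η ≤ ε / 2 := by
    have h0 : Tendsto (fun n : ℕ => ε / 2 * (n : ℝ)) atTop atTop :=
      tendsto_natCast_atTop_atTop.const_mul_atTop (half_pos hε)
    have h1 : Tendsto (fun n : ℕ => 4 * Real.exp (-(ε / 2 * n)) / η) atTop (𝓝 (4 * 0 / η)) :=
      ((Real.tendsto_exp_neg_atTop_nhds_zero.comp h0).const_mul 4).div_const _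
    rw [mul_zero, zero_div] at h1
    exact h1.eventually_le_const (by positivity)
  have e3 : ∀ᶠ n : ℕ in atTop, 3 / ε ≤ (n : ℝ) := tendsto_natCast_atTop_atTop.eventually_ge_atTop _
  obtain ⟨n₀, hn₀⟩ := eventually_atTop.1 ((e1.and e2).and (e3.and (eventually_ge_atTop 14)))
  refine ⟨n₀, fun n hn Ω _ μ _ R p hG hT hp x N hN => ?_⟩
  obtain ⟨⟨f1, f2⟩, f3, f4⟩ := hn₀ n hn
  have hnR : (1 : ℝ) ≤ n := by
    have : (14 : ℝ) ≤ n := by exact_mod_cast f4
    linarith
  rw [div_le_iff₀ hε] at f3
  have hv := hG.pos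
  set w := min x xs with hw
  have hwx : w ≤ x := min_le_left _ _
  have hws : w ≤ xs := min_le_right _ _
  by_cases hwε : w ≤ ε
  · have : {X : Fin N → Ω | best R X * p < (w - ε) * n} = ∅ := by
      ext X
      simp only [Set.mem_ofPred_eq, Set.mem_empty_iff_false, iff_false, not_lt]
      have h1 : (w - ε) * n ≤ 0 :=
        mul_nonpos_of_nonpos_of_nonneg (by linarith) (Nat.cast_nonneg n)
      have h2 : 0 ≤ best R X * p :=
        mul_nonneg (Nat.cast_nonneg _) hG.pos.le
      linarith
    rw [this]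
    simpa using hε.le
  push Not at hwε
  set L1 := Real.exp ((w - ε / 2) * n) with hL1
  have hL1ge : 1 ≤ L1 := by
    rw [hL1]
    exact Real.one_le_exp (mul_nonneg (by linarith) (by linarith))
  have hv1 : p ≤ 1 / 2 := hp.trans (by
    calc (19 / 20 : ℝ) ^ n ≤ (19 / 20) ^ 14 := pow_le_pow_of_le_one (by norm_num) (by norm_num) f4
      _ ≤ 1 / 2 := by norm_num)
  set m := ⌈L1 / p⌉₊ with hm
  have hm1 : L1 ≤ m * p := by
    have := Nat.le_ceil (L1 / p)
    rwa [div_le_iff₀ hv] at this
  have hm2 : m * p < L1 + p := by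
    have := Nat.ceil_lt_add_one (a := L1 / p) (by positivity)
    have h2 := mul_lt_mul_of_pos_right this hv
    rw [add_mul, div_mul_cancel₀ _ hv.ne', one_mul] at h2
    exact h2
  have hm3 : m * p ≤ 2 * L1 := by linarith
  have hmN : m ≤ N := by
    have h1 : L1 * Real.exp (ε / 2 * n) ≤ N * p := by
      refine le_trans ?_ hN
      rw [hL1, ← Real.exp_add, Real.exp_le_exp]
      nlinarith
    have h2 : 2 ≤ Real.exp (ε / 2 * n) := by
      have := Real.add_one_le_exp (ε / 2 * (n : ℝ))
      linarith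
    have h3 : (m : ℝ) * p < N * p := by nlinarith
    have h4 := lt_of_mul_lt_mul_right h3 hv.le
    exact_mod_cast h4.le
  have hm2' : 2 ≤ m := by
    have h1 : (2 : ℝ) * p ≤ m * p := by linarith
    have h2 := le_of_mul_le_mul_right h1 hv
    exact_mod_cast h2
  have hlog : (w - ε / 2) * n ≤ Real.log (m * p) := by
    rw [Real.le_log_iff_exp_le (by positivity)]
    exact hm1
  have hlog1 : 1 ≤ Real.log (m * p) := by
    refine le_trans ?_ hlog
    nlinarith
  refine (law_mono hG hmN _).trans ?_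
  have h1 : {X : Fin m → Ω | best R X * p < (w - ε) * n} ⊆
      {X | best R X * p <
        (1 - η) ^ 2 / (1 + η) * (Real.log (m * p) - 1)} := by
    intro X hX
    simp only [Set.mem_ofPred_eq] at hX ⊢
    refine hX.trans_le ?_
    have h2 : 1 - 3 * η ≤ (1 - η) ^ 2 / (1 + η) := by
      rw [le_div_iff₀ (by linarith)]
      nlinarith
    have h3 : 0 ≤ Real.log (m * p) - 1 := by linarith
    refine le_trans ?_ (mul_le_mul_of_nonneg_right h2 h3)
    have h4 : 1 - 3 * η = 1 - ε := by rw [hη]; ring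
    rw [h4]
    have h5 : (1 - ε) * ((w - ε / 2) * n - 1) ≤ (1 - ε) * (Real.log (m * p) - 1) :=
      mul_le_mul_of_nonneg_left (by linarith) (by linarith)
    refine le_trans ?_ h5
    have h6 : w * ε ≤ 1 / 12 * ε := mul_le_mul_of_nonneg_right (by linarith) hε.le
    nlinarith [mul_le_mul_of_nonneg_right h6 (by linarith : (0 : ℝ) ≤ n), mul_pos hε hε]
  refine (measureReal_mono h1 (measure_ne_top _ _)).trans ?_
  refine (low_m hG hT (Real.exp_pos _).le hm2' hη0 hη1 hlog1).trans ?_
  have g1 : 4 * p / (η ^ 2 * (m * p) ^ 2) ≤ ε / 2 := by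
    refine le_trans ?_ f1
    rw [div_le_div_iff₀ (by positivity) (by positivity)]
    have h2 : 1 ≤ (m * p) ^ 2 := one_le_pow₀ (by linarith)
    have h3 : p ≤ (19 / 20) ^ n * (m * p) ^ 2 := by
      have : (0 : ℝ) < (19 / 20) ^ n := by positivity
      nlinarith
    have h4 := mul_le_mul_of_nonneg_right h3 (show 0 ≤ 4 * η ^ 2 by positivity)
    linarith
  have g2 : Real.exp (-((2 * xs - ε / 2) * n)) * (m * p) ^ 2 / η ≤ ε / 2 := by
    refine le_trans ?_ f2
    refine div_le_div_of_nonneg_right ?_ hη0.le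
    have h2 : (m * p) ^ 2 ≤ 4 * Real.exp ((2 * w - ε) * n) := by
      have h3 : (m * p) ^ 2 ≤ (2 * L1) ^ 2 := pow_le_pow_left₀ (by positivity) hm3 2
      refine h3.trans (le_of_eq ?_)
      rw [mul_pow, hL1, ← Real.exp_nat_mul]
      norm_num
      ring_nf
    calc Real.exp (-((2 * xs - ε / 2) * n)) * (m * p) ^ 2
        ≤ Real.exp (-((2 * xs - ε / 2) * n)) * (4 * Real.exp ((2 * w - ε) * n)) :=
          mul_le_mul_of_nonneg_left h2 (Real.exp_pos _).le
      _ = 4 * Real.exp (-((2 * xs - ε / 2) * n) + (2 * w - ε) * n) := by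
          rw [Real.exp_add]
          ring
      _ ≤ 4 * Real.exp (-(ε / 2 * n)) := by
          refine mul_le_mul_of_nonneg_left (Real.exp_le_exp.2 ?_) (by norm_num)
          nlinarith
  linarith

end Pool.Agent.U279.KR
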