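import Pool.Agent.U279.KR.Cell
import Pool.Agent.U279.KR.GenLow

set_option autoImplicit false

/-! Kissing configurations in random sets: the exact order. -/

open MeasureTheory Metric Set Filter Topology
open scoped ENNReal RealInnerProductSpace Pointwise

namespace Pool.Agent.U279.KR

open Pool.Agent.N303.SH

/-- `log (9/8) / 4` -/
noncomputable def xk : ℝ := Real.log (9 / 8) / 4

lemma xk_pos : 0 < xk := by
  unfold xk
  have := Real.log_pos (show (1 : ℝ) < 9 / 8 by norm_num)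
  positivity

lemma xk_lt : xk < 1 / 12 := by
  unfold xk
  have := Real.log_le_sub_one_of_pos (show (0 : ℝ) < 9 / 8 by norm_num)
  linarith

lemma sqrt_half : Real.sqrt (1 / 2) = Real.exp (-(2 * xk)) * (3 / 4) := by
  rw [Real.sqrt_eq_iff_mul_self_eq (by norm_num) (by positivity)]
  have h1 : Real.exp (-(2 * xk)) * Real.exp (-(2 * xk)) = 8 / 9 := by
    rw [← Real.exp_add]
    have : -(2 * xk) + -(2 * xk) = -Real.log (9 / 8) := by
      unfold xk
      ring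
    rw [this, Real.exp_neg, Real.exp_log (by norm_num)]
    norm_num
  symm
  calc (Real.exp (-(2 * xk)) * (3 / 4)) * (Real.exp (-(2 * xk)) * (3 / 4)) =
        (Real.exp (-(2 * xk)) * Real.exp (-(2 * xk))) * (9 / 16) := by ring
    _ = _ := by rw [h1]; norm_num

lemma sqrt34 : Real.sqrt (1 - (1 / 2) ^ 2) < 9 / 10 * (19 / 20) + 1 / 50 := by
  rw [Real.sqrt_lt' (by norm_num)]
  norm_num

/-- The caps are small. -/
lemma pc_small : ∀ᶠ d : ℕ in atTop, pc (d + 1) (1 / 2) ≤ (19 / 20 : ℝ) ^ (d + 3) := by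
  set r : ℝ := Real.sqrt (1 - (1 / 2) ^ 2) * (20 / 19) with hr
  have hr0 : 0 ≤ r := by positivity
  have hr1 : r < 1 := by
    have := sqrt34
    rw [hr]
    nlinarith
  have h1 := tendsto_pow_const_mul_const_pow_of_abs_lt_one 1 (abs_lt.2 ⟨by linarith, hr1⟩)
  have h2 := h1.eventually_le_const (show (0 : ℝ) < (19 / 20) ^ 3 / 2 by norm_num)
  filter_upwards [h2, eventually_ge_atTop 1] with d h2 hd
  refine (pc_le d (by norm_num)).trans ?_
  have hdR : (1 : ℝ) ≤ d := by exact_mod_cast hd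
  have h3 : Real.sqrt (1 - (1 / 2) ^ 2) = r * (19 / 20) := by rw [hr]; ring
  rw [h3, mul_pow, pow_add]
  rw [pow_one] at h2
  have h4 : 0 ≤ r ^ d := by positivity
  have h5 : (0 : ℝ) ≤ (19 / 20) ^ d := by positivity
  calc ((d : ℝ) + 1) * (r ^ d * (19 / 20) ^ d) ≤ (2 * d) * (r ^ d * (19 / 20) ^ d) :=
        mul_le_mul_of_nonneg_right (by linarith) (by positivity)
    _ = 2 * (d * r ^ d) * (19 / 20) ^ d := by ring
    _ ≤ 2 * ((19 / 20) ^ 3 / 2) * (19 / 20) ^ d := by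
        refine mul_le_mul_of_nonneg_right ?_ h5
        linarith
    _ = _ := by ring

/-- The triangle condition. -/
lemma tri_ev {ε : ℝ} (hε : 0 < ε) : ∀ᶠ d : ℕ in atTop,
    Tri (mu (d + 1 + 2)) (Rs (d + 1 + 2) (1 / 2)) (pc (d + 1) (1 / 2))
      (Real.exp (-((2 * xk - ε / 2) * ((d + 1 + 2 : ℕ) : ℝ)))) := by
  set η : ℝ := ε / 8 with hη
  have hη0 : 0 < η := by positivity
  set δ : ℝ := 3 / 8 * (1 - Real.exp (-η)) with hδ
  have he1 : Real.exp (-η) < 1 := (Real.exp_lt_exp.2 (by linarith)).trans_eq Real.exp_zero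
  have he0 := Real.exp_pos (-η)
  have hδ0 : 0 < δ := by rw [hδ]; nlinarith
  have hδ1 : δ ≤ 3 / 8 := by rw [hδ]; nlinarith
  have hδ2 : 3 / 4 * Real.exp (-η) ≤ 1 - (1 / 2 + δ) ^ 2 := by
    have : 2 * δ = 3 / 4 - 3 / 4 * Real.exp (-η) := by rw [hδ]; ring
    nlinarith
  set r : ℝ := Real.exp (-(3 * η)) with hr
  have hr0 : 0 ≤ r := (Real.exp_pos _).le
  have hr1 : r < 1 := (Real.exp_lt_exp.2 (by linarith)).trans_eq Real.exp_zero
  have h1 := tendsto_pow_const_mul_const_pow_of_abs_lt_one 2 (abs_lt.2 ⟨by linarith, hr1⟩)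
  have hC : 0 < Real.exp (-(6 * xk)) * (δ ^ 2 / 4) / 4 := by positivity
  have h2 := h1.eventually_le_const hC
  filter_upwards [h2, eventually_ge_atTop 1] with d h2 hd
  intro x
  refine (tri_sph d x).trans (ENNReal.ofReal_le_ofReal ?_)
  have hdR : (1 : ℝ) ≤ d := by exact_mod_cast hd
  have hp := pc_ge d (s := 1 / 2) (δ := δ) (by norm_num) hδ0 (by linarith)
  set P := pc (d + 1) (1 / 2) with hP
  have hB0 : 0 ≤ δ / 2 * Real.sqrt (1 - (1 / 2 + δ) ^ 2) ^ d := by positivity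
  have h3 : δ ^ 2 / 4 * (3 / 4 * Real.exp (-η)) ^ d ≤ P * P := by
    calc δ ^ 2 / 4 * (3 / 4 * Real.exp (-η)) ^ d ≤ δ ^ 2 / 4 * (1 - (1 / 2 + δ) ^ 2) ^ d := by
          gcongr
      _ = (δ / 2 * Real.sqrt (1 - (1 / 2 + δ) ^ 2) ^ d) *
          (δ / 2 * Real.sqrt (1 - (1 / 2 + δ) ^ 2) ^ d) := by
          have h4 : 0 ≤ 1 - (1 / 2 + δ) ^ 2 := by
            have : 0 < 3 / 4 * Real.exp (-η) := by positivity
            linarith
          have h5 : Real.sqrt (1 - (1 / 2 + δ) ^ 2) ^ d * Real.sqrt (1 - (1 / 2 + δ) ^ 2) ^ d =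
              (1 - (1 / 2 + δ) ^ 2) ^ d := by
            rw [← mul_pow, Real.mul_self_sqrt h4]
          rw [← h5]
          ring
      _ ≤ P * P := mul_le_mul hp hp hB0 (hB0.trans hp)
  have h4 : Real.sqrt (1 / 2) ^ d = Real.exp (-(2 * xk * d)) * (3 / 4) ^ d := by
    rw [sqrt_half, mul_pow, ← Real.exp_nat_mul]
    congr 2
    ring
  have h5 : (3 / 4 * Real.exp (-η)) ^ d = (3 / 4) ^ d * Real.exp (-(η * d)) := by
    rw [mul_pow, ← Real.exp_nat_mul]
    congr 2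
    ring
  have h6 : r ^ d = Real.exp (-(3 * η * d)) := by
    rw [hr, ← Real.exp_nat_mul]
    congr 1
    ring
  rw [h6] at h2
  rw [h4]
  rw [h5] at h3
  set A := ((3 : ℝ) / 4) ^ d with hA
  have hA0 : 0 < A := by positivity
  have h7 : ((d : ℝ) + 1) * (d + 1) ≤ 4 * d ^ 2 := by nlinarith
  have h8 : (4 : ℝ) * d ^ 2 ≤ Real.exp (-(6 * xk)) * (δ ^ 2 / 4) * Real.exp (3 * η * d) := by
    have h9 : (d : ℝ) ^ 2 = (d ^ 2 * Real.exp (-(3 * η * d))) * Real.exp (3 * η * d) := by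
      rw [mul_assoc, ← Real.exp_add]
      simp
    rw [h9]
    have := mul_le_mul_of_nonneg_right h2 (Real.exp_pos (3 * η * (d : ℝ))).le
    linarith
  calc ((d : ℝ) + 1) * (((d : ℝ) + 1) * (Real.exp (-(2 * xk * d)) * A))
      = (((d : ℝ) + 1) * (d + 1)) * (Real.exp (-(2 * xk * d)) * A) := by ring
    _ ≤ (Real.exp (-(6 * xk)) * (δ ^ 2 / 4) * Real.exp (3 * η * d)) *
        (Real.exp (-(2 * xk * d)) * A) :=
        mul_le_mul_of_nonneg_right (h7.trans h8) (by positivity)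
    _ = (Real.exp (-(6 * xk)) * Real.exp (3 * η * d) * Real.exp (-(2 * xk * d)) *
          Real.exp (η * d)) * (δ ^ 2 / 4 * (A * Real.exp (-(η * d)))) := by
        have : Real.exp (η * d) * Real.exp (-(η * d)) = 1 := by rw [← Real.exp_add]; simp
        calc (Real.exp (-(6 * xk)) * (δ ^ 2 / 4) * Real.exp (3 * η * d)) *
              (Real.exp (-(2 * xk * d)) * A) = Real.exp (-(6 * xk)) * (δ ^ 2 / 4) *
              Real.exp (3 * η * d) * Real.exp (-(2 * xk * d)) * A * 1 := by ring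
          _ = _ := by rw [← this]; ring
    _ ≤ Real.exp (-((2 * xk - ε / 2) * ((d + 1 + 2 : ℕ) : ℝ))) * (P * P) := by
        refine mul_le_mul ?_ h3 (by positivity) (Real.exp_pos _).le
        rw [← Real.exp_add, ← Real.exp_add, ← Real.exp_add]
        refine Real.exp_le_exp.2 ?_
        push_cast
        have : ε = 8 * η := by rw [hη]; ring
        rw [this]
        nlinarith
    _ = _ := by ring

/-- the two-point probability in dimension `n` -/
noncomputable def pn (n : ℕ) : ℝ := pc (n - 2) (1 / 2)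

theorem prob_ge {Ω : Type} [MeasurableSpace Ω] {μ : Measure Ω} [IsProbabilityMeasure μ]
    {A : Set Ω} {ε : ℝ} (h : μ.real Aᶜ ≤ ε) :
    1 - ε ≤ μ.real A := by
  have h1 := measureReal_union_le (μ := μ) A Aᶜ
  rw [Set.union_compl_self, measureReal_def, measure_univ] at h1
  simp only [ENNReal.toReal_one] at h1
  linarith

/-- **The largest kissing configuration among random unit vectors.** -/
theorem main1 {ε : ℝ} (hε : 0 < ε) : ∃ n₀ : ℕ, ∀ n : ℕ, n₀ ≤ n → ∀ (x : ℝ) (N : ℕ), 0 ≤ x →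
    x ≤ y0 - ε → N * pn n = Real.exp (x * n) →
    1 - ε ≤ (lawG (mu n) N).real {X | (min x xk - ε) * n ≤ best (Rs n (1 / 2)) X * pn n ∧
      best (Rs n (1 / 2)) X * pn n ≤ (upc x + ε) * n} := by
  obtain ⟨n₁, h₁⟩ := up_evG (half_pos hε)
  obtain ⟨n₂, h₂⟩ := low_evG (half_pos hε) xk_lt
  obtain ⟨c₀, h₃⟩ := sup60
  obtain ⟨d₁, hd₁⟩ := eventually_atTop.1 pc_small
  obtain ⟨d₂, hd₂⟩ := eventually_atTop.1 (tri_ev (half_pos hε))
  refine ⟨n₁ + n₂ + c₀ + d₁ + d₂ + 3, fun n hn x N h0 h1 hN => ?_⟩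
  obtain ⟨d, rfl⟩ : ∃ d, n = d + 1 + 2 := ⟨n - 3, by omega⟩
  have hpn : pn (d + 1 + 2) = pc (d + 1) (1 / 2) := rfl
  rw [hpn] at hN ⊢
  have hG := geo_sph (c := d + 1) (by omega) (s := 1 / 2) (by norm_num) (by norm_num)
  have hp := hd₁ d (by omega)
  have hp1 : pc (d + 1) (1 / 2) ≤ 1 := hp.trans (pow_le_one₀ (by norm_num) (by norm_num))
  have hS : Sat (mu (d + 1 + 2)) (Rs (d + 1 + 2) (1 / 2)) (pc (d + 1) (1 / 2))
      (Real.exp (-(((d + 1 + 2 : ℕ) : ℝ) / 20))) := by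
    intro K hK
    have h := h₃ (d + 1) (by omega) K hK
    have e1 : Real.exp (-(((d + 1 + 2 : ℕ) : ℝ) / 20)) =
        Real.exp (-(((d + 1 : ℕ) : ℝ) + 2) / 20) := by
      congr 1
      push_cast
      ring
    rw [e1]
    exact h
  have e1 := h₁ (d + 1 + 2) (by omega) (S (d + 1 + 2)) (mu (d + 1 + 2)) (Rs (d + 1 + 2) (1 / 2))
    (pc (d + 1) (1 / 2)) hG hp1 (cells_sph d) hS x N h0 (by linarith) hN.le
  have e2 := h₂ (d + 1 + 2) (by omega) (μ := mu (d + 1 + 2)) (R := Rs (d + 1 + 2) (1 / 2))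
    hG (hd₂ d (by omega)) hp x N hN.ge
  refine prob_ge ?_
  have hn0 : (0 : ℝ) ≤ ((d + 1 + 2 : ℕ) : ℝ) := Nat.cast_nonneg _
  have hsub : {X : Fin N → S (d + 1 + 2) | (min x xk - ε) * ((d + 1 + 2 : ℕ) : ℝ) ≤
      best (Rs (d + 1 + 2) (1 / 2)) X * pc (d + 1) (1 / 2) ∧
      best (Rs (d + 1 + 2) (1 / 2)) X * pc (d + 1) (1 / 2) ≤ (upc x + ε) * ((d + 1 + 2 : ℕ) : ℝ)}ᶜ ⊆
      {X | (upc x + ε / 2) * ((d + 1 + 2 : ℕ) : ℝ) ≤
        best (Rs (d + 1 + 2) (1 / 2)) X * pc (d + 1) (1 / 2)} ∪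
        {X | best (Rs (d + 1 + 2) (1 / 2)) X * pc (d + 1) (1 / 2) <
          (min x xk - ε / 2) * ((d + 1 + 2 : ℕ) : ℝ)} := by
    intro X hX
    by_contra hcon
    simp only [Set.mem_union, Set.mem_ofPred_eq, not_or, not_le, not_lt] at hcon
    apply hX
    have h3 : 0 ≤ ε / 2 * ((d + 1 + 2 : ℕ) : ℝ) := by positivity
    refine ⟨?_, ?_⟩
    · linarith [hcon.2]
    · linarith [hcon.1]
  refine (measureReal_mono hsub (measure_ne_top _ _)).trans ?_
  refine (measureReal_union_le _ _).trans ?_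
  linarith

end Pool.Agent.U279.KR
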