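import Pool.Agent.U279.KR.Sph

set_option autoImplicit false

/-! Cells of the sphere. -/

open MeasureTheory Metric Set Filter Topology ProbabilityTheory
open scoped ENNReal RealInnerProductSpace Pointwise

namespace Pool.Agent.U279.KR

open Pool.Agent.N303.SH

/-- A law on the line without atoms has a continuous distribution function. -/
lemma cdf_cont (ν : Measure ℝ) [IsProbabilityMeasure ν] (h : ∀ t, ν {t} = 0) :
    Continuous (cdf ν : ℝ → ℝ) := by
  rw [continuous_iff_continuousAt]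
  intro t
  rw [(monotone_cdf ν).continuousAt_iff_leftLim_eq_rightLim, StieltjesFunction.rightLim_eq]
  have h1 : (cdf ν).measure {t} = 0 := by rw [measure_cdf]; exact h t
  rw [StieltjesFunction.measure_singleton, ENNReal.ofReal_eq_zero] at h1
  refine le_antisymm ((monotone_cdf ν).leftLim_le le_rfl) ?_
  linarith

lemma le_level (ν : Measure ℝ) [IsProbabilityMeasure ν] (h : ∀ t, ν {t} = 0) {a : ℝ}
    (ha : 0 < a) (ha1 : a < 1) : a ≤ ν.real {z | cdf ν z ≤ a} := by
  have hc := cdf_cont ν h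
  obtain ⟨t1, ht1⟩ : ∃ t, cdf ν t ≤ a := by
    have := (tendsto_cdf_atBot ν).eventually (gt_mem_nhds ha)
    obtain ⟨t, ht⟩ := this.exists
    exact ⟨t, ht.le⟩
  obtain ⟨t2, ht2⟩ : ∃ t, a ≤ cdf ν t := by
    have := (tendsto_cdf_atTop ν).eventually (lt_mem_nhds ha1)
    obtain ⟨t, ht⟩ := this.exists
    exact ⟨t, ht.le⟩
  obtain ⟨t, ht⟩ := mem_range_of_exists_le_of_exists_ge hc ⟨t1, ht1⟩ ⟨t2, ht2⟩
  calc a = ν.real (Iic t) := by rw [← ht, cdf_eq_real]
    _ ≤ _ := measureReal_mono (fun z hz => by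
        have := monotone_cdf ν (show z ≤ t from hz)
        rw [ht] at this
        exact this)

lemma level_le (ν : Measure ℝ) [IsProbabilityMeasure ν] (h : ∀ t, ν {t} = 0) {a : ℝ}
    (ha : 0 < a) (ha1 : a ≤ 1) : ν.real {z | cdf ν z ≤ a} ≤ a := by
  rcases ha1.lt_or_eq with ha1 | rfl
  · have hc := cdf_cont ν h
    obtain ⟨t1, ht1⟩ : ∃ t, cdf ν t ≤ a := by
      have := (tendsto_cdf_atBot ν).eventually (gt_mem_nhds ha)
      obtain ⟨t, ht⟩ := this.exists
      exact ⟨t, ht.le⟩
    obtain ⟨t2, ht2⟩ : ∃ t, a < cdf ν t := by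
      have := (tendsto_cdf_atTop ν).eventually (lt_mem_nhds ha1)
      exact this.exists
    have hb : BddAbove {z | cdf ν z ≤ a} := ⟨t2, fun z hz => by
      by_contra hcon
      push Not at hcon
      have := monotone_cdf ν hcon.le
      have h2 : cdf ν z ≤ a := hz
      linarith⟩
    have hcl : IsClosed {z | cdf ν z ≤ a} := isClosed_le hc continuous_const
    have hm : sSup {z | cdf ν z ≤ a} ∈ {z | cdf ν z ≤ a} := hcl.csSup_mem ⟨t1, ht1⟩ hb
    calc ν.real {z | cdf ν z ≤ a} ≤ ν.real (Iic (sSup {z | cdf ν z ≤ a})) :=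
          measureReal_mono fun z hz => le_csSup hb hz
      _ = cdf ν (sSup {z | cdf ν z ≤ a}) := by rw [cdf_eq_real]
      _ ≤ a := hm
  · exact measureReal_le_one

/-- **Cells.** -/
lemma cells_of {Ω : Type} [MeasurableSpace Ω] (μ : Measure Ω) [IsProbabilityMeasure μ] (f : Ω → ℝ)
    (hf : Measurable f) (h : ∀ t, μ (f ⁻¹' {t}) = 0) : Cells μ := by
  set ν := μ.map f with hν
  haveI : IsProbabilityMeasure ν := Measure.isProbabilityMeasure_map hf.aemeasurable
  have hat : ∀ t, ν {t} = 0 := fun t => by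
    rw [hν, Measure.map_apply hf (measurableSet_singleton t)]
    exact h t
  have hcm : Measurable (cdf ν : ℝ → ℝ) := (monotone_cdf ν).measurable
  have hpre : ∀ A : Set ℝ, MeasurableSet A → μ.real (f ⁻¹' A) = ν.real A := fun A hA => by
    rw [hν, map_measureReal_apply hf hA]
  intro m hm
  have hmR : (0 : ℝ) < m := by exact_mod_cast hm
  set P : Fin m → Set ℝ := fun i => {z | cdf ν z ≤ ((i : ℕ) + 1) / m} \
    (if (i : ℕ) = 0 then ∅ else {z | cdf ν z ≤ ((i : ℕ) : ℝ) / m}) with hP
  have hlev : ∀ a : ℝ, MeasurableSet {z | cdf ν z ≤ a} := fun a => measurableSet_le hcm measurable_const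
  have hPm : ∀ i, MeasurableSet (P i) := fun i => by
    simp only [hP]
    refine (hlev _).diff ?_
    split_ifs
    · exact MeasurableSet.empty
    · exact hlev _
  refine ⟨fun i => f ⁻¹' P i, fun i => hf (hPm i), ?_, fun i => ?_⟩
  · rw [Set.eq_univ_iff_forall]
    intro ω
    rw [Set.mem_iUnion]
    set z := f ω with hz
    have h1 : cdf ν z ≤ 1 := cdf_le_one ν z
    have h0 : 0 ≤ cdf ν z := cdf_nonneg ν z
    set k := ⌈cdf ν z * m⌉₊ with hk
    have hk1 : k ≤ m := by
      rw [hk, Nat.ceil_le]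
      nlinarith
    by_cases hk0 : k = 0
    · refine ⟨⟨0, hm⟩, ?_, by simp⟩
      have : cdf ν z * m ≤ 0 := by
        have := Nat.ceil_eq_zero.1 hk0
        exact this
      show cdf ν z ≤ (((0 : ℕ) : ℝ) + 1) / m
      rw [le_div_iff₀ hmR]
      push_cast
      linarith
    · refine ⟨⟨k - 1, by omega⟩, ?_, ?_⟩
      · show cdf ν z ≤ (((k - 1 : ℕ) : ℝ) + 1) / m
        rw [le_div_iff₀ hmR]
        have : ((k - 1 : ℕ) : ℝ) + 1 = k := by
          have : (k - 1) + 1 = k := by omega
          exact_mod_cast this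
        rw [this]
        exact Nat.le_ceil _
      · simp only
        split_ifs with hk2
        · simp
        · simp only [Set.mem_ofPred_eq, not_le]
          rw [div_lt_iff₀ hmR]
          have : k - 1 < k := by omega
          exact Nat.lt_ceil.1 this
  · rw [hpre _ (hPm i)]
    have hi : ((i : ℕ) : ℝ) + 1 ≤ m := by exact_mod_cast i.2
    have ha : (0 : ℝ) < (((i : ℕ) : ℝ) + 1) / m := by positivity
    have ha1 : (((i : ℕ) : ℝ) + 1) / m ≤ 1 := by
      rw [div_le_one hmR]
      exact hi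
    have hle := level_le ν hat ha ha1
    simp only [hP]
    split_ifs with h0
    · rw [Set.diff_empty]
      refine hle.trans (le_of_eq ?_)
      rw [h0]
      simp
    · have hi0 : (0 : ℝ) < ((i : ℕ) : ℝ) := by
        have : 0 < (i : ℕ) := Nat.pos_of_ne_zero h0
        exact_mod_cast this
      have h2 := le_level ν hat (a := ((i : ℕ) : ℝ) / m) (by positivity) (by
        rw [div_lt_one hmR]
        linarith)
      have hsub : {z | cdf ν z ≤ ((i : ℕ) : ℝ) / m} ⊆ {z | cdf ν z ≤ (((i : ℕ) : ℝ) + 1) / m} := by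
        intro z hz
        have hz' : cdf ν z ≤ ((i : ℕ) : ℝ) / m := hz
        have : ((i : ℕ) : ℝ) / m ≤ (((i : ℕ) : ℝ) + 1) / m :=
          div_le_div_of_nonneg_right (by linarith) hmR.le
        exact hz'.trans this
      rw [measureReal_diff hsub (hlev _)]
      have h3 : (((i : ℕ) : ℝ) + 1) / m - ((i : ℕ) : ℝ) / m = 1 / m := by ring
      linarith

lemma cells_sph (d : ℕ) : Cells (mu (d + 1 + 2)) := by
  have h0 : ‖e0 (d + 1)‖ = 1 := (on_e (d + 1)).hu
  set w0 : S (d + 1 + 2) := ⟨e0 (d + 1), by rw [mem_sphere_zero_iff_norm]; exact h0⟩ with hw0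
  refine cells_of (mu (d + 1 + 2)) (fun x => ⟪(w0 : E (d + 1 + 2)), (x : E (d + 1 + 2))⟫)
    (by fun_prop : Continuous fun x : S (d + 1 + 2) =>
      ⟪(w0 : E (d + 1 + 2)), (x : E (d + 1 + 2))⟫).measurable fun t => ?_
  have h1 := zonm d w0 (h := ({t} : Set ℝ).indicator fun _ => 1)
    (measurable_const.indicator (measurableSet_singleton t))
  have hmeas : MeasurableSet ((fun x : S (d + 1 + 2) =>
      ⟪(w0 : E (d + 1 + 2)), (x : E (d + 1 + 2))⟫) ⁻¹' {t}) :=
    (by fun_prop : Continuous fun x : S (d + 1 + 2) =>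
      ⟪(w0 : E (d + 1 + 2)), (x : E (d + 1 + 2))⟫).measurable (measurableSet_singleton t)
  rw [← lintegral_indicator_one hmeas]
  have h2 : ∀ x : S (d + 1 + 2), ((fun x : S (d + 1 + 2) =>
      ⟪(w0 : E (d + 1 + 2)), (x : E (d + 1 + 2))⟫) ⁻¹' {t}).indicator (1 : S (d + 1 + 2) → ℝ≥0∞) x =
      ({t} : Set ℝ).indicator (fun _ => 1) ⟪(w0 : E (d + 1 + 2)), (x : E (d + 1 + 2))⟫ := by
    intro x
    by_cases h : ⟪(w0 : E (d + 1 + 2)), (x : E (d + 1 + 2))⟫ = t
    · rw [Set.indicator_of_mem (by exact h), Set.indicator_of_mem (by exact h)]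
      rfl
    · rw [Set.indicator_of_notMem (by exact h), Set.indicator_of_notMem (by exact h)]
  simp only [h2]
  rw [h1]
  have h3 : ∫⁻ z in Icc (-1 : ℝ) 1, wz d z * ({t} : Set ℝ).indicator (fun _ => 1) z = 0 := by
    have h4 : ∀ z : ℝ, wz d z * ({t} : Set ℝ).indicator (fun _ => 1) z =
        ({t} : Set ℝ).indicator (fun _ => wz d t) z := by
      intro z
      by_cases h : z = t
      · subst h
        simp
      · rw [Set.indicator_of_notMem (by exact h), Set.indicator_of_notMem (by exact h), mul_zero]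
    simp only [h4]
    rw [lintegral_indicator_const (measurableSet_singleton t)]
    simp
  rw [h3, mul_zero]

end Pool.Agent.U279.KR
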