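import Pool.Agent.U279.KR.SphGas

set_option autoImplicit false

/-! The exponents of the hard-cap gas. -/

open MeasureTheory Metric Set Filter Topology
open scoped ENNReal RealInnerProductSpace

namespace Pool.Agent.U279.KR

open Pool.Agent.N303.SH
open Pool.Agent.H818R2 (sphMax kissing codeRate IsSphCode sph_nonempty sph_bdd le_sphMax
  codeRate_le codeRate_nonneg)

/-- the mean number of vectors of the gas -/
noncomputable def mS (n : ℕ) (lam : ℝ) : ℝ := meanG (mu n) (Rs n (1 / 2)) lam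

/-- the exponent of the gas at the activity `exp (x n) / p` -/
noncomputable def gasExp (x : ℝ) (n : ℕ) : ℝ := Real.logb 2 (mS n (Real.exp (x * n) / pn n)) / n

theorem geo_n {n : ℕ} (hn : 3 ≤ n) : Geo (mu n) (Rs n (1 / 2)) (pn n) := by
  obtain ⟨d, rfl⟩ : ∃ d, n = d + 1 + 2 := ⟨n - 3, by omega⟩
  exact geo_sph (c := d + 1) (by omega) (s := 1 / 2) (by norm_num) (by norm_num)

theorem prob_n {n : ℕ} (hn : 2 ≤ n) : IsProbabilityMeasure (mu n) := by
  obtain ⟨d, rfl⟩ : ∃ d, n = d + 2 := ⟨n - 2, by omega⟩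
  infer_instance

theorem mS_pos {n : ℕ} (hn : 3 ≤ n) {lam : ℝ} (h : 0 < lam) : 0 < mS n lam := by
  haveI := prob_n (n := n) (by omega)
  obtain ⟨-, hz2, hz3⟩ := z1_props (geo_n hn) h
  unfold mS
  rw [meanG_z1 (geo_n hn) h]
  have h1 : 0 < z1G (mu n) (Rs n (1 / 2)) lam := by linarith
  have h2 : 0 < ZG (mu n) (Rs n (1 / 2)) lam := by linarith
  positivity

theorem mS_mono {n : ℕ} (hn : 3 ≤ n) {s s' : ℝ} (h : 0 < s) (hs : s ≤ s') : mS n s ≤ mS n s' := by
  haveI := prob_n (n := n) (by omega)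
  rcases hs.lt_or_eq with hs | rfl
  · have h' : 0 < s' := by linarith
    have c1 := conv_gasG (geo_n hn) h h'
    have c2 := conv_gasG (geo_n hn) h' h
    have hl : 0 < Real.log (s' / s) := Real.log_pos (by rw [lt_div_iff₀ h]; linarith)
    have e : Real.log (s / s') = -Real.log (s' / s) := by rw [← Real.log_inv, inv_div]
    rw [e] at c2
    unfold mS
    have h3 : Real.log (s' / s) * meanG (mu n) (Rs n (1 / 2)) s ≤
        Real.log (s' / s) * meanG (mu n) (Rs n (1 / 2)) s' := by linarith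
    exact le_of_mul_le_mul_left h3 hl
  · exact le_rfl

theorem conf_zero {n k : ℕ} (hn : 3 ≤ n) (hk : kissing n < k) :
    confG (mu n) (Rs n (1 / 2)) k = 0 := by
  haveI : NeZero n := ⟨by omega⟩
  unfold confG
  have : {x : Fin k → S n | ∀ i j, i < j → ¬ Rs n (1 / 2) (x i) (x j)} = ∅ := by
    rw [Set.eq_empty_iff_forall_notMem]
    intro x hx
    have h1 : (Finset.univ : Finset (Fin k)).card ≤ best (Rs n (1 / 2)) x := by
      refine le_best fun i _ j _ hij => ?_
      rcases lt_or_gt_of_ne hij with h | h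
      · exact hx i j h
      · have := hx j i h
        unfold Rs at this ⊢
        rwa [real_inner_comm]
    rw [Finset.card_univ, Fintype.card_fin] at h1
    have h2 := best_le_kissing x
    omega
  rw [this, measureReal_empty]

theorem mS_le {n : ℕ} (hn : 3 ≤ n) {lam : ℝ} (h : 0 < lam) : mS n lam ≤ kissing n := by
  haveI := prob_n (n := n) (by omega)
  have hZ := ZG_ge_one (geo_n hn) lam h.le
  unfold mS meanG
  rw [div_le_iff₀ (by linarith)]
  unfold ZG
  rw [← tsum_mul_left]
  have hz : ∀ k, kissing n < k → lam ^ k / k.factorial * confG (mu n) (Rs n (1 / 2)) k = 0 :=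
    fun k hk => by rw [conf_zero hn hk, mul_zero]
  have hs : ∀ f : ℕ → ℝ, Summable fun k : ℕ =>
      f k * (lam ^ k / k.factorial * confG (mu n) (Rs n (1 / 2)) k) := fun f => by
    refine summable_of_ne_finset_zero (s := Finset.range (kissing n + 1)) fun k hk => ?_
    rw [Finset.mem_range, not_lt] at hk
    rw [hz k (by omega), mul_zero]
  refine (hs fun k => (k : ℝ)).tsum_le_tsum (fun k => ?_) (hs fun _ => (kissing n : ℝ))
  rcases Nat.lt_or_ge (kissing n) k with hk | hk
  · rw [hz k hk, mul_zero, mul_zero]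
  · refine mul_le_mul_of_nonneg_right (by exact_mod_cast hk)
      (mul_nonneg (by positivity) (confG_nonneg k))

theorem gas_le_rate {n : ℕ} (hn : 3 ≤ n) (x : ℝ) : gasExp x n ≤ codeRate (Real.pi / 3) n := by
  have hn0 : (0 : ℝ) < n := by exact_mod_cast (by omega : 0 < n)
  have hlam : 0 < Real.exp (x * n) / pn n := div_pos (Real.exp_pos _) (pn_pos hn)
  unfold gasExp codeRate
  rw [div_le_div_iff_of_pos_right hn0]
  exact Real.logb_le_logb_of_le (by norm_num) (mS_pos hn hlam) (mS_le hn hlam)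

theorem gas_mono {n : ℕ} (hn : 3 ≤ n) {x y : ℝ} (h : x ≤ y) : gasExp x n ≤ gasExp y n := by
  have hn0 : (0 : ℝ) < n := by exact_mod_cast (by omega : 0 < n)
  have hp := pn_pos hn
  have hlam : 0 < Real.exp (x * n) / pn n := div_pos (Real.exp_pos _) hp
  unfold gasExp
  rw [div_le_div_iff_of_pos_right hn0]
  refine Real.logb_le_logb_of_le (by norm_num) (mS_pos hn hlam) (mS_mono hn hlam ?_)
  refine div_le_div_of_nonneg_right (Real.exp_le_exp.2 ?_) hp.le
  exact mul_le_mul_of_nonneg_right h hn0.le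

/-- polynomials are at most exponentials -/
theorem sq_le_exp (C δ : ℝ) (hδ : 0 < δ) : ∀ᶠ n : ℕ in atTop, C * (n : ℝ) ^ 2 ≤ Real.exp (δ * n) := by
  have hr1 : Real.exp (-δ) < 1 := (Real.exp_lt_exp.2 (by linarith)).trans_eq Real.exp_zero
  have h1 := (tendsto_pow_const_mul_const_pow_of_abs_lt_one 2
    (abs_lt.2 ⟨by linarith [Real.exp_pos (-δ)], hr1⟩)).const_mul C
  rw [mul_zero] at h1
  filter_upwards [h1.eventually_le_const one_pos] with n h
  have e : Real.exp (-δ) ^ n = (Real.exp (δ * n))⁻¹ := by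
    rw [← Real.exp_nat_mul, ← Real.exp_neg]
    congr 1
    ring
  rw [e, ← mul_assoc, ← div_eq_mul_inv, div_le_one (Real.exp_pos _)] at h
  exact h

/-- The upper bound. -/
theorem gas_up {x ε : ℝ} (hx : 0 ≤ x) (hε : 0 < ε) : ∀ᶠ n : ℕ in atTop,
    gasExp x n ≤ L2 + max 0 (x - y0) / Real.log 2 + ε := by
  have hl := log2_pos
  obtain ⟨n₀, hn3, hH⟩ := hyp_sph
  set m := max 0 (x - y0) with hm
  have hm0 : 0 ≤ m := le_max_left _ _
  have hmx : x - y0 ≤ m := le_max_right _ _
  filter_upwards [eventually_ge_atTop n₀, logb_pn_le (half_pos hε),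
    sq_le_exp ((x + 6) ^ 2) (ε / 2 * Real.log 2) (by positivity)] with n hn h1 h2
  have hn3' : 3 ≤ n := hn3.trans hn
  haveI := prob_n (n := n) (by omega)
  have hn0 : (0 : ℝ) < n := by exact_mod_cast (by omega : 0 < n)
  have hnR : (3 : ℝ) ≤ n := by exact_mod_cast hn3'
  have H := hH n hn
  have hp := pn_pos hn3'
  have hlam : 0 < Real.exp (x * n) / pn n := div_pos (Real.exp_pos _) hp
  have hlam' : 0 < Real.exp (x * n + 1) / pn n := div_pos (Real.exp_pos _) hp
  have c := conv_gasG (geo_n hn3') hlam hlam'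
  have e1 : Real.exp (x * n + 1) / pn n / (Real.exp (x * n) / pn n) = Real.exp 1 := by
    rw [Real.exp_add]
    field_simp
  rw [e1, Real.log_exp, one_mul] at c
  have hZ := Real.log_nonneg (ZG_ge_one (geo_n hn3') _ hlam.le)
  obtain ⟨s, hs, he⟩ := Pool.Agent.N549.HG.exists_W (Real.exp (x * n + 1)) (Real.exp_pos _)
  have h3 := up_gen H.geo H.cells (Real.exp_pos _).le H.sat hs
  rw [he] at h3
  have hxn : 0 ≤ x * n := mul_nonneg hx hn0.le
  have hs1 : s ≤ 2 + x * n := by
    by_contra hcon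
    push Not at hcon
    have h4 : Real.exp (x * n + 1) < s * Real.exp s := by
      calc Real.exp (x * n + 1) = 1 * Real.exp (x * n + 1) := (one_mul _).symm
        _ < s * Real.exp s :=
            mul_lt_mul'' (by linarith) (Real.exp_lt_exp.2 (by linarith)) zero_le_one
              (Real.exp_pos _).le
    linarith
  have h5 : Real.exp (-(n / 20 : ℝ)) * Real.exp (x * n + 1) ≤ 3 * Real.exp (m * n) := by
    have e2 : Real.exp (-(n / 20 : ℝ)) * Real.exp (x * n + 1) =
        Real.exp 1 * Real.exp ((x - y0) * n) := by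
      rw [← Real.exp_add, ← Real.exp_add]
      congr 1
      unfold y0
      ring
    rw [e2]
    have := Real.exp_one_lt_d9
    refine mul_le_mul (by linarith) (Real.exp_le_exp.2 ?_) (Real.exp_pos _).le (by norm_num)
    exact mul_le_mul_of_nonneg_right hmx hn0.le
  have h6 : s ^ 2 ≤ (2 + x * n) ^ 2 := pow_le_pow_left₀ hs.le hs1 2
  have hE : 1 ≤ Real.exp (m * n) := Real.one_le_exp (by positivity)
  have h7 : pn n * mS n (Real.exp (x * n) / pn n) ≤
      (x + 6) ^ 2 * (n : ℝ) ^ 2 * Real.exp (m * n) := by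
    have h8 : pn n * mS n (Real.exp (x * n) / pn n) ≤
        (2 + x * n) + (2 + x * n) ^ 2 / 2 + 3 * Real.exp (m * n) := by
      have h9 : pn n * mS n (Real.exp (x * n) / pn n) ≤
          pn n * Real.log (ZG (mu n) (Rs n (1 / 2)) (Real.exp (x * n + 1) / pn n)) := by
        refine mul_le_mul_of_nonneg_left ?_ hp.le
        unfold mS
        linarith
      linarith
    have h10 : (2 + x * n) + (2 + x * n) ^ 2 / 2 ≤
        ((2 + x * n) + (2 + x * n) ^ 2 / 2) * Real.exp (m * n) :=
      le_mul_of_one_le_right (by positivity) hE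
    have h11 : (2 + x * n) + (2 + x * n) ^ 2 / 2 + 3 ≤ (x + 6) ^ 2 * (n : ℝ) ^ 2 := by nlinarith
    have h12 := mul_le_mul_of_nonneg_right h11 (Real.exp_pos (m * n)).le
    linarith
  have hmpos := mS_pos hn3' hlam
  have h8 : pn n * mS n (Real.exp (x * n) / pn n) ≤
      Real.exp (ε / 2 * Real.log 2 * n) * Real.exp (m * n) :=
    h7.trans (mul_le_mul_of_nonneg_right h2 (Real.exp_pos _).le)
  have h9 := Real.logb_le_logb_of_le (b := 2) (by norm_num) (by positivity) h8
  rw [Real.logb_mul hp.ne' hmpos.ne', Real.logb_mul (by positivity) (by positivity)] at h9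
  have e3 : Real.logb 2 (Real.exp (ε / 2 * Real.log 2 * n)) = ε / 2 * n := by
    unfold Real.logb
    rw [Real.log_exp]
    field_simp
  have e4 : Real.logb 2 (Real.exp (m * n)) = m / Real.log 2 * n := by
    unfold Real.logb
    rw [Real.log_exp]
    ring
  rw [e3, e4] at h9
  unfold gasExp
  rw [div_le_iff₀ hn0]
  have e5 : (L2 + m / Real.log 2 + ε) * n =
      (L2 + ε / 2) * n + m / Real.log 2 * n + ε / 2 * n := by ring
  rw [e5]
  linarith

/-- The density at the activities `exp (x n) / p` below `exp (n / 20) / p`. -/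
theorem gas_dens {x ε : ℝ} (hx : 0 < x) (hx1 : x < 1 / 20) (hε : 0 < ε) : ∀ᶠ n : ℕ in atTop,
    |pn n * mS n (Real.exp (x * n) / pn n) / n - x| ≤ ε := by
  set e := min (ε / 2) (1 / 20 - x) with he
  have he0 : 0 < e := lt_min (by linarith) (by linarith)
  have he1 : e ≤ ε / 2 := min_le_left _ _
  have he2 : e ≤ 1 / 20 - x := min_le_right _ _
  obtain ⟨n₀, hn3, hH⟩ := hyp_sph
  obtain ⟨n₁, h1⟩ := state_G he0
  filter_upwards [eventually_ge_atTop n₀, eventually_ge_atTop n₁,
    sq_le_exp 1 (ε / 2) (by positivity)] with n hn hn1 h2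
  have hn3' : 3 ≤ n := hn3.trans hn
  haveI := prob_n (n := n) (by omega)
  have hn0 : (0 : ℝ) < n := by exact_mod_cast (by omega : 0 < n)
  have hnR : (3 : ℝ) ≤ n := by exact_mod_cast hn3'
  have hp := pn_pos hn3'
  obtain ⟨w, hw, hwe⟩ := Pool.Agent.N549.HG.exists_W (Real.exp (x * n)) (Real.exp_pos _)
  obtain ⟨h3, -⟩ := h1 n hn1 (S n) (mu n) (Rs n (1 / 2)) (pn n) (hH n hn) w hw (by
    rw [hwe]
    refine Real.exp_le_exp.2 (mul_le_mul_of_nonneg_right (by linarith) hn0.le))
  rw [hwe] at h3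
  change |pn n * mS n (Real.exp (x * n) / pn n) - w| ≤ e * w at h3
  have hlog : Real.log w + w = x * n := by
    have := congrArg Real.log hwe
    rwa [Real.log_mul hw.ne' (Real.exp_pos _).ne', Real.log_exp, Real.log_exp] at this
  have hxn : x * n ≤ n := by nlinarith
  have hwn : w ≤ n := by
    by_contra hcon
    push Not at hcon
    have : 0 ≤ Real.log w := Real.log_nonneg (by linarith)
    linarith
  have hlw : |w - x * n| ≤ ε / 2 * n := by
    have h4 : w - x * n = -Real.log w := by linarith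
    rw [h4, abs_neg, abs_le]
    constructor
    · -- `log w ≥ - ε n / 2`: if `w < exp (- ε n / 2)` then `w e^w < 1`
      by_contra hcon
      push Not at hcon
      have h5 : Real.log w < 0 := lt_of_lt_of_le hcon (by
        have : 0 ≤ ε / 2 * n := by positivity
        linarith)
      have h6 : w < 1 := by
        by_contra h7
        push Not at h7
        linarith [Real.log_nonneg h7]
      -- then `x n < 1 - ε n / 2`
      have h8 : x * n < 1 - ε / 2 * n := by linarith
      have h9 : (1 : ℝ) * n ^ 2 ≤ Real.exp (ε / 2 * n) := h2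
      have h10 : Real.exp (ε / 2 * n) < Real.exp 1 := Real.exp_lt_exp.2 (by nlinarith)
      have := Real.exp_one_lt_d9
      nlinarith
    · have h5 : Real.log w ≤ Real.log ((n : ℝ) ^ 2) :=
        Real.log_le_log hw (by nlinarith)
      have h6 : Real.log ((n : ℝ) ^ 2) ≤ ε / 2 * n := by
        rw [← Real.log_exp (ε / 2 * n)]
        exact Real.log_le_log (by positivity) (by linarith)
      linarith
  have h5 : |pn n * mS n (Real.exp (x * n) / pn n) - x * n| ≤ ε * n := by
    have h6 := abs_sub_le (pn n * mS n (Real.exp (x * n) / pn n)) w (x * n)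
    have h7 : e * w ≤ ε / 2 * n := mul_le_mul he1 hwn hw.le (by positivity)
    linarith
  have e6 : pn n * mS n (Real.exp (x * n) / pn n) / n - x =
      (pn n * mS n (Real.exp (x * n) / pn n) - x * n) / n := by
    field_simp
  rw [e6, abs_div, abs_of_pos hn0, div_le_iff₀ hn0]
  exact h5

/-- The lower bound. -/
theorem gas_low {x ε : ℝ} (hx : 0 < x) (hε : 0 < ε) : ∀ᶠ n : ℕ in atTop,
    L2 - ε ≤ gasExp x n := by
  set x' := min x (1 / 40) with hx'
  have hx'0 : 0 < x' := lt_min hx (by norm_num)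
  have hx'1 : x' ≤ 1 / 40 := min_le_right _ _
  have h2 : ∀ᶠ n : ℕ in atTop, 2 / x' ≤ (n : ℝ) := tendsto_natCast_atTop_atTop.eventually_ge_atTop _
  filter_upwards [gas_dens hx'0 (by linarith) (half_pos hx'0), le_logb_pn hε,
    eventually_ge_atTop 3, h2] with n h1 h3 hn h2
  have hn0 : (0 : ℝ) < n := by exact_mod_cast (by omega : 0 < n)
  have hp := pn_pos hn
  have hlam : 0 < Real.exp (x' * n) / pn n := div_pos (Real.exp_pos _) hp
  refine le_trans ?_ (gas_mono hn (min_le_left x (1 / 40)))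
  rw [← hx']
  have h4 := (abs_le.1 h1).1
  rw [div_le_iff₀ hx'0] at h2
  have h5 : 1 ≤ pn n * mS n (Real.exp (x' * n) / pn n) := by
    have h6 : x' / 2 ≤ pn n * mS n (Real.exp (x' * n) / pn n) / n := by linarith
    rw [le_div_iff₀ hn0] at h6
    linarith
  have h6 := Real.logb_nonneg (b := 2) (by norm_num) h5
  rw [Real.logb_mul hp.ne' (mS_pos hn hlam).ne'] at h6
  unfold gasExp
  rw [le_div_iff₀ hn0]
  linarith

theorem ZG_one_le {n : ℕ} (hn : 3 ≤ n) : Real.log (ZG (mu n) (Rs n (1 / 2)) 1) ≤ 1 := by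
  haveI := prob_n (n := n) (by omega)
  have hZ := ZG_ge_one (geo_n hn) 1 zero_le_one
  have h : ZG (mu n) (Rs n (1 / 2)) 1 ≤ Real.exp 1 := by
    unfold ZG
    rw [Real.exp_eq_exp_ℝ, NormedSpace.exp_eq_tsum_div]
    refine (summable_ZG (μ := mu n) (R := Rs n (1 / 2)) 1 zero_le_one).tsum_le_tsum (fun k => ?_)
      (Real.summable_pow_div_factorial 1)
    exact mul_le_of_le_one_right (by positivity) (confG_le_one k)
  have := Real.log_le_log (by linarith) h
  rwa [Real.log_exp] at this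

/-- The exponents of the gas approach the exponents of the kissing numbers. -/
theorem gas_net {ε : ℝ} (hε : 0 < ε) : ∃ x₀ : ℝ, 0 < x₀ ∧ ∀ᶠ n : ℕ in atTop,
    codeRate (Real.pi / 3) n - ε ≤ gasExp x₀ n := by
  have hl := log2_pos
  obtain ⟨x₁, hx₁, h1⟩ := net_ev (show 0 < min (ε / 2) (1 / 2) by positivity)
  set e := min (ε / 2) (1 / 2) with he
  have he1 : e ≤ ε / 2 := min_le_left _ _
  have he2 : e ≤ 1 / 2 := min_le_right _ _
  set x := x₁ + 2 with hx
  have hLn := Ln_pos
  refine ⟨x, by linarith, ?_⟩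
  set C : ℝ := 2 * (x + Ln + 1) with hC
  have hC0 : 0 < C := by rw [hC]; linarith
  have h2 : ∀ᶠ n : ℕ in atTop, Real.logb 2 C / (ε / 2) ≤ (n : ℝ) :=
    tendsto_natCast_atTop_atTop.eventually_ge_atTop _
  obtain ⟨d₁, hd₁⟩ := eventually_atTop.1 pc_small
  obtain ⟨d₂, hd₂⟩ := eventually_atTop.1 (log_pc_ge one_pos)
  filter_upwards [h1, h2, eventually_ge_atTop (d₁ + d₂ + 4)] with n h1 h2 hn
  have hn3 : 3 ≤ n := by omega
  haveI := prob_n (n := n) (by omega)
  haveI : NeZero n := ⟨by omega⟩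
  have hn0 : (0 : ℝ) < n := by exact_mod_cast (by omega : 0 < n)
  have hnR : (4 : ℝ) ≤ n := by exact_mod_cast (by omega : 4 ≤ n)
  have hp := pn_pos hn3
  have hp1 : pn n ≤ 1 := by
    obtain ⟨d, rfl⟩ : ∃ d, n = d + 1 + 2 := ⟨n - 3, by omega⟩
    exact (hd₁ d (by omega)).trans (pow_le_one₀ (by norm_num) (by norm_num))
  have hlogp : -(Real.log (pn n)) ≤ (Ln + 1) * n := by
    obtain ⟨d, rfl⟩ : ∃ d, n = d + 1 + 2 := ⟨n - 3, by omega⟩
    refine (hd₂ d (by omega)).trans (le_of_eq ?_)
    push_cast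
    ring
  set N := nN x₁ n with hN
  have h3 := h1 N (nN_ge x₁ hn3)
  have hNpos : 0 < N := nN_pos x₁ hn3
  have hNR : (0 : ℝ) < N := by exact_mod_cast hNpos
  set m : ℕ := ⌈(2 : ℝ) ^ ((codeRate (Real.pi / 3) n - e) * n)⌉₊ with hm
  have hm1 : (2 : ℝ) ^ ((codeRate (Real.pi / 3) n - e) * n) ≤ m := Nat.le_ceil _
  have hmpos : 0 < m := Nat.ceil_pos.2 (by positivity)
  have hmR : (1 : ℝ) ≤ m := by exact_mod_cast hmpos
  set lam := Real.exp (x * n) / pn n with hlamd
  have hlam : 0 < lam := div_pos (Real.exp_pos _) hp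
  have hsub : {X : Fin N → S n | codeRate (Real.pi / 3) n - e ≤ expo n X} ⊆
      {X | m ≤ best (Rs n (1 / 2)) X} := by
    intro X hX
    have hX' : codeRate (Real.pi / 3) n - e ≤ expo n X := hX
    have hb : (1 : ℝ) ≤ best (Rs n (1 / 2)) X := by exact_mod_cast one_le_best hNpos X
    show ⌈(2 : ℝ) ^ ((codeRate (Real.pi / 3) n - e) * n)⌉₊ ≤ best (Rs n (1 / 2)) X
    rw [Nat.ceil_le, ← Real.le_logb_iff_rpow_le (by norm_num) (by positivity)]
    unfold expo at hX'
    rwa [le_div_iff₀ hn0] at hX'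
  have h4 : 1 / 2 ≤ (N / lam) ^ m * ZG (mu n) (Rs n (1 / 2)) lam :=
    le_trans (le_trans (by linarith) h3) ((measureReal_mono hsub (measure_ne_top _ _)).trans
      (law_best_le_Z (geo_n hn3) lam hlam m))
  have hZ := ZG_ge_one (geo_n hn3) lam hlam.le
  set Zl := ZG (mu n) (Rs n (1 / 2)) lam with hZl
  have h5 : (N : ℝ) / lam ≤ Real.exp (-(n : ℝ)) := by
    have h6 : (N : ℝ) * pn n ≤ 2 * Real.exp (x₁ * n) := by
      have h7 := nN_le x₁ hn3
      have h8 : 1 ≤ Real.exp (x₁ * n) := Real.one_le_exp (by positivity)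
      linarith
    have e1 : (N : ℝ) / lam = N * pn n / Real.exp (x * n) := by
      rw [hlamd]
      field_simp
    rw [e1, div_le_iff₀ (Real.exp_pos _), ← Real.exp_add]
    have h7 : -(n : ℝ) + x * n = x₁ * n + n := by rw [hx]; ring
    rw [h7, Real.exp_add]
    have h8 : 2 ≤ Real.exp (n : ℝ) := by linarith [Real.add_one_le_exp (n : ℝ)]
    nlinarith [Real.exp_pos (x₁ * (n : ℝ))]
  have h6 : (m : ℝ) * n - 1 ≤ Real.log Zl := by
    have h7 : 1 / 2 ≤ Real.exp (-(n : ℝ)) ^ m * Zl :=
      h4.trans (mul_le_mul_of_nonneg_right (pow_le_pow_left₀ (by positivity) h5 m) (by linarith))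
    have h8 := Real.log_le_log (by norm_num) h7
    rw [Real.log_mul (by positivity) (by linarith), Real.log_pow, Real.log_exp, one_div,
      Real.log_inv] at h8
    have := Real.log_two_lt_d9
    linarith
  have h7 := conv_gasG (geo_n hn3) hlam one_pos
  rw [one_div, Real.log_inv] at h7
  have h8 := ZG_one_le hn3
  have hloglam : Real.log lam = x * n - Real.log (pn n) := by
    rw [hlamd, Real.log_div (Real.exp_pos _).ne' hp.ne', Real.log_exp]
  have hll : Real.log lam ≤ (x + Ln + 1) * n := by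
    rw [hloglam]
    linarith
  have hmean := mS_pos hn3 hlam
  have h9 : (m : ℝ) * n - 2 ≤ (x + Ln + 1) * n * mS n lam := by
    have h10 : (m : ℝ) * n - 2 ≤ Real.log lam * mS n lam := by
      unfold mS
      linarith
    exact h10.trans (mul_le_mul_of_nonneg_right hll hmean.le)
  have h10 : (m : ℝ) ≤ C * mS n lam := by
    have h11 : (m : ℝ) * n / 2 ≤ (x + Ln + 1) * n * mS n lam := by nlinarith
    have h12 : (m : ℝ) * n ≤ (C * mS n lam) * n := by
      rw [hC]
      linarith
    exact le_of_mul_le_mul_right h12 hn0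
  have h11 : (2 : ℝ) ^ ((codeRate (Real.pi / 3) n - e) * n) ≤ C * mS n lam := hm1.trans h10
  have h12 := Real.logb_le_logb_of_le (b := 2) (by norm_num) (by positivity) h11
  rw [Real.logb_rpow (by norm_num) (by norm_num), Real.logb_mul hC0.ne' hmean.ne'] at h12
  rw [div_le_iff₀ (by positivity)] at h2
  unfold gasExp
  rw [le_div_iff₀ hn0]
  have h13 : e * n ≤ ε / 2 * n := mul_le_mul_of_nonneg_right he1 hn0.le
  linarith

/-- The criterion, limes superior. -/
theorem gas_limsup : L2 < limsup (codeRate (Real.pi / 3)) atTop ↔ ∃ x : ℝ, 0 < x ∧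
    L2 < limsup (gasExp x) atTop := by
  have hb : ∀ x : ℝ, 0 < x → IsBoundedUnder (· ≤ ·) atTop (gasExp x) := fun x _ => by
    refine isBoundedUnder_of_eventually_le (a := Real.logb 2 ((1 + 2 *
      Real.sin (Real.pi / 3 / 2)) / Real.sin (Real.pi / 3 / 2))) ?_
    filter_upwards [eventually_ge_atTop 3] with n hn
    exact (gas_le_rate hn x).trans (codeRate_le sin_pos n)
  have hb' : ∀ x : ℝ, 0 < x → IsBoundedUnder (· ≥ ·) atTop (gasExp x) := fun x hx => by
    refine isBoundedUnder_of_eventually_ge (a := L2 - 1) ?_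
    exact gas_low hx one_pos
  constructor
  · intro h
    obtain ⟨a, ha1, ha2⟩ := exists_between h
    have h1 := frequently_lt_of_lt_limsup rate_bdd'.isCoboundedUnder_le ha2
    obtain ⟨x, hx, h2⟩ := gas_net (show 0 < (a - L2) / 2 by linarith)
    refine ⟨x, hx, ?_⟩
    have h3 : ∃ᶠ n : ℕ in atTop, (a + L2) / 2 ≤ gasExp x n :=
      (h1.and_eventually h2).mono fun n h => by linarith [h.1, h.2]
    have h4 := le_limsup_of_frequently_le h3 (hb x hx)
    linarith
  · rintro ⟨x, hx, h⟩
    refine lt_of_lt_of_le h (limsup_le_limsup ?_ (hb' x hx).isCoboundedUnder_le rate_bdd)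
    filter_upwards [eventually_ge_atTop 3] with n hn
    exact gas_le_rate hn x

/-- The criterion, limes inferior. -/
theorem gas_liminf : L2 < liminf (codeRate (Real.pi / 3)) atTop ↔ ∃ x : ℝ, 0 < x ∧
    L2 < liminf (gasExp x) atTop := by
  have hb : ∀ x : ℝ, 0 < x → IsBoundedUnder (· ≤ ·) atTop (gasExp x) := fun x _ => by
    refine isBoundedUnder_of_eventually_le (a := Real.logb 2 ((1 + 2 *
      Real.sin (Real.pi / 3 / 2)) / Real.sin (Real.pi / 3 / 2))) ?_
    filter_upwards [eventually_ge_atTop 3] with n hn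
    exact (gas_le_rate hn x).trans (codeRate_le sin_pos n)
  have hb' : ∀ x : ℝ, 0 < x → IsBoundedUnder (· ≥ ·) atTop (gasExp x) := fun x hx => by
    refine isBoundedUnder_of_eventually_ge (a := L2 - 1) ?_
    exact gas_low hx one_pos
  constructor
  · intro h
    obtain ⟨a, ha1, ha2⟩ := exists_between h
    have h1 := eventually_lt_of_lt_liminf ha2 rate_bdd'
    obtain ⟨x, hx, h2⟩ := gas_net (show 0 < (a - L2) / 2 by linarith)
    refine ⟨x, hx, ?_⟩
    have h3 : ∀ᶠ n : ℕ in atTop, (a + L2) / 2 ≤ gasExp x n := by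
      filter_upwards [h1, h2] with n h1 h2
      linarith
    have h4 := le_liminf_of_le (hb x hx).isCoboundedUnder_ge h3
    linarith
  · rintro ⟨x, hx, h⟩
    refine lt_of_lt_of_le h (liminf_le_liminf ?_ (hb' x hx) rate_bdd.isCoboundedUnder_ge)
    filter_upwards [eventually_ge_atTop 3] with n hn
    exact gas_le_rate hn x

end Pool.Agent.U279.KR
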