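import Pool.Agent.U279.KR.GenUp2

/-!
# Independent sets among random points of a probability space: the upper bound beyond `y0`
-/

set_option autoImplicit false

namespace Pool.Agent.U279.KR

open MeasureTheory Set Finset ProbabilityTheory Filter Topology
open scoped ENNReal NNReal
open Pool.Agent.N549.HG

variable {Ω : Type} [MeasurableSpace Ω] {μ : Measure Ω} {R : Ω → Ω → Prop} {p : ℝ} {N n : ℕ}

theorem log_Z_le' [IsProbabilityMeasure μ] (hG : Geo μ R p) (hcells : Cells μ)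
    (hsup : Sat μ R p (Real.exp (-(n / 20 : ℝ)))) {σ : ℝ} (h1 : y0 ≤ σ) :
    p * Real.log (ZG μ R (Real.exp (σ * n) / p)) ≤
      ((1 + σ * n) + (1 + σ * n) ^ 2 / 2 + 1) * Real.exp ((σ - y0) * n) := by
  obtain ⟨s, hs, he⟩ := exists_W (Real.exp (σ * n)) (Real.exp_pos _)
  have h2 := up_gen hG hcells (Real.exp_pos _).le hsup hs
  rw [he] at h2
  have hy := y0_pos
  have hσ : 0 ≤ σ * n := mul_nonneg (by linarith) (Nat.cast_nonneg n)
  have hs1 : s ≤ 1 + σ * n := by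
    by_contra hcon
    push Not at hcon
    have h4 : Real.exp (σ * n) < s * Real.exp s := by
      calc Real.exp (σ * n) = 1 * Real.exp (σ * n) := (one_mul _).symm
        _ < s * Real.exp s :=
            mul_lt_mul'' (by linarith) (Real.exp_lt_exp.2 (by linarith)) zero_le_one
              (Real.exp_pos _).le
    linarith
  have h5 : Real.exp (-(n / 20 : ℝ)) * Real.exp (σ * n) = Real.exp ((σ - y0) * n) := by
    rw [← Real.exp_add]
    congr 1
    unfold y0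
    ring
  have h6 : s ^ 2 ≤ (1 + σ * n) ^ 2 := pow_le_pow_left₀ hs.le hs1 2
  have h7 : 1 ≤ Real.exp ((σ - y0) * n) :=
    Real.one_le_exp (mul_nonneg (by linarith) (Nat.cast_nonneg n))
  have h8 : (1 + σ * n) + (1 + σ * n) ^ 2 / 2 ≤
      ((1 + σ * n) + (1 + σ * n) ^ 2 / 2) * Real.exp ((σ - y0) * n) :=
    le_mul_of_one_le_right (by positivity) h7
  rw [h5] at h2
  rw [add_mul, one_mul]
  linarith

theorem poly_ev (σ ε : ℝ) (hσ : 0 < σ) (hε : 0 < ε) : ∀ᶠ n : ℕ in atTop,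
    (1 + σ * n) + (1 + σ * n) ^ 2 / 2 + 1 ≤
      ε / 8 * n * Real.exp (ε / 2 * n) ∧ 8 / ε ^ 2 ≤ (n : ℝ) := by
  have h1 : ∀ᶠ n : ℕ in atTop, 48 * 8 * ((1 + σ) + (1 + σ) ^ 2 / 2 + 8) / ε ^ 4 ≤ (n : ℝ) :=
    tendsto_natCast_atTop_atTop.eventually_ge_atTop _
  have h2 : ∀ᶠ n : ℕ in atTop, 8 / ε ^ 2 ≤ (n : ℝ) :=
    tendsto_natCast_atTop_atTop.eventually_ge_atTop _
  filter_upwards [h1, h2, eventually_ge_atTop 1] with n h1 h2 h3
  refine ⟨?_, h2⟩
  have hnR : (1 : ℝ) ≤ n := by exact_mod_cast h3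
  rw [div_le_iff₀ (by positivity)] at h1
  have h4 : (ε / 2 * n) ^ 3 / 6 ≤ Real.exp (ε / 2 * n) := by
    have := Real.pow_div_factorial_le_exp (ε / 2 * (n : ℝ)) (by positivity) 3
    norm_num [Nat.factorial] at this ⊢
    exact this
  have h5 : ε / 8 * n * ((ε / 2 * n) ^ 3 / 6) ≤ ε / 8 * n * Real.exp (ε / 2 * n) :=
    mul_le_mul_of_nonneg_left h4 (by positivity)
  refine le_trans ?_ h5
  have h6 : ε / 8 * n * ((ε / 2 * n) ^ 3 / 6) = (n * ε ^ 4) * n ^ 3 / 384 := by ring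
  rw [h6]
  have h7 : (48 * 8 * ((1 + σ) + (1 + σ) ^ 2 / 2 + 8)) * n ^ 3 / 384 ≤
      (n * ε ^ 4) * n ^ 3 / 384 := by
    have : (0 : ℝ) ≤ n ^ 3 := by positivity
    have := mul_le_mul_of_nonneg_right h1 this
    linarith
  refine le_trans ?_ h7
  have h8 : (1 + σ * n) ≤ (1 + σ) * n := by nlinarith
  have h9 : (1 + σ * n) ^ 2 ≤ ((1 + σ) * n) ^ 2 := pow_le_pow_left₀ (by positivity) h8 2
  have h11 : (n : ℝ) ≤ n ^ 3 := by nlinarith [mul_pos (by linarith : (0:ℝ) < n) (by linarith : (0:ℝ) < n)]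
  have h12 : (n : ℝ) ^ 2 ≤ n ^ 3 := by nlinarith [mul_pos (by linarith : (0:ℝ) < n) (by linarith : (0:ℝ) < n)]
  have h13 : (1 + σ) * n ≤ (1 + σ) * n ^ 3 := mul_le_mul_of_nonneg_left h11 (by linarith)
  have h14 : (1 + σ) ^ 2 / 2 * n ^ 2 ≤ (1 + σ) ^ 2 / 2 * n ^ 3 :=
    mul_le_mul_of_nonneg_left h12 (by positivity)
  have h15 : (1 : ℝ) ≤ 8 * n ^ 3 := by nlinarith
  nlinarith

/-- **The upper bound beyond `y0`.** -/
theorem up_bigG {x ε : ℝ} (hx : y0 ≤ x) (hε : 0 < ε) : ∀ᶠ n : ℕ in atTop,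
    ∀ (Ω : Type) [MeasurableSpace Ω] (μ : Measure Ω) [IsProbabilityMeasure μ]
      (R : Ω → Ω → Prop) (p : ℝ), Geo μ R p → p ≤ 1 → Cells μ →
      Sat μ R p (Real.exp (-(n / 20 : ℝ))) → ∀ N : ℕ, N * p ≤ Real.exp ((x + ε / 4) * n) →
    (lawG μ N).real {X | Real.exp ((x - y0 + ε) * n) ≤ best R X * p} ≤ ε := by
  have hy := y0_pos
  filter_upwards [poly_ev (x + ε / 2) ε (by linarith) hε, eventually_ge_atTop 1]
    with n ⟨hp, hp2⟩ hn Ω _ μ _ R p hGeo hD1 hC hS N hN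
  have hnR : (1 : ℝ) ≤ n := by exact_mod_cast hn
  have hD := hGeo.pos
  set σ := x + ε / 2 with hσ
  have h2 : {X : Fin N → Ω | Real.exp ((x - y0 + ε) * n) ≤ best R X * p} =
      {X | ⌈Real.exp ((x - y0 + ε) * n) / p⌉₊ ≤ best R X} := by
    ext X
    simp only [Set.mem_ofPred_eq]
    rw [Nat.ceil_le, div_le_iff₀ hD]
  rw [h2]
  set k := ⌈Real.exp ((x - y0 + ε) * n) / p⌉₊ with hk
  have hlam : 0 < Real.exp (σ * n) / p := by positivity
  refine (law_best_le_Z hGeo _ hlam k).trans ?_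
  have h3 : (N : ℝ) / (Real.exp (σ * n) / p) ≤ Real.exp (-(ε / 4 * n)) := by
    have h3a : (N : ℝ) / (Real.exp (σ * n) / p) =
        N * p / Real.exp (σ * n) := by
      field_simp
    have h3b : Real.exp (-(ε / 4 * n)) = Real.exp ((x + ε / 4) * n) / Real.exp (σ * n) := by
      rw [← Real.exp_sub]
      congr 1
      rw [hσ]
      ring
    rw [h3a, h3b]
    exact div_le_div_of_nonneg_right hN (Real.exp_pos _).le
  have hZ := ZG_ge_one hGeo _ hlam.le
  set G := Real.exp ((σ - y0) * n) with hG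
  have hG1 : 1 ≤ G := Real.one_le_exp (mul_nonneg (by linarith) (by linarith))
  have h4 : ZG μ R (Real.exp (σ * n) / p) ≤
      Real.exp (ε / 8 * n * Real.exp (ε / 2 * n) * G / p) := by
    rw [← Real.log_le_iff_le_exp (by linarith), le_div_iff₀ hD, mul_comm]
    refine (log_Z_le' hGeo hC hS (by linarith)).trans ?_
    exact mul_le_mul_of_nonneg_right hp (by linarith)
  have h3c := pow_le_pow_left₀ (by positivity) h3 k
  rw [← Real.exp_nat_mul] at h3c
  refine (mul_le_mul h3c h4 (by linarith) (Real.exp_pos _).le).trans ?_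
  rw [← Real.exp_add]
  have h5 : Real.exp ((x - y0 + ε) * n) / p ≤ k := Nat.le_ceil _
  have h6 : Real.exp ((x - y0 + ε) * n) = Real.exp (ε / 2 * n) * G := by
    rw [hG, ← Real.exp_add]
    congr 1
    rw [hσ]
    ring
  rw [h6] at h5
  have h7 := mul_le_mul_of_nonneg_right h5 (show 0 ≤ ε / 4 * (n : ℝ) by positivity)
  have h8 : (k : ℝ) * -(ε / 4 * n) + ε / 8 * n * Real.exp (ε / 2 * n) * G / p ≤
      -(ε / 8 * n * Real.exp (ε / 2 * n) * G / p) := by
    have e1 : Real.exp (ε / 2 * n) * G / p * (ε / 4 * n) =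
        2 * (ε / 8 * n * Real.exp (ε / 2 * n) * G / p) := by ring
    rw [e1] at h7
    linarith
  have h9 : ε / 8 * n ≤ ε / 8 * n * Real.exp (ε / 2 * n) * G / p := by
    rw [le_div_iff₀ hD]
    have e1 : 1 ≤ Real.exp (ε / 2 * n) := Real.one_le_exp (by positivity)
    have e2 : 1 ≤ Real.exp (ε / 2 * n) * G := one_le_mul_of_one_le_of_one_le e1 hG1
    have e3 : 0 ≤ ε / 8 * n := by positivity
    calc ε / 8 * n * p ≤ ε / 8 * n * 1 := mul_le_mul_of_nonneg_left hD1 e3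
      _ ≤ ε / 8 * n * (Real.exp (ε / 2 * n) * G) := mul_le_mul_of_nonneg_left e2 e3
      _ = _ := by ring
  have h10 : 1 / ε ≤ ε / 8 * n := by
    rw [div_le_iff₀ (by positivity)] at hp2
    rw [div_le_iff₀ hε]
    nlinarith
  have h11 : 1 / ε ≤ Real.exp (ε / 8 * n) := by
    have := Real.add_one_le_exp (ε / 8 * (n : ℝ))
    linarith
  calc Real.exp ((k : ℝ) * -(ε / 4 * n) + ε / 8 * n * Real.exp (ε / 2 * n) * G / p)
      ≤ Real.exp (-(ε / 8 * n)) := Real.exp_le_exp.2 (by linarith)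
    _ = (Real.exp (ε / 8 * n))⁻¹ := Real.exp_neg _
    _ ≤ (1 / ε)⁻¹ := inv_anti₀ (by positivity) h11
    _ = ε := by rw [one_div, inv_inv]

end Pool.Agent.U279.KR
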