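import Pool.Agent.U279.KR.GenUp2
import Pool.Agent.N549.HG.Low2
import Pool.Agent.N490.HG.Asm2
import Pool.Agent.N424.HG.Canon

/-!
# The hard-core gas on a probability space
-/

set_option autoImplicit false

namespace Pool.Agent.U279.KR

open MeasureTheory Set Finset ProbabilityTheory Filter Topology
open scoped ENNReal NNReal
open Pool.Agent.N549.HG

variable {Ω : Type} [MeasurableSpace Ω] {μ : Measure Ω} {R : Ω → Ω → Prop} {p : ℝ} {N n : ℕ}

/-- Local sparsity with constant `g`. -/
def Loc (μ : Measure Ω) (R : Ω → Ω → Prop) (g : ℝ) : Prop :=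
  ∀ (v : Ω) (T : Set Ω), MeasurableSet T → T ⊆ {y | R v y} →
    ∫⁻ u in T, μ (T ∩ {y | R u y}) ∂μ ≤ ENNReal.ofReal g * μ T

theorem nearG_meas (hG : Geo μ R p) (u : Ω) : MeasurableSet {y | R u y} := by
  have : Measurable fun y : Ω => (u, y) := measurable_const.prodMk measurable_id
  exact this hG.meas

theorem one_sub_farG (u : Ω) : (fun y => 1 - farG R u y) =
    {y | R u y}.indicator fun _ => (1 : ℝ≥0∞) := by
  classical
  funext y
  unfold farG
  by_cases h : R u y
  · rw [Set.indicator_of_mem (by exact h), if_pos h, tsub_zero]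
  · rw [Set.indicator_of_notMem (by exact h), if_neg h, tsub_self]

/-- the pointwise inequality -/
theorem pt_ineqG [IsProbabilityMeasure μ] (hG : Geo μ R p) {g : ℝ} (hg : 0 ≤ g) (hL : Loc μ R g)
    {v : Ω} {T : Set Ω} (hT : MeasurableSet T) (hTB : T ⊆ {y | R v y}) {lam q : ℝ}
    (hlam : 0 < lam) (hδ1 : lam * g ≤ 1 / 2) :
    ENNReal.ofReal (Real.exp (-q) * (1 + q)) *
        Z μ (farG R) (T.indicator fun _ => ENNReal.ofReal lam) ≤
      1 + ENNReal.ofReal (Real.exp (-q) / (1 - lam * g)) *
        Mn μ (farG R) (T.indicator fun _ => ENNReal.ofReal lam) := by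
  have hF := farG_adm hG
  set c : ℝ≥0∞ := ENNReal.ofReal lam with hc
  have hcne : c ≠ ∞ := ENNReal.ofReal_ne_top
  set δ : ℝ := lam * g with hδ
  have hδ0 : 0 ≤ δ := by positivity
  set m : ℝ := lam * μ.real T with hm
  have hm0 : 0 ≤ m := by positivity
  set ψ : Ω → ℝ≥0∞ := T.indicator fun _ => c with hψ
  have hψm : Measurable ψ := measurable_const.indicator hT
  have hvT : μ T = ENNReal.ofReal (μ.real T) := by
    rw [measureReal_def, ENNReal.ofReal_toReal (measure_ne_top _ _)]
  have hint : ∫⁻ y, ψ y ∂μ = ENNReal.ofReal m := by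
    rw [hψ, lintegral_indicator_const hT, hc, hm, ENNReal.ofReal_mul hlam.le, ← hvT]
  have hZe := Z_le_exp (μ := μ) hF ψ m hm0 hint.le
  have hZf : Z μ (farG R) ψ ≠ ∞ := (hZe.trans_lt ENNReal.ofReal_lt_top).ne
  have hMf : Mn μ (farG R) ψ ≠ ∞ := Mn_ne_top (μ := μ) hF m hm0 hint.le
  set z : ℝ := (Z μ (farG R) ψ).toReal with hz
  set a : ℝ := (Mn μ (farG R) ψ).toReal with ha
  have ha0 : 0 ≤ a := ENNReal.toReal_nonneg
  have hz1 : 1 ≤ z := by
    have := ENNReal.toReal_mono hZf (one_le_Z (μ := μ) (F := farG R) ψ)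
    simpa using this
  have hδ' : 0 < 1 - δ := by linarith
  -- close pairs
  have h1 : ∫⁻ u, ψ u * ∫⁻ y, ψ y * (1 - farG R u y) ∂μ ∂μ ≤ ENNReal.ofReal (δ * m) := by
    have h2 : ∀ u, ∫⁻ y, ψ y * (1 - farG R u y) ∂μ = c * μ (T ∩ {y | R u y}) := by
      intro u
      have h3 : (fun y => ψ y * (1 - farG R u y)) = (T ∩ {y | R u y}).indicator fun _ => c := by
        have h4 := one_sub_farG (R := R) u
        funext y
        rw [congrFun h4 y]
        by_cases hyT : y ∈ T <;> by_cases hyN : R u y <;>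
          simp [hψ, hyT, hyN, Set.indicator]
      rw [h3, lintegral_indicator_const (hT.inter (nearG_meas hG u))]
    have h5 : ∫⁻ u, ψ u * ∫⁻ y, ψ y * (1 - farG R u y) ∂μ ∂μ =
        c * (c * ∫⁻ u in T, μ (T ∩ {y | R u y}) ∂μ) := by
      simp only [h2]
      rw [← lintegral_const_mul' _ _ hcne, ← lintegral_const_mul' _ _ hcne,
        ← lintegral_indicator hT]
      refine lintegral_congr fun u => ?_
      by_cases hu : u ∈ T <;> simp [hψ, hu]
    rw [h5]
    calc c * (c * ∫⁻ u in T, μ (T ∩ {y | R u y}) ∂μ) ≤ c * (c * (ENNReal.ofReal g * μ T)) := by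
          gcongr
          exact hL v T hT hTB
      _ = ENNReal.ofReal (δ * m) := by
          rw [hvT, hc, hδ, hm, ← ENNReal.ofReal_mul hg, ← ENNReal.ofReal_mul hlam.le,
            ← ENNReal.ofReal_mul hlam.le]
          congr 1
          ring
  have h2 := mean_ge' (μ := μ) hF hψm δ m hδ0 hm0 hint h1
  have h3 : m * z ≤ a / (1 - δ) := by
    rw [le_div_iff₀ hδ']
    linarith
  have h4 : z * Real.exp (-m) ≤ 1 := by
    have h5 := ENNReal.toReal_mono ENNReal.ofReal_ne_top hZe
    rw [ENNReal.toReal_ofReal (Real.exp_pos m).le] at h5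
    calc z * Real.exp (-m) ≤ Real.exp m * Real.exp (-m) := by gcongr
      _ = 1 := by rw [← Real.exp_add]; simp
  have h7 : Real.exp (-q) * (1 + (q - m)) ≤ Real.exp (-m) := by
    have h5 : 1 + (q - m) ≤ Real.exp (q - m) := by
      have := Real.add_one_le_exp (q - m); linarith
    calc Real.exp (-q) * (1 + (q - m)) ≤ Real.exp (-q) * Real.exp (q - m) := by gcongr
      _ = Real.exp (-m) := by rw [← Real.exp_add]; ring_nf
  have h8 := mul_le_mul_of_nonneg_left h7 (by linarith : (0 : ℝ) ≤ z)
  have h9 := mul_le_mul_of_nonneg_left h3 (Real.exp_pos (-q)).le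
  have h10 : Real.exp (-q) / (1 - δ) * a = Real.exp (-q) * (a / (1 - δ)) := by
    field_simp
  have hreal : Real.exp (-q) * (1 + q) * z ≤ 1 + Real.exp (-q) / (1 - δ) * a := by
    rw [h10]
    nlinarith
  have e1 : Z μ (farG R) ψ = ENNReal.ofReal z := (ENNReal.ofReal_toReal hZf).symm
  have e2 : Mn μ (farG R) ψ = ENNReal.ofReal a := (ENNReal.ofReal_toReal hMf).symm
  have hq1 : 0 ≤ Real.exp (-q) / (1 - δ) := by positivity
  rw [e1, e2, ← ENNReal.ofReal_mul' (by linarith), ← ENNReal.ofReal_mul hq1,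
    ← ENNReal.ofReal_one, ← ENNReal.ofReal_add zero_le_one (by positivity)]
  exact ENNReal.ofReal_le_ofReal hreal

/-- the partition function with the points near a random place forbidden -/
noncomputable def z1G (μ : Measure Ω) (R : Ω → Ω → Prop) (lam : ℝ) : ℝ :=
  (∫⁻ v, Z μ (farG R) (fun y => ENNReal.ofReal lam * farG R v y) ∂μ).toReal

theorem z1_props [IsProbabilityMeasure μ] (hG : Geo μ R p) {lam : ℝ} (hlam : 0 < lam) :
    ∫⁻ v, Z μ (farG R) (fun y => ENNReal.ofReal lam * farG R v y) ∂μ = ENNReal.ofReal (z1G μ R lam) ∧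
    1 ≤ z1G μ R lam ∧ z1G μ R lam ≤ ZG μ R lam := by
  have hF := farG_adm hG
  set I := ∫⁻ v, Z μ (farG R) (fun y => ENNReal.ofReal lam * farG R v y) ∂μ with hI
  have h1 : I ≤ ENNReal.ofReal (ZG μ R lam) := by
    rw [← ZG_const hG lam hlam.le, hI]
    calc ∫⁻ v, Z μ (farG R) (fun y => ENNReal.ofReal lam * farG R v y) ∂μ
        ≤ ∫⁻ _v, Z μ (farG R) (fun _ => ENNReal.ofReal lam) ∂μ := by
          refine lintegral_mono fun v => Z_mono fun y => ?_
          exact mul_le_of_le_one_right (by simp) (hF.le_one v y)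
      _ = _ := by rw [lintegral_const, measure_univ, mul_one]
  have h2 : 1 ≤ I := by
    rw [hI]
    calc (1 : ℝ≥0∞) = ∫⁻ _v, 1 ∂μ := by rw [lintegral_const, measure_univ, mul_one]
      _ ≤ _ := lintegral_mono fun v => one_le_Z _
  have hne : I ≠ ∞ := (h1.trans_lt ENNReal.ofReal_lt_top).ne
  have hZ := ZG_ge_one hG lam hlam.le
  refine ⟨(ENNReal.ofReal_toReal hne).symm, ?_, ?_⟩
  · have h3 := ENNReal.toReal_mono hne h2
    rw [ENNReal.toReal_one] at h3
    exact h3
  · have := ENNReal.toReal_mono ENNReal.ofReal_ne_top h1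
    rwa [ENNReal.toReal_ofReal (by linarith)] at this

/-- **The lower bound.** -/
theorem low_G [IsProbabilityMeasure μ] (hG : Geo μ R p) {g : ℝ} (hg : 0 ≤ g) (hL : Loc μ R g)
    {lam : ℝ} (hlam : 0 < lam) (hδ1 : lam * g ≤ 1 / 2) :
    (1 - lam * g) * Real.log (ZG μ R lam / z1G μ R lam) ≤
      lam * p * z1G μ R lam / ZG μ R lam := by
  have hF := farG_adm hG
  obtain ⟨hz1, hz2, hz3⟩ := z1_props hG hlam
  set z := ZG μ R lam with hz
  set z1 := z1G μ R lam with hz1d
  set c : ℝ≥0∞ := ENNReal.ofReal lam with hc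
  have hcne : c ≠ ∞ := ENNReal.ofReal_ne_top
  have hp := hG.pos
  set δ := lam * g with hδ
  have hδ' : 0 < 1 - δ := by linarith
  set q := Real.log (z / z1) with hq
  have hz1pos : 0 < z1 := by linarith
  have hzpos : 0 < z := by linarith
  have hq0 : 0 ≤ q := Real.log_nonneg (by
    rw [le_div_iff₀ hz1pos]; linarith)
  have hZc : Z μ (farG R) (fun _ => c) = ENNReal.ofReal z := ZG_const hG lam hlam.le
  -- the inequality at `v`
  have key : ∀ v, ENNReal.ofReal (Real.exp (-q) * (1 + q)) * ENNReal.ofReal z ≤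
      Z μ (farG R) (fun y => c * farG R v y) + ENNReal.ofReal (Real.exp (-q) / (1 - δ)) *
        ∫⁻ u, {y | R v y}.indicator (fun _ => c) u *
          Z μ (farG R) (fun y => c * farG R u y) ∂μ := by
    intro v
    set B : Set Ω := {y | R v y} with hB
    have hBm : MeasurableSet B := nearG_meas hG v
    set φ : Ω → ℝ≥0∞ := B.indicator fun _ => c with hφ
    set χ : Ω → ℝ≥0∞ := Bᶜ.indicator fun _ => c with hχ
    have hφm : Measurable φ := measurable_const.indicator hBm
    have hχm : Measurable χ := measurable_const.indicator hBm.compl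
    have hsum : ∀ y, χ y + φ y = c := by
      intro y
      by_cases hy : y ∈ B
      · rw [hχ, hφ, Set.indicator_of_mem hy, Set.indicator_of_notMem (by simpa using hy), zero_add]
      · rw [hχ, hφ, Set.indicator_of_notMem hy, Set.indicator_of_mem (by simpa using hy), add_zero]
    have hχ1 : χ = fun y => c * farG R v y := by
      have h1 := mul_farG (R := R) (univ : Set Ω) c v
      have h2 : (univ : Set Ω) \ {y | R v y} = Bᶜ := by
        rw [hB, Set.compl_eq_univ_sdiff]
      rw [h2] at h1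
      rw [hχ, ← h1]
      funext y
      rw [Set.indicator_of_mem (mem_univ y)]
    set P : (Ω → ℝ≥0∞) → Prop := fun ψ => ∃ T : Set Ω, MeasurableSet T ∧ T ⊆ B ∧
      ψ = T.indicator fun _ => c with hP
    have hPF : ∀ ψ, P ψ → ∀ u, P (fun y => ψ y * farG R u y) := by
      rintro ψ ⟨T, hT, hTB, rfl⟩ u
      exact ⟨T \ {y | R u y}, hT.diff (nearG_meas hG u), fun y hy => hTB hy.1, mul_farG T c u⟩
    have h := low2 (μ := μ) hF hχm hφm P hPF ⟨B, hBm, le_rfl, rfl⟩
      (ENNReal.ofReal (Real.exp (-q) * (1 + q))) (ENNReal.ofReal (Real.exp (-q) / (1 - δ))) (by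
        rintro ψ ⟨T, hT, hTB, rfl⟩
        exact pt_ineqG hG hg hL hT hTB hlam hδ1)
    simp only [hsum] at h
    rw [hZc, hχ1] at h
    exact h
  -- integration over `v`
  have hmeasZ : Measurable fun u => Z μ (farG R) (fun y => c * farG R u y) :=
    (nice_Z (μ := μ) hF).meas hF (measurable_const : Measurable fun _ : Ω => c)
  have hswap : ∫⁻ v, ∫⁻ u, {y | R v y}.indicator (fun _ => c) u *
      Z μ (farG R) (fun y => c * farG R u y) ∂μ ∂μ = ENNReal.ofReal (lam * p * z1) := by
    have hm : Measurable (Function.uncurry fun v u : Ω => {y | R v y}.indicator (fun _ => c) u *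
        Z μ (farG R) (fun y => c * farG R u y)) := by
      refine Measurable.mul ?_ (hmeasZ.comp measurable_snd)
      have h1 : (Function.uncurry fun v u : Ω => {y | R v y}.indicator (fun _ => c) u) =
          {x : Ω × Ω | R x.1 x.2}.indicator fun _ => c := by
        funext x
        by_cases h : R x.1 x.2 <;> simp [Function.uncurry, Set.indicator, h]
      have h2 : (fun a : Ω × Ω => {y | R a.1 y}.indicator (fun _ => c) a.2) =
          {x : Ω × Ω | R x.1 x.2}.indicator fun _ => c := h1
      rw [h2]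
      exact measurable_const.indicator hG.meas
    rw [lintegral_lintegral_swap hm.aemeasurable]
    have h2 : ∀ u, ∫⁻ v, {y | R v y}.indicator (fun _ => c) u *
        Z μ (farG R) (fun y => c * farG R u y) ∂μ =
        c * ENNReal.ofReal p * Z μ (farG R) (fun y => c * farG R u y) := by
      intro u
      have h3 : (fun v => {y | R v y}.indicator (fun _ => c) u) =
          {y | R u y}.indicator fun _ => c := by
        funext v
        by_cases h : R v u
        · rw [Set.indicator_of_mem (by exact h), Set.indicator_of_mem (by exact hG.symm _ _ h)]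
        · rw [Set.indicator_of_notMem (by exact h),
            Set.indicator_of_notMem (by exact fun h' => h (hG.symm _ _ h'))]
      have h4 : Measurable fun v => {y | R v y}.indicator (fun _ => c) u := by
        rw [h3]
        exact measurable_const.indicator (nearG_meas hG u)
      rw [lintegral_mul_const _ h4, h3, lintegral_indicator_const (nearG_meas hG u), hG.vol]
    simp only [h2]
    rw [lintegral_const_mul _ hmeasZ, hz1, hc, ← ENNReal.ofReal_mul hlam.le,
      ← ENNReal.ofReal_mul (by positivity)]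
  have hint := lintegral_mono (μ := μ) (fun v => key v)
  rw [lintegral_const, measure_univ, mul_one, lintegral_add_left hmeasZ, hz1,
    lintegral_const_mul' _ _ ENNReal.ofReal_ne_top, hswap] at hint
  have hq1 : 0 ≤ Real.exp (-q) / (1 - δ) := by positivity
  rw [← ENNReal.ofReal_mul (by positivity), ← ENNReal.ofReal_mul hq1,
    ← ENNReal.ofReal_add hz1pos.le (by positivity)] at hint
  have key2 := (ENNReal.ofReal_le_ofReal_iff (by positivity)).1 hint
  have hexp : Real.exp (-q) = z1 / z := by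
    rw [hq, ← Real.log_inv, Real.exp_log (by positivity), inv_div]
  rw [hexp] at key2
  have h1 : z1 / z * (1 + q) * z = z1 * (1 + q) := by field_simp
  have h2 : z1 / z / (1 - δ) * (lam * p * z1) = z1 * (lam * p * z1 / z / (1 - δ)) := by
    field_simp
  rw [h1, h2] at key2
  have h3 : z1 * q ≤ z1 * (lam * p * z1 / z / (1 - δ)) := by linarith
  have h4 := le_of_mul_le_mul_left h3 hz1pos
  rw [le_div_iff₀ hδ'] at h4
  linarith

/-- the mean number of points of the gas -/
noncomputable def meanG (μ : Measure Ω) (R : Ω → Ω → Prop) (lam : ℝ) : ℝ :=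
  (∑' k : ℕ, (k : ℝ) * (lam ^ k / k.factorial * confG μ R k)) / ZG μ R lam

theorem cf_one [IsProbabilityMeasure μ] (hG : Geo μ R p) (k : ℕ) :
    cf μ (farG R) (fun _ => 1) k = confG μ R k / k.factorial := by
  unfold cf
  rw [confG_eq hG k, ENNReal.toReal_ofReal (confG_nonneg k)]

theorem int_one [IsProbabilityMeasure μ] : ∫⁻ _ : Ω, (1 : ℝ≥0∞) ∂μ ≤ ENNReal.ofReal 1 := by
  rw [lintegral_const, measure_univ]
  simp

/-- the mean number of points -/
theorem meanG_eq [IsProbabilityMeasure μ] (hG : Geo μ R p) {lam : ℝ} (hlam : 0 < lam) :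
    (Mn μ (farG R) (fun _ => ENNReal.ofReal lam)).toReal =
      ∑' k : ℕ, (k : ℝ) * (lam ^ k / k.factorial * confG μ R k) := by
  have hF := farG_adm hG
  have h := Mn_scale (μ := μ) hF (φ := fun _ => 1) measurable_const 1 zero_le_one int_one lam hlam.le
  simp only [mul_one] at h
  have hs : ∀ k : ℕ, (k : ℝ) * (lam ^ k * cf μ (farG R) (fun _ => 1) k) =
      (k : ℝ) * (lam ^ k / k.factorial * confG μ R k) := fun k => by
    rw [cf_one hG]
    ring
  simp only [hs] at h
  rw [h, ENNReal.toReal_ofReal (tsum_nonneg fun k => mul_nonneg (by positivity)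
    (mul_nonneg (by positivity) (confG_nonneg k)))]

theorem meanG_z1 [IsProbabilityMeasure μ] (hG : Geo μ R p) {lam : ℝ} (hlam : 0 < lam) :
    meanG μ R lam = lam * z1G μ R lam / ZG μ R lam := by
  obtain ⟨hz1, hz2, hz3⟩ := z1_props hG hlam
  unfold meanG
  rw [← meanG_eq hG hlam]
  congr 1
  unfold Mn
  have hmeasZ : Measurable fun u => Z μ (farG R) (fun y => ENNReal.ofReal lam * farG R u y) :=
    (nice_Z (μ := μ) (farG_adm hG)).meas (farG_adm hG)
      (measurable_const : Measurable fun _ : Ω => ENNReal.ofReal lam)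
  rw [lintegral_const_mul _ hmeasZ, hz1, ENNReal.toReal_mul, ENNReal.toReal_ofReal hlam.le,
    ENNReal.toReal_ofReal (by linarith)]

theorem ZG_eq [IsProbabilityMeasure μ] (hG : Geo μ R p) {lam : ℝ} (hlam : 0 < lam) :
    (Z μ (farG R) (fun _ => ENNReal.ofReal lam)).toReal = ZG μ R lam := by
  rw [ZG_const hG lam hlam.le, ENNReal.toReal_ofReal (by linarith [ZG_ge_one hG lam hlam.le])]

/-- convexity -/
theorem conv_gasG [IsProbabilityMeasure μ] (hG : Geo μ R p) {s s' : ℝ} (hs : 0 < s)
    (hs' : 0 < s') : Real.log (s' / s) * meanG μ R s ≤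
      Real.log (ZG μ R s') - Real.log (ZG μ R s) := by
  have h := conv_gen (μ := μ) (farG_adm hG) (φ := fun _ => 1) measurable_const 1 zero_le_one
    int_one s s' hs hs'
  simp only [mul_one] at h
  rw [ZG_eq hG hs, ZG_eq hG hs', meanG_eq hG hs] at h
  exact h

/-- lower bound for the density -/
theorem dens_geG [IsProbabilityMeasure μ] (hG : Geo μ R p) {g : ℝ} (hg : 0 ≤ g) (hL : Loc μ R g)
    {s ε : ℝ} (hs : 0 < s) (hε : ε ≤ 1 / 2) (hδ : s * Real.exp s / p * g < ε) :
    (1 - ε) * s ≤ p * meanG μ R (s * Real.exp s / p) := by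
  have hp := hG.pos
  have hlam : 0 < s * Real.exp s / p := by positivity
  obtain ⟨-, hz2, hz3⟩ := z1_props hG hlam
  have key := low_G hG hg hL hlam (by linarith)
  rw [meanG_z1 hG hlam]
  set z := ZG μ R (s * Real.exp s / p) with hz
  set z1 := z1G μ R (s * Real.exp s / p) with hz1
  set δ := s * Real.exp s / p * g with hδd
  have hzpos : 0 < z := by linarith
  have hz1pos : 0 < z1 := by linarith
  set y := p * (s * Real.exp s / p * z1 / z) with hy
  have hy0 : 0 < y := by positivity
  have e1 : s * Real.exp s / p * p * z1 / z = y := by rw [hy]; ring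
  have e3 : z / z1 = s * Real.exp s / y := by
    rw [hy]; field_simp
  rw [e1, e3] at key
  by_contra hcon
  push Not at hcon
  have hδ0 : 0 ≤ δ := by positivity
  have h5 : y < (1 - δ) * s := lt_of_lt_of_le hcon (by nlinarith)
  have h6 : y < s := by nlinarith
  have h7 : s < Real.log (s * Real.exp s / y) := by
    rw [Real.lt_log_iff_exp_lt (by positivity), lt_div_iff₀ hy0]
    calc Real.exp s * y < Real.exp s * s := mul_lt_mul_of_pos_left h6 (Real.exp_pos s)
      _ = s * Real.exp s := by ring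
  have h8 : (1 - δ) * s < (1 - δ) * Real.log (s * Real.exp s / y) :=
    mul_lt_mul_of_pos_left h7 (by linarith)
  linarith

end Pool.Agent.U279.KR
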