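import Pool.Agent.U279.KR.GenGas

/-!
# The hard-core gas on a probability space: the equation of state
-/

set_option autoImplicit false

namespace Pool.Agent.U279.KR

open MeasureTheory Set Finset ProbabilityTheory Filter Topology
open scoped ENNReal NNReal
open Pool.Agent.N549.HG

variable {Ω : Type} [MeasurableSpace Ω] {μ : Measure Ω} {R : Ω → Ω → Prop} {p : ℝ} {N n : ℕ}

/-- The hypotheses for the equation of state. -/
structure Hyp (μ : Measure Ω) (R : Ω → Ω → Prop) (p : ℝ) (n : ℕ) : Prop where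
  geo : Geo μ R p
  small : p ≤ (19 / 20) ^ n
  cells : Cells μ
  sat : Sat μ R p (Real.exp (-(n / 20 : ℝ)))
  loc : Loc μ R (p * Real.exp (-(11 / 200 * n : ℝ)))

/-- **The equation of state.** -/
theorem state_G {ε : ℝ} (hε : 0 < ε) : ∃ n₀ : ℕ, ∀ n : ℕ, n₀ ≤ n →
    ∀ (Ω : Type) [MeasurableSpace Ω] (μ : Measure Ω) [IsProbabilityMeasure μ]
      (R : Ω → Ω → Prop) (p : ℝ), Hyp μ R p n → ∀ s : ℝ, 0 < s →
      s * Real.exp s ≤ Real.exp ((1 / 20 - ε) * n) →
      |p * meanG μ R (s * Real.exp s / p) - s| ≤ ε * s ∧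
      |p * Real.log (ZG μ R (s * Real.exp s / p)) - (s + s ^ 2 / 2)| ≤ ε * (s + s ^ 2 / 2) := by
  set X := (1 - Real.log 2) / 2 with hX
  have hlog2 := Real.log_two_gt_d9
  have hlog2' := Real.log_two_lt_d9
  have hX0 : 3 / 20 < X := by rw [hX]; linarith
  have hX1 : X < 1 / 5 := by rw [hX]; linarith
  set ε' := min ε (3 / 20) with hε'
  have hε'0 : 0 < ε' := lt_min hε (by norm_num)
  have hε'1 : ε' ≤ ε := min_le_left _ _
  have hε'2 : ε' ≤ 3 / 20 := min_le_right _ _
  obtain ⟨ε₁, hε₁, n₁, h⟩ := Pool.Agent.N490.HG.asm2 ε' hε'0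
  have t1 : Tendsto (fun n : ℕ => Real.exp (-(1 / 200 * (n : ℝ)))) atTop (𝓝 0) :=
    Real.tendsto_exp_neg_atTop_nhds_zero.comp
      (tendsto_natCast_atTop_atTop.const_mul_atTop (by norm_num))
  obtain ⟨n₂, hn₂⟩ := Filter.eventually_atTop.1 (t1.eventually_lt_const
    (show (0 : ℝ) < min ε₁ (1 / 2) by positivity))
  obtain ⟨n₃, hn₃⟩ := exists_nat_ge (3 / ε + 20)
  refine ⟨n₂ + n₃ + 4 * (n₁ + 1), fun n hn Ω _ μ _ R p hH s hs hsX => ?_⟩
  have hG := hH.geo
  have hp := hG.pos
  have hn0 : (0 : ℝ) ≤ n := Nat.cast_nonneg n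
  -- the auxiliary dimension
  set m : ℕ := ⌊(n : ℝ) / (20 * X)⌋₊ with hm
  have h20X : 0 < 20 * X := by linarith
  have hm1 : (m : ℝ) ≤ n / (20 * X) := Nat.floor_le (by positivity)
  have hm2 : n / (20 * X) < m + 1 := Nat.lt_floor_add_one _
  have hm3 : X * m ≤ n / 20 := by
    rw [le_div_iff₀ h20X] at hm1
    linarith
  have hm4 : (n : ℝ) < (m + 1) * (20 * X) := by
    rwa [div_lt_iff₀ h20X] at hm2
  have hmn : n₁ ≤ m := by
    have h1 : (n : ℝ) < (m + 1) * 4 := lt_of_lt_of_le hm4 (by nlinarith)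
    have h2 : n < (m + 1) * 4 := by exact_mod_cast h1
    omega
  have key := h m hmn (fun s => p * meanG μ R (s * Real.exp s / p))
    (fun s => p * Real.log (ZG μ R (s * Real.exp s / p))) ?_ ?_ ?_ ?_ ?_ s hs ?_
  · obtain ⟨h1, h2⟩ := key
    constructor
    · exact h1.trans (mul_le_mul_of_nonneg_right hε'1 hs.le)
    · exact h2.trans (mul_le_mul_of_nonneg_right hε'1 (by positivity))
  · intro w hw
    have hlam : 0 < w * Real.exp w / p := by positivity
    obtain ⟨-, hz2, hz3⟩ := z1_props hG hlam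
    show 0 < p * meanG μ R (w * Real.exp w / p)
    rw [meanG_z1 hG hlam]
    have h1 : 0 < z1G μ R (w * Real.exp w / p) := by linarith
    have h2 : 0 < ZG μ R (w * Real.exp w / p) := by linarith
    positivity
  · intro w hw
    have hlam : 0 < w * Real.exp w / p := by positivity
    exact mul_nonneg hp.le (Real.log_nonneg (ZG_ge_one hG _ hlam.le))
  · intro w hw hwX
    have h1 : w * Real.exp w ≤ Real.exp ((n : ℝ) / 20) := hwX.trans (Real.exp_le_exp.2 hm3)
    have h2 : w * Real.exp w / p * (p * Real.exp (-(11 / 200 * n : ℝ))) < min ε₁ (1 / 2) := by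
      calc w * Real.exp w / p * (p * Real.exp (-(11 / 200 * n : ℝ)))
          = w * Real.exp w * Real.exp (-(11 / 200 * n : ℝ)) := by field_simp
        _ ≤ Real.exp ((n : ℝ) / 20) * Real.exp (-(11 / 200 * n : ℝ)) :=
            mul_le_mul_of_nonneg_right h1 (Real.exp_pos _).le
        _ = Real.exp (-(1 / 200 * (n : ℝ))) := by
            rw [← Real.exp_add]
            congr 1
            ring
        _ < _ := hn₂ n (by omega)
    have h3 := dens_geG hG (by positivity) hH.loc hw (min_le_right _ _) h2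
    have h4 : (1 - ε₁) * w ≤ (1 - min ε₁ (1 / 2)) * w :=
      mul_le_mul_of_nonneg_right (by linarith [min_le_left ε₁ (1 / 2)]) hw.le
    exact h4.trans h3
  · intro w hw
    have h1 := up_gen hG hH.cells (Real.exp_pos _).le hH.sat hw
    refine h1.trans ?_
    have h2 : Real.exp (-(n / 20 : ℝ)) ≤ Real.pi * (m + 1) * Real.exp (-X * m) := by
      have h3 : Real.exp (-(n / 20 : ℝ)) ≤ Real.exp (-X * m) := Real.exp_le_exp.2 (by linarith)
      have h4 : 1 ≤ Real.pi * ((m : ℝ) + 1) := by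
        have := Real.pi_gt_three
        have : (0 : ℝ) ≤ m := Nat.cast_nonneg m
        nlinarith
      calc Real.exp (-(n / 20 : ℝ)) ≤ 1 * Real.exp (-X * m) := by linarith
        _ ≤ _ := mul_le_mul_of_nonneg_right h4 (Real.exp_pos _).le
    have h5 := mul_le_mul_of_nonneg_right h2 (show 0 ≤ w * Real.exp w by positivity)
    linarith
  · intro a b ha hab
    have hb : 0 < b := lt_of_lt_of_le ha hab
    have hA : 0 < a * Real.exp a / p := by positivity
    have hB : 0 < b * Real.exp b / p := by positivity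
    have e1 : Real.log (b * Real.exp b / p / (a * Real.exp a / p)) =
        Real.log (b / a) + (b - a) := by
      have : b * Real.exp b / p / (a * Real.exp a / p) = b / a * Real.exp (b - a) := by
        rw [Real.exp_sub]
        field_simp
      rw [this, Real.log_mul (by positivity) (Real.exp_pos _).ne', Real.log_exp]
    have e2 : Real.log (a * Real.exp a / p / (b * Real.exp b / p)) =
        -(Real.log (b / a) + (b - a)) := by
      rw [← e1, ← Real.log_inv, inv_div]
    have c1 := conv_gasG hG hA hB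
    have c2 := conv_gasG hG hB hA
    rw [e1] at c1
    rw [e2] at c2
    constructor
    · have := mul_le_mul_of_nonneg_left c1 hp.le
      show (Real.log (b / a) + (b - a)) * (p * meanG μ R (a * Real.exp a / p)) ≤
        p * Real.log (ZG μ R (b * Real.exp b / p)) - p * Real.log (ZG μ R (a * Real.exp a / p))
      linarith
    · have := mul_le_mul_of_nonneg_left c2 hp.le
      show p * Real.log (ZG μ R (b * Real.exp b / p)) -
        p * Real.log (ZG μ R (a * Real.exp a / p)) ≤
        (Real.log (b / a) + (b - a)) * (p * meanG μ R (b * Real.exp b / p))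
      linarith
  · refine hsX.trans (Real.exp_le_exp.2 ?_)
    have h1 : (n₃ : ℝ) ≤ n := by exact_mod_cast (by omega : n₃ ≤ n)
    have h2 : 3 / ε + 20 ≤ n := hn₃.trans h1
    have h3 : 3 / ε ≤ n := by linarith
    rw [div_le_iff₀ hε] at h3
    -- `(X - ε') m ≥ (X - ε') (n / (20 X) - 1)`
    have h4 : 0 ≤ X - ε' := by linarith
    have h5 : (n : ℝ) / 20 - ε' * (n / (20 * X)) - X ≤ (X - ε') * m := by
      have h6 : (X - ε') * (n / (20 * X) - 1) ≤ (X - ε') * m :=
        mul_le_mul_of_nonneg_left (by linarith) h4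
      have h7 : (X - ε') * (n / (20 * X) - 1) = n / 20 - ε' * (n / (20 * X)) - (X - ε') := by
        field_simp
      rw [h7] at h6
      linarith
    have h8 : ε' * (n / (20 * X)) ≤ ε * (n / 3) := by
      refine mul_le_mul hε'1 ?_ (by positivity) hε.le
      exact div_le_div_of_nonneg_left hn0 (by norm_num) (by linarith)
    nlinarith

theorem conf_antiG [IsProbabilityMeasure μ] (hG : Geo μ R p) : Antitone (confG μ R) := by
  refine antitone_nat_of_succ_le fun k => ?_
  have hF := farG_adm hG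
  have h1 : A μ (farG R) (k + 1) (fun _ => 1) ≤ A μ (farG R) k (fun _ => 1) := by
    simp only [A]
    calc ∫⁻ u, 1 * A μ (farG R) k (fun y => 1 * farG R u y) ∂μ
        ≤ ∫⁻ _u, A μ (farG R) k (fun _ => 1) ∂μ := by
          refine lintegral_mono fun u => ?_
          rw [one_mul]
          refine A_mono k fun y => ?_
          rw [one_mul]
          exact hF.le_one u y
      _ = A μ (farG R) k (fun _ => 1) := by simp
  rw [confG_eq hG, confG_eq hG] at h1
  exact (ENNReal.ofReal_le_ofReal_iff (confG_nonneg k)).1 h1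

/-- **The canonical form.** -/
theorem canon_G {ε : ℝ} (hε : 0 < ε) : ∃ n₀ : ℕ, ∀ n : ℕ, n₀ ≤ n →
    ∀ (Ω : Type) [MeasurableSpace Ω] (μ : Measure Ω) [IsProbabilityMeasure μ]
      (R : Ω → Ω → Prop) (p : ℝ), Hyp μ R p n → ∀ k : ℕ, ε ≤ k * p →
      k * p ≤ (1 / 20 - ε) * n →
      0 < confG μ R k ∧ |Real.log (confG μ R k) + k ^ 2 * p / 2| ≤ ε * (k ^ 2 * p) := by
  set X : ℝ := 1 / 20 with hX
  obtain ⟨ε₁, hε₁, D₀, hD₀, h1⟩ := Pool.Agent.N424.HG.canon ε hε
  -- choice of the margin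
  obtain ⟨ε₂, hε₂, hm⟩ : ∃ ε₂ : ℝ, 0 < ε₂ ∧ (1 + ε) * (X - ε) ≤ X - 2 * ε₂ := by
    refine ⟨(ε * (1 - X) + ε ^ 2) / 2, by
      have : 0 < 1 - X := by rw [hX]; norm_num
      positivity, le_of_eq ?_⟩
    ring
  obtain ⟨n₁, h2⟩ := state_G (lt_min hε₁ hε₂)
  have t1 : Tendsto (fun n : ℕ => ((19 : ℝ) / 20) ^ n) atTop (𝓝 0) :=
    tendsto_pow_atTop_nhds_zero_of_lt_one (by norm_num) (by norm_num)
  have t2 : Tendsto (fun n : ℕ => (n : ℝ) * Real.exp (-ε₂) ^ n) atTop (𝓝 0) :=
    tendsto_self_mul_const_pow_of_lt_one (Real.exp_pos _).le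
      ((Real.exp_lt_exp.2 (by linarith)).trans_eq Real.exp_zero)
  obtain ⟨n₂, hn₂⟩ := Filter.eventually_atTop.1 ((t1.eventually_le_const hD₀).and
    (t2.eventually_le_const one_pos))
  refine ⟨max (max n₁ n₂) 1, fun n hn Ω _ μ _ R p hH k hk1 hk2 => ?_⟩
  have hn1 : 1 ≤ n := (le_max_right _ _).trans hn
  have hnn1 : n₁ ≤ n := ((le_max_left _ _).trans (le_max_left _ _)).trans hn
  have hnn2 : n₂ ≤ n := ((le_max_right _ _).trans (le_max_left _ _)).trans hn
  obtain ⟨h3, h4⟩ := hn₂ n hnn2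
  have hn0 : (0 : ℝ) < n := by exact_mod_cast hn1
  have hG := hH.geo
  have hD := hG.pos
  refine h1 p ((X - 2 * ε₂) * n) hD (hH.small.trans h3) (confG μ R)
    (conf_antiG hG) (fun k => ⟨confG_nonneg k, confG_le_one k⟩) ?_ k hk1 ?_
  · intro w hw hwX
    have h5 : w * Real.exp w ≤ Real.exp ((X - min ε₁ ε₂) * n) := by
      have h6 : w ≤ n := by
        have : (X - 2 * ε₂) * n ≤ 1 * n := mul_le_mul_of_nonneg_right (by rw [hX]; linarith) hn0.le
        linarith
      have h7 : (n : ℝ) ≤ Real.exp (ε₂ * n) := by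
        have h8 : Real.exp (-ε₂) ^ n = (Real.exp (ε₂ * n))⁻¹ := by
          rw [← Real.exp_nat_mul, ← Real.exp_neg]; congr 1; ring
        rw [h8, ← div_eq_mul_inv, div_le_one (Real.exp_pos _)] at h4
        exact h4
      calc w * Real.exp w ≤ Real.exp (ε₂ * n) * Real.exp ((X - 2 * ε₂) * n) :=
            mul_le_mul (h6.trans h7) (Real.exp_le_exp.2 hwX) (Real.exp_pos _).le (Real.exp_pos _).le
        _ = Real.exp ((X - ε₂) * n) := by rw [← Real.exp_add]; congr 1; ring
        _ ≤ Real.exp ((X - min ε₁ ε₂) * n) := by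
            apply Real.exp_le_exp.2
            have := min_le_right ε₁ ε₂
            exact mul_le_mul_of_nonneg_right (by linarith) hn0.le
    obtain ⟨-, h6⟩ := h2 n hnn1 Ω μ R p hH w hw h5
    have h7 : ZG μ R (w * Real.exp w / p) =
        ∑' k : ℕ, (w * Real.exp w / p) ^ k / k.factorial * confG μ R k := rfl
    rw [h7, abs_le] at h6
    have h8 : min ε₁ ε₂ ≤ ε₁ := min_le_left _ _
    have h9 : 0 ≤ w + w ^ 2 / 2 := by positivity
    have h10 := mul_le_mul_of_nonneg_right h8 h9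
    constructor <;> linarith [h6.1, h6.2]
  · calc (1 + ε) * (k * p) ≤ (1 + ε) * ((X - ε) * n) :=
          mul_le_mul_of_nonneg_left hk2 (by linarith)
      _ = (1 + ε) * (X - ε) * n := by ring
      _ ≤ (X - 2 * ε₂) * n := mul_le_mul_of_nonneg_right hm hn0.le

end Pool.Agent.U279.KR
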