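import Pool.Agent.U279.PR.Low2
import Pool.Agent.N549.HG.Main

/-!
# Independent sets among random points of a probability space: the upper bound
-/

set_option autoImplicit false

namespace Pool.Agent.U279.KR

open MeasureTheory Set Finset ProbabilityTheory
open scoped ENNReal NNReal
open Pool.Agent.N549.HG

variable {Ω : Type} [MeasurableSpace Ω] {μ : Measure Ω} {R : Ω → Ω → Prop} {p : ℝ} {N m : ℕ}

/-- A symmetric relation with constant probability `p`. -/
structure Geo (μ : Measure Ω) (R : Ω → Ω → Prop) (p : ℝ) : Prop where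
  meas : MeasurableSet {x : Ω × Ω | R x.1 x.2}
  symm : ∀ x y, R x y → R y x
  vol : ∀ x, μ {y | R x y} = ENNReal.ofReal p
  pos : 0 < p

/-- The law of `N` independent points. -/
noncomputable def lawG (μ : Measure Ω) (N : ℕ) : Measure (Fin N → Ω) := Measure.pi fun _ : Fin N => μ

instance [IsProbabilityMeasure μ] : IsProbabilityMeasure (lawG μ N) := by unfold lawG; infer_instance

/-- The points with indices in `s` are independent. -/
def Pk (R : Ω → Ω → Prop) (s : Finset (Fin N)) (X : Fin N → Ω) : Prop :=
  ∀ i ∈ s, ∀ j ∈ s, i ≠ j → ¬ R (X i) (X j)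

theorem Pk.mono {s t : Finset (Fin N)} {X : Fin N → Ω} (h : Pk R t X) (hst : s ⊆ t) :
    Pk R s X := fun i hi j hj hij => h i (hst hi) j (hst hj) hij

/-- The largest size of an independent set among the points. -/
noncomputable def best (R : Ω → Ω → Prop) (X : Fin N → Ω) : ℕ :=
  sSup {k | ∃ s : Finset (Fin N), Pk R s X ∧ s.card = k}

theorem best_bdd (X : Fin N → Ω) :
    BddAbove {k | ∃ s : Finset (Fin N), Pk R s X ∧ s.card = k} :=
  ⟨N, by rintro _ ⟨s, -, rfl⟩; simpa using s.card_le_univ⟩

theorem exists_best (R : Ω → Ω → Prop) (X : Fin N → Ω) :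
    ∃ s : Finset (Fin N), Pk R s X ∧ s.card = best R X :=
  Nat.sSup_mem (s := {k | ∃ s : Finset (Fin N), Pk R s X ∧ s.card = k})
    ⟨0, ∅, fun i hi => absurd hi (Finset.notMem_empty i), rfl⟩ (best_bdd X)

theorem le_best {X : Fin N → Ω} {s : Finset (Fin N)} (h : Pk R s X) :
    s.card ≤ best R X := le_csSup (best_bdd X) ⟨s, h, rfl⟩

theorem le_best_iff {X : Fin N → Ω} {k : ℕ} :
    k ≤ best R X ↔ ∃ s : Finset (Fin N), s.card = k ∧ Pk R s X := by
  constructor
  · intro h
    obtain ⟨s, hs, hc⟩ := exists_best R X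
    obtain ⟨t, ht, htc⟩ := Finset.exists_subset_card_eq (s := s) (n := k) (by omega)
    exact ⟨t, htc, hs.mono ht⟩
  · rintro ⟨s, rfl, hs⟩
    exact le_best hs

/-- The law of a subfamily. -/
theorem map_inj [IsProbabilityMeasure μ] {k : ℕ} {f : Fin k → Fin N} (hf : Function.Injective f) :
    (lawG μ N).map (fun X i => X (f i)) = lawG μ k := by
  have h1 : iIndepFun (fun (i : Fin N) (X : Fin N → Ω) => X i) (lawG μ N) :=
    iIndepFun_pi (X := fun _ x => x) (μ := fun _ : Fin N => μ) fun i => aemeasurable_id
  have h2 := h1.precomp hf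
  rw [iIndepFun_iff_map_fun_eq_pi_map (fun i => (measurable_pi_apply _).aemeasurable)] at h2
  rw [h2]
  unfold lawG
  congr 1
  funext i
  exact (measurePreserving_eval (fun _ : Fin N => μ) (f i)).map_eq

/-- The probability that `k` points are independent. -/
noncomputable def confG (μ : Measure Ω) (R : Ω → Ω → Prop) (k : ℕ) : ℝ :=
  (lawG μ k).real {x | ∀ i j, i < j → ¬ R (x i) (x j)}

theorem meas_pairG (hR : MeasurableSet {x : Ω × Ω | R x.1 x.2}) {k : ℕ} (i j : Fin k) :
    MeasurableSet {x : Fin k → Ω | R (x i) (x j)} := by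
  have h : Measurable fun x : Fin k → Ω => (x i, x j) :=
    (measurable_pi_apply i).prodMk (measurable_pi_apply j)
  exact h hR

theorem meas_confG (hR : MeasurableSet {x : Ω × Ω | R x.1 x.2}) (k : ℕ) :
    MeasurableSet {x : Fin k → Ω | ∀ i j, i < j → ¬ R (x i) (x j)} := by
  have h : {x : Fin k → Ω | ∀ i j, i < j → ¬ R (x i) (x j)} =
      ⋂ i, ⋂ j, ⋂ _ : i < j, {x : Fin k → Ω | R (x i) (x j)}ᶜ := by
    ext x
    simp
  rw [h]
  exact MeasurableSet.iInter fun i => MeasurableSet.iInter fun j => MeasurableSet.iInter fun _ =>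
    (meas_pairG hR i j).compl

/-- The probability that the points with indices in a given set are independent. -/
theorem law_Pk [IsProbabilityMeasure μ] (hG : Geo μ R p) {k : ℕ} (s : Finset (Fin N))
    (hs : s.card = k) : (lawG μ N).real {X | Pk R s X} = confG μ R k := by
  have hf := (s.orderEmbOfFin hs).injective
  have h1 : {X : Fin N → Ω | Pk R s X} = (fun X i => X (s.orderEmbOfFin hs i)) ⁻¹'
      {x : Fin k → Ω | ∀ i j, i < j → ¬ R (x i) (x j)} := by
    ext X
    simp only [Set.mem_ofPred_eq, Set.mem_preimage]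
    constructor
    · intro h i j hij
      exact h _ (s.orderEmbOfFin_mem hs i) _ (s.orderEmbOfFin_mem hs j)
        fun he => hij.ne (hf he)
    · intro h i hi j hj hij
      have hr := s.range_orderEmbOfFin hs
      obtain ⟨a, rfl⟩ : i ∈ Set.range (s.orderEmbOfFin hs) := by rw [hr]; exact hi
      obtain ⟨b, rfl⟩ : j ∈ Set.range (s.orderEmbOfFin hs) := by rw [hr]; exact hj
      have hab : a ≠ b := fun h => hij (by rw [h])
      rcases lt_or_gt_of_ne hab with h2 | h2
      · exact h a b h2
      · intro h3
        exact h b a h2 (hG.symm _ _ h3)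
  have h2 : Measurable (fun (X : Fin N → Ω) (i : Fin k) => X (s.orderEmbOfFin hs i)) :=
    measurable_pi_lambda _ fun i => measurable_pi_apply _
  rw [h1, ← map_measureReal_apply h2 (meas_confG hG.meas k), map_inj hf]
  rfl

/-- The union bound. -/
theorem law_best_le [IsProbabilityMeasure μ] (hG : Geo μ R p) (k : ℕ) :
    (lawG μ N).real {X | k ≤ best R X} ≤ N.choose k * confG μ R k := by
  classical
  have h1 : {X : Fin N → Ω | k ≤ best R X} ⊆
      ⋃ s ∈ (univ : Finset (Fin N)).powersetCard k, {X | Pk R s X} := by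
    intro X hX
    obtain ⟨s, hs, hp⟩ := le_best_iff.1 hX
    exact Set.mem_biUnion (Finset.mem_powersetCard.2 ⟨Finset.subset_univ s, hs⟩) hp
  refine (measureReal_mono h1 (measure_ne_top _ _)).trans ?_
  refine (measureReal_biUnion_finset_le _ _).trans ?_
  rw [Finset.sum_congr rfl fun s hs => law_Pk hG s (Finset.mem_powersetCard.1 hs).2,
    Finset.sum_const, Finset.card_powersetCard, Finset.card_univ, Fintype.card_fin,
    nsmul_eq_mul]

/-! ### The partition function -/

open scoped Classical in
/-- The weight of a pair. -/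
noncomputable def farG (R : Ω → Ω → Prop) (x y : Ω) : ℝ≥0∞ := if R x y then 0 else 1

theorem farG_meas (hG : Geo μ R p) : Measurable (Function.uncurry (farG R)) := by
  classical
  exact Measurable.ite hG.meas measurable_const measurable_const

theorem farG_adm (hG : Geo μ R p) : Adm (farG R) where
  meas := farG_meas hG
  symm x y := by
    unfold farG
    by_cases h : R x y
    · rw [if_pos h, if_pos (hG.symm _ _ h)]
    · rw [if_neg h, if_neg fun h' => h (hG.symm _ _ h')]
  le_one x y := by
    unfold farG
    split_ifs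
    · exact zero_le_one
    · exact le_rfl

open scoped Classical in
theorem Wk_farG (k : ℕ) (x : Fin k → Ω) :
    Pool.Agent.N364.HG.Wk (farG R) k x = if ∀ i j, i < j → ¬ R (x i) (x j) then 1 else 0 := by
  induction k with
  | zero =>
    rw [if_pos fun i => i.elim0]
    rfl
  | succ k ih =>
    show (∏ j : Fin k, farG R (x 0) (x j.succ)) *
      Pool.Agent.N364.HG.Wk (farG R) k (fun j => x j.succ) = _
    rw [ih]
    by_cases h : ∀ i j, i < j → ¬ R (x i) (x j)
    · rw [if_pos h, if_pos fun i j hij => h _ _ (Fin.succ_lt_succ_iff.2 hij), mul_one]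
      refine Finset.prod_eq_one fun j _ => ?_
      unfold farG
      rw [if_neg (h 0 j.succ (Fin.succ_pos j))]
    · rw [if_neg h]
      by_cases h2 : ∀ i j : Fin k, i < j → ¬ R (x i.succ) (x j.succ)
      · rw [if_pos h2, mul_one]
        have h3 : ∃ j : Fin k, R (x 0) (x j.succ) := by
          by_contra hcon
          push Not at hcon
          refine h fun i j hij => ?_
          induction i using Fin.cases with
          | zero =>
            induction j using Fin.cases with
            | zero => exact absurd hij (lt_irrefl _)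
            | succ j => exact hcon j
          | succ i =>
            induction j using Fin.cases with
            | zero => exact absurd hij (Fin.not_lt_zero _)
            | succ j => exact h2 i j (Fin.succ_lt_succ_iff.1 hij)
        obtain ⟨j, hj⟩ := h3
        refine Finset.prod_eq_zero (Finset.mem_univ j) ?_
        unfold farG
        rw [if_pos hj]
      · rw [if_neg h2, mul_zero]

theorem confG_eq [IsProbabilityMeasure μ] (hG : Geo μ R p) (k : ℕ) :
    A μ (farG R) k (fun _ => 1) = ENNReal.ofReal (confG μ R k) := by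
  classical
  rw [Pool.Agent.N364.HG.A_eq (farG_meas hG) k _ measurable_const]
  have h1 : ∀ x : Fin k → Ω, (∏ _i : Fin k, (1 : ℝ≥0∞)) * Pool.Agent.N364.HG.Wk (farG R) k x =
      ({x | ∀ i j, i < j → ¬ R (x i) (x j)} : Set (Fin k → Ω)).indicator 1 x := by
    intro x
    rw [Finset.prod_const_one, one_mul, Wk_farG]
    rw [Set.indicator_apply]
    rfl
  simp only [h1]
  rw [lintegral_indicator_one (meas_confG hG.meas k)]
  unfold confG
  rw [measureReal_def, ENNReal.ofReal_toReal (measure_ne_top _ _)]
  rfl

theorem confG_nonneg (k : ℕ) : 0 ≤ confG μ R k := measureReal_nonneg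

theorem confG_le_one [IsProbabilityMeasure μ] (k : ℕ) : confG μ R k ≤ 1 := measureReal_le_one

/-- the partition function -/
noncomputable def ZG (μ : Measure Ω) (R : Ω → Ω → Prop) (lam : ℝ) : ℝ :=
  ∑' k : ℕ, lam ^ k / k.factorial * confG μ R k

theorem summable_ZG [IsProbabilityMeasure μ] (lam : ℝ) (h : 0 ≤ lam) :
    Summable fun k : ℕ => lam ^ k / k.factorial * confG μ R k := by
  refine Summable.of_nonneg_of_le (fun k => ?_) (fun k => ?_) (Real.summable_pow_div_factorial lam)
  · exact mul_nonneg (by positivity) (confG_nonneg k)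
  · exact mul_le_of_le_one_right (by positivity) (confG_le_one k)

theorem ZG_const [IsProbabilityMeasure μ] (hG : Geo μ R p) (lam : ℝ) (h : 0 ≤ lam) :
    Z μ (farG R) (fun _ => ENNReal.ofReal lam) = ENNReal.ofReal (ZG μ R lam) := by
  unfold Z ZG
  rw [ENNReal.ofReal_tsum_of_nonneg (fun k => mul_nonneg (by positivity) (confG_nonneg k))
    (summable_ZG lam h)]
  refine tsum_congr fun k => ?_
  have h1 := A_smul (μ := μ) (farG_adm hG) (ENNReal.ofReal lam) k
    (φ := fun _ => 1) measurable_const
  simp only [mul_one] at h1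
  rw [h1, confG_eq hG, ← ENNReal.ofReal_pow h, ← ENNReal.ofReal_mul (by positivity),
    ← ENNReal.ofReal_natCast, ← ENNReal.ofReal_div_of_pos (by exact_mod_cast k.factorial_pos)]
  congr 1
  ring

theorem ZG_ge_one [IsProbabilityMeasure μ] (hG : Geo μ R p) (lam : ℝ) (h : 0 ≤ lam) :
    1 ≤ ZG μ R lam := by
  have h1 := one_le_Z (μ := μ) (F := farG R) (fun _ => ENNReal.ofReal lam)
  rw [ZG_const hG lam h, ENNReal.one_le_ofReal] at h1
  exact h1

/-- The upper bound with the partition function. -/
theorem law_best_le_Z [IsProbabilityMeasure μ] (hG : Geo μ R p) (lam : ℝ) (hlam : 0 < lam) (k : ℕ) :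
    (lawG μ N).real {X | k ≤ best R X} ≤ (N / lam) ^ k * ZG μ R lam := by
  refine (law_best_le hG k).trans ?_
  have h1 : lam ^ k / k.factorial * confG μ R k ≤ ZG μ R lam := by
    unfold ZG
    exact (summable_ZG lam hlam.le).le_tsum k fun k _ => mul_nonneg (by positivity) (confG_nonneg k)
  have h2 : (N.choose k : ℝ) ≤ N ^ k / k.factorial := Nat.choose_le_pow_div k N
  have hk : (0 : ℝ) < k.factorial := by exact_mod_cast k.factorial_pos
  calc (N.choose k : ℝ) * confG μ R k ≤ N ^ k / k.factorial * confG μ R k :=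
        mul_le_mul_of_nonneg_right h2 (confG_nonneg k)
    _ = (N / lam) ^ k * (lam ^ k / k.factorial * confG μ R k) := by
        rw [div_pow]
        field_simp
    _ ≤ _ := mul_le_mul_of_nonneg_left h1 (by positivity)

theorem mul_farG (T : Set Ω) (c : ℝ≥0∞) (u : Ω) :
    (fun y => T.indicator (fun _ => c) y * farG R u y) =
      (T \ {y | R u y}).indicator fun _ => c := by
  classical
  funext y
  unfold farG
  by_cases hT : y ∈ T <;> by_cases hR : R u y <;> simp [Set.indicator, hT, hR]

/-- **The upper bound for the partition function.** -/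
theorem up_gen [IsProbabilityMeasure μ] (hG : Geo μ R p)
    (hcells : ∀ m : ℕ, 1 ≤ m → ∃ Q : Fin m → Set Ω, (∀ i, MeasurableSet (Q i)) ∧ (⋃ i, Q i) = univ ∧
      ∀ i, μ.real (Q i) ≤ 1 / m) {κ : ℝ} (hκ : 0 ≤ κ)
    (hsup : ∀ K : Set Ω, MeasurableSet K →
      p * (μ.real K ^ 2 - κ * μ.real K) ≤ ∫ x in K, μ.real (K ∩ {y | R x y}) ∂μ)
    {s : ℝ} (hs : 0 < s) :
    p * Real.log (ZG μ R (s * Real.exp s / p)) ≤ s + s ^ 2 / 2 + κ * (s * Real.exp s) := by
  have hp := hG.pos
  set lam := s * Real.exp s / p with hlamd
  have hlam : 0 < lam := by positivity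
  have hls : lam * p = s * Real.exp s := by rw [hlamd]; field_simp
  have hF := farG_adm hG
  set c : ℝ≥0∞ := ENNReal.ofReal lam with hc
  set z : Set Ω → ℝ := fun K => (Z μ (farG R) (K.indicator fun _ => c)).toReal with hz
  have hnear : ∀ u, MeasurableSet {y | R u y} := fun u => by
    have : Measurable fun y : Ω => (u, y) := measurable_const.prodMk measurable_id
    exact this hG.meas
  have hle : ∀ K : Set Ω, MeasurableSet K →
      Z μ (farG R) (K.indicator fun _ => c) ≤ ENNReal.ofReal (Real.exp (lam * μ.real K)) := by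
    intro K hK
    refine Z_le_exp hF _ _ (by positivity) ?_
    rw [lintegral_indicator_const hK, ENNReal.ofReal_mul hlam.le, measureReal_def,
      ENNReal.ofReal_toReal (measure_ne_top _ _)]
  have hfin : ∀ K : Set Ω, MeasurableSet K → Z μ (farG R) (K.indicator fun _ => c) ≠ ∞ :=
    fun K hK => ((hle K hK).trans_lt ENNReal.ofReal_lt_top).ne
  have hmono : ∀ K K' : Set Ω, K' ⊆ K →
      Z μ (farG R) (K'.indicator fun _ => c) ≤ Z μ (farG R) (K.indicator fun _ => c) :=
    fun K K' h => Z_mono fun y => Set.indicator_le_indicator_of_subset h (fun _ => by simp) y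
  have key := cont2 Ω μ (fun u => {y | R u y}) hnear (fun K hK => by
      have hm : MeasurableSet {x : Ω × Ω | x.2 ∈ K ∧ R x.1 x.2} := (measurable_snd hK).inter hG.meas
      exact (measurable_measure_prodMk_left hm).ennreal_toReal) hcells p
    κ lam s hp hκ hs hls hsup z ?_ ?_ ?_ ?_
  · have h1 : z univ = ZG μ R lam := by
      simp only [hz, Set.indicator_univ]
      rw [hc, ZG_const hG lam hlam.le, ENNReal.toReal_ofReal (by linarith [ZG_ge_one hG lam hlam.le])]
    rw [h1, hls] at key
    have h2 := Real.log_le_log (by linarith [ZG_ge_one hG lam hlam.le]) key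
    rw [Real.log_exp] at h2
    have h3 := mul_le_mul_of_nonneg_left h2 hp.le
    refine h3.trans (le_of_eq ?_)
    field_simp
  · intro K hK
    have := ENNReal.toReal_mono ENNReal.ofReal_ne_top (hle K hK)
    rwa [ENNReal.toReal_ofReal (Real.exp_pos _).le] at this
  · intro K hK
    exact ENNReal.toReal_pos (lt_of_lt_of_le one_pos (one_le_Z _)).ne' (hfin K hK)
  · intro K K' hK _ h
    exact ENNReal.toReal_mono (hfin K hK) (hmono K K' h)
  · intro K hK B hBK hB b hb
    have h1 := Z_add_le (μ := μ) hF (measurable_const.indicator (hK.diff hB) :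
      Measurable ((K \ B).indicator fun _ => c)) (measurable_const.indicator hB :
      Measurable (B.indicator fun _ => c))
    have h2 : ∀ y, (K \ B).indicator (fun _ => c) y + B.indicator (fun _ => c) y =
        K.indicator (fun _ => c) y := by
      intro y
      by_cases hyB : y ∈ B
      · simp [hyB, hBK hyB]
      · by_cases hyK : y ∈ K <;> simp [hyB, hyK]
    simp only [h2] at h1
    have h3 : ∫⁻ u, B.indicator (fun _ => c) u *
        Z μ (farG R) (fun y => K.indicator (fun _ => c) y * farG R u y) ∂μ ≤
        ENNReal.ofReal (lam * μ.real B * b) := by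
      by_cases hBe : B = ∅
      · rw [hBe]; simp
      · obtain ⟨u₀, hu₀⟩ := Set.nonempty_iff_ne_empty.2 hBe
        have hb0 : 0 ≤ b := ENNReal.toReal_nonneg.trans (hb u₀ hu₀)
        calc ∫⁻ u, B.indicator (fun _ => c) u *
              Z μ (farG R) (fun y => K.indicator (fun _ => c) y * farG R u y) ∂μ
            ≤ ∫⁻ u, B.indicator (fun _ => c) u * ENNReal.ofReal b ∂μ := by
              refine lintegral_mono fun u => ?_
              by_cases hu : u ∈ B
              · refine mul_le_mul' le_rfl ?_
                rw [mul_farG]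
                have h4 := hb u hu
                rw [← ENNReal.ofReal_toReal (hfin (K \ {y | R u y}) (hK.diff (hnear u)))]
                exact ENNReal.ofReal_le_ofReal h4
              · simp [hu]
          _ = ENNReal.ofReal (lam * μ.real B * b) := by
              rw [lintegral_mul_const _ (measurable_const.indicator hB),
                lintegral_indicator_const hB, ENNReal.ofReal_mul (by positivity),
                ENNReal.ofReal_mul hlam.le, measureReal_def,
                ENNReal.ofReal_toReal (measure_ne_top _ _)]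
    have h5 := h1.trans (add_le_add le_rfl h3)
    have h6 := ENNReal.toReal_mono (ENNReal.add_ne_top.2 ⟨hfin _ (hK.diff hB),
      ENNReal.ofReal_ne_top⟩) h5
    rw [ENNReal.toReal_add (hfin _ (hK.diff hB)) ENNReal.ofReal_ne_top] at h6
    have h7 : (ENNReal.ofReal (lam * μ.real B * b)).toReal = lam * μ.real B * b := by
      by_cases hBe : B = ∅
      · rw [hBe]; simp
      · obtain ⟨u₀, hu₀⟩ := Set.nonempty_iff_ne_empty.2 hBe
        have hb0 : 0 ≤ b := ENNReal.toReal_nonneg.trans (hb u₀ hu₀)
        exact ENNReal.toReal_ofReal (by positivity)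
    rw [h7] at h6
    exact h6

end Pool.Agent.U279.KR
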