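import Pool.Agent.U279.KR.GenUp

/-!
# Independent sets among random points of a probability space: the upper bound, asymptotics
-/

set_option autoImplicit false

namespace Pool.Agent.U279.KR

open MeasureTheory Set Finset ProbabilityTheory
open scoped ENNReal NNReal
open Pool.Agent.N549.HG

variable {Ω : Type} [MeasurableSpace Ω] {μ : Measure Ω} {R : Ω → Ω → Prop} {p : ℝ} {N n : ℕ}

/-- The space is covered by `m` sets of measure at most `1/m`, for all `m`. -/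
def Cells (μ : Measure Ω) : Prop :=
  ∀ m : ℕ, 1 ≤ m → ∃ Q : Fin m → Set Ω, (∀ i, MeasurableSet (Q i)) ∧ (⋃ i, Q i) = univ ∧
      ∀ i, μ.real (Q i) ≤ 1 / m

/-- Supersaturation with constant `κ`. -/
def Sat (μ : Measure Ω) (R : Ω → Ω → Prop) (p κ : ℝ) : Prop :=
  ∀ K : Set Ω, MeasurableSet K →
      p * (μ.real K ^ 2 - κ * μ.real K) ≤ ∫ x in K, μ.real (K ∩ {y | R x y}) ∂μ

/-- The exponent `1/20`. -/
noncomputable def y0 : ℝ := 1 / 20

theorem y0_pos : 0 < y0 := by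
  unfold y0
  norm_num

theorem y0_lt : y0 < 1 / 6 := by
  unfold y0
  norm_num

theorem kap_mul (n : ℕ) {σ : ℝ} (h : σ ≤ y0) :
    Real.exp (-(n / 20 : ℝ)) * Real.exp (σ * n) ≤ 1 := by
  rw [← Real.exp_add, Real.exp_le_one_iff]
  have h2 : (0 : ℝ) ≤ n := Nat.cast_nonneg n
  have h3 : σ ≤ 1 / 20 := h
  nlinarith

/-- The error term. -/
noncomputable def er (n : ℕ) (σ : ℝ) : ℝ :=
  (1 + σ * n) + (1 + σ * n) ^ 2 / 2 + 1

/-- The partition function at the activity `exp (σ n) / p`. -/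
theorem log_Z_le [IsProbabilityMeasure μ] (hG : Geo μ R p) (hcells : Cells μ)
    (hsup : Sat μ R p (Real.exp (-(n / 20 : ℝ)))) {σ : ℝ} (h0 : 0 ≤ σ) (h1 : σ ≤ y0) :
    p * Real.log (ZG μ R (Real.exp (σ * n) / p)) ≤ er n σ := by
  obtain ⟨s, hs, he⟩ := exists_W (Real.exp (σ * n)) (Real.exp_pos _)
  have h2 := up_gen hG hcells (Real.exp_pos _).le hsup hs
  rw [he] at h2
  have hσ : 0 ≤ σ * n := mul_nonneg h0 (Nat.cast_nonneg n)
  have hs1 : s ≤ 1 + σ * n := by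
    by_contra hcon
    push Not at hcon
    have h4 : Real.exp (σ * n) < s * Real.exp s := by
      calc Real.exp (σ * n) = 1 * Real.exp (σ * n) := (one_mul _).symm
        _ < s * Real.exp s :=
            mul_lt_mul'' (by linarith) (Real.exp_lt_exp.2 (by linarith)) zero_le_one
              (Real.exp_pos _).le
    linarith
  have h5 := kap_mul n h1
  have h6 : s ^ 2 ≤ (1 + σ * n) ^ 2 := pow_le_pow_left₀ hs.le hs1 2
  unfold er
  linarith

/-- The upper bound for the largest independent set. -/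
theorem up [IsProbabilityMeasure μ] (hG : Geo μ R p) (hcells : Cells μ)
    (hsup : Sat μ R p (Real.exp (-(n / 20 : ℝ)))) {x σ κ : ℝ} (h0 : 0 ≤ σ) (h1 : σ ≤ y0)
    (hx : x ≤ σ) (hN : N * p ≤ Real.exp (x * n)) :
    (lawG μ N).real {X | κ * n ≤ best R X * p} ≤
      Real.exp ((er n σ - (σ - x) * κ * n ^ 2) / p) := by
  have hD := hG.pos
  have h2 : {X : Fin N → Ω | κ * n ≤ best R X * p} =
      {X | ⌈κ * n / p⌉₊ ≤ best R X} := by
    ext X
    simp only [Set.mem_ofPred_eq]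
    rw [Nat.ceil_le, div_le_iff₀ hD]
  rw [h2]
  set k := ⌈κ * n / p⌉₊ with hk
  have hlam : 0 < Real.exp (σ * n) / p := by positivity
  refine (law_best_le_Z hG _ hlam k).trans ?_
  have h3 : (N : ℝ) / (Real.exp (σ * n) / p) ≤ Real.exp (-((σ - x) * n)) := by
    have h3a : (N : ℝ) / (Real.exp (σ * n) / p) =
        N * p / Real.exp (σ * n) := by
      field_simp
    have h3b : Real.exp (-((σ - x) * n)) = Real.exp (x * n) / Real.exp (σ * n) := by
      rw [← Real.exp_sub]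
      congr 1
      ring
    rw [h3a, h3b]
    exact div_le_div_of_nonneg_right hN (Real.exp_pos _).le
  have hZ := ZG_ge_one hG _ hlam.le
  have h4 : ZG μ R (Real.exp (σ * n) / p) ≤ Real.exp (er n σ / p) := by
    rw [← Real.log_le_iff_le_exp (by linarith), le_div_iff₀ hD, mul_comm]
    exact log_Z_le hG hcells hsup h0 h1
  have h3c := pow_le_pow_left₀ (by positivity) h3 k
  rw [← Real.exp_nat_mul] at h3c
  refine (mul_le_mul h3c h4 (by linarith) (Real.exp_pos _).le).trans ?_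
  rw [← Real.exp_add, Real.exp_le_exp]
  have h5 : κ * n / p ≤ k := Nat.le_ceil _
  have h6 : 0 ≤ (σ - x) * n := mul_nonneg (by linarith) (Nat.cast_nonneg n)
  have h7 := mul_le_mul_of_nonneg_left h5 h6
  have h8 : (er n σ - (σ - x) * κ * n ^ 2) / p =
      er n σ / p - (σ - x) * n * (κ * n / p) := by
    ring
  rw [h8]
  linarith

/-- The constant of the upper bound. -/
noncomputable def upc (x : ℝ) : ℝ := if x ≤ y0 / 2 then 2 * x else y0 ^ 2 / (2 * (y0 - x))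

theorem upc_nonneg {x : ℝ} (h0 : 0 ≤ x) (h1 : x < y0) : 0 ≤ upc x := by
  unfold upc
  split_ifs
  · linarith
  · have : 0 < y0 - x := by linarith
    positivity

theorem gap {ε : ℝ} (hε : 0 < ε) : ∃ γ : ℝ, 0 < γ ∧ ∀ x : ℝ, 0 ≤ x → x ≤ y0 - ε →
    ∃ σ : ℝ, 0 ≤ σ ∧ σ ≤ y0 ∧ x ≤ σ ∧ γ ≤ (σ - x) * (upc x + ε) - σ ^ 2 / 2 := by
  have hy := y0_pos
  set δ := min ε (y0 / 2) with hδ
  have hδ0 : 0 < δ := lt_min hε (by linarith)
  have hδ1 : δ ≤ ε := min_le_left _ _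
  have hδ2 : δ ≤ y0 / 2 := min_le_right _ _
  refine ⟨min (ε * δ / 2) (min (ε * y0 / 4) (ε ^ 2)), by positivity, fun x h0 h1 => ?_⟩
  by_cases hx : x ≤ y0 / 2
  · have hu : upc x = 2 * x := by unfold upc; rw [if_pos hx]
    by_cases hx' : x ≤ y0 / 2 - δ / 2
    · refine ⟨2 * x + δ, by positivity, by linarith, by linarith, ?_⟩
      refine (min_le_left _ _).trans ?_
      rw [hu]
      nlinarith [mul_nonneg hε.le h0, mul_nonneg hδ0.le (by linarith : (0 : ℝ) ≤ ε - δ)]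
    · push Not at hx'
      refine ⟨y0, hy.le, le_rfl, by linarith, ?_⟩
      refine ((min_le_right _ _).trans (min_le_left _ _)).trans ?_
      rw [hu]
      have h2 : 0 ≤ y0 / 2 - x := by linarith
      have h3 : y0 / 2 - x ≤ δ / 2 := by linarith
      have h4 : (y0 / 2 - x) ^ 2 ≤ (δ / 2) ^ 2 := pow_le_pow_left₀ h2 h3 2
      have h5 : δ ^ 2 ≤ ε * (y0 / 2) := by
        rw [sq]
        exact mul_le_mul hδ1 hδ2 hδ0.le hε.le
      have h6 : (y0 - x) * (2 * x + ε) - y0 ^ 2 / 2 =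
          -2 * (y0 / 2 - x) ^ 2 + ε * (y0 / 2) + ε * (y0 / 2 - x) := by ring
      rw [h6]
      nlinarith [mul_nonneg hε.le h2]
  · have hu : upc x = y0 ^ 2 / (2 * (y0 - x)) := by unfold upc; rw [if_neg hx]
    refine ⟨y0, hy.le, le_rfl, by linarith, ?_⟩
    refine ((min_le_right _ _).trans (min_le_right _ _)).trans ?_
    rw [hu]
    have h2 : 0 < y0 - x := by linarith
    have h3 : (y0 - x) * (y0 ^ 2 / (2 * (y0 - x)) + ε) - y0 ^ 2 / 2 = ε * (y0 - x) := by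
      field_simp
      ring
    rw [h3, sq]
    exact mul_le_mul_of_nonneg_left (by linarith) hε.le

theorem er_le (hn : 1 ≤ n) {σ : ℝ} (h0 : 0 ≤ σ) (h1 : σ ≤ y0) :
    er n σ ≤ σ ^ 2 / 2 * n ^ 2 + 9 * n := by
  have hnR : (1 : ℝ) ≤ n := by exact_mod_cast hn
  unfold er
  have := y0_lt
  have h2 : σ * n ≤ 1 / 6 * n := mul_le_mul_of_nonneg_right (by linarith) (by linarith)
  nlinarith

/-- **The upper bound, asymptotically.** -/
theorem up_evG {ε : ℝ} (hε : 0 < ε) : ∃ n₀ : ℕ, ∀ n : ℕ, n₀ ≤ n →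
    ∀ (Ω : Type) [MeasurableSpace Ω] (μ : Measure Ω) [IsProbabilityMeasure μ]
      (R : Ω → Ω → Prop) (p : ℝ), Geo μ R p → p ≤ 1 → Cells μ →
      Sat μ R p (Real.exp (-(n / 20 : ℝ))) →
    ∀ (x : ℝ) (N : ℕ), 0 ≤ x → x ≤ y0 - ε → N * p ≤ Real.exp (x * n) →
    (lawG μ N).real {X | (upc x + ε) * n ≤ best R X * p} ≤ ε := by
  obtain ⟨γ, hγ, hg⟩ := gap hε
  obtain ⟨n₀, hn₀⟩ := exists_nat_ge (max (18 / γ) (2 / (γ * ε)))
  refine ⟨max n₀ 1, fun n hn Ω _ μ _ R p hG hD1 hc hS x N h0 h1 hN => ?_⟩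
  have hn1 : 1 ≤ n := (le_max_right _ _).trans hn
  have hnR : (1 : ℝ) ≤ n := by exact_mod_cast hn1
  have hnn : (n₀ : ℝ) ≤ n := by exact_mod_cast (le_max_left _ _).trans hn
  have hD := hG.pos
  obtain ⟨σ, s0, s1, s2, s3⟩ := hg x h0 h1
  refine (up hG hc hS s0 s1 s2 hN).trans ?_
  have e1 := er_le hn1 s0 s1
  have e2 : er n σ - (σ - x) * (upc x + ε) * n ^ 2 ≤ -(γ / 2 * n ^ 2) := by
    have h2 : 18 / γ ≤ n := (le_max_left _ _).trans (hn₀.trans hnn)
    rw [div_le_iff₀ hγ] at h2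
    have h3 : γ * n ^ 2 ≤ ((σ - x) * (upc x + ε) - σ ^ 2 / 2) * n ^ 2 :=
      mul_le_mul_of_nonneg_right s3 (sq_nonneg _)
    nlinarith
  have e3 : (er n σ - (σ - x) * (upc x + ε) * n ^ 2) / p ≤ -(γ / 2 * n ^ 2) := by
    rw [div_le_iff₀ hD]
    refine e2.trans ?_
    have : 0 ≤ γ / 2 * (n : ℝ) ^ 2 := by positivity
    nlinarith
  refine (Real.exp_le_exp.2 e3).trans ?_
  have h2 : 2 / (γ * ε) ≤ n := (le_max_right _ _).trans (hn₀.trans hnn)
  rw [div_le_iff₀ (by positivity)] at h2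
  rw [Real.exp_neg]
  have h3 : 1 / ε ≤ γ / 2 * n ^ 2 := by
    rw [div_le_iff₀ hε]
    nlinarith
  have h4 : 1 / ε ≤ Real.exp (γ / 2 * n ^ 2) := by
    have := Real.add_one_le_exp (γ / 2 * (n : ℝ) ^ 2)
    linarith
  calc (Real.exp (γ / 2 * n ^ 2))⁻¹ ≤ (1 / ε)⁻¹ := inv_anti₀ (by positivity) h4
    _ = ε := by rw [one_div, inv_inv]

end Pool.Agent.U279.KR
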