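import Pool.Agent.U279.KR.Net

set_option autoImplicit false

/-! Exponents of kissing configurations in random sets. -/

open MeasureTheory Metric Set Filter Topology
open scoped ENNReal RealInnerProductSpace

namespace Pool.Agent.U279.KR

open Pool.Agent.N303.SH
open Pool.Agent.H818R2 (sphMax kissing codeRate IsSphCode sph_nonempty sph_bdd le_sphMax
  codeRate_le codeRate_nonneg)

variable {N : ℕ}

/-- `log (2/√3)` -/
noncomputable def Ln : ℝ := Real.log (2 / √3)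

theorem Ln_eq : Real.log (√(3 / 4)) = -Ln := by
  unfold Ln
  rw [← Real.log_inv, inv_div, Real.sqrt_div (by norm_num)]
  congr 2
  rw [show (4 : ℝ) = 2 ^ 2 by norm_num, Real.sqrt_sq (by norm_num)]

theorem Ln_pos : 0 < Ln := by
  have h := Ln_eq
  rw [Real.log_sqrt (by norm_num)] at h
  have : Real.log (3 / 4) < 0 := Real.log_neg (by norm_num) (by norm_num)
  linarith

theorem log_pc_ge {ε : ℝ} (hε : 0 < ε) : ∀ᶠ d : ℕ in atTop,
    -(Real.log (pc (d + 1) (1 / 2))) ≤ (Ln + ε) * (d + 3) := by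
  have he1 : Real.exp (-ε) < 1 := (Real.exp_lt_exp.2 (by linarith)).trans_eq Real.exp_zero
  have he0 := Real.exp_pos (-ε)
  set δ : ℝ := 3 / 8 * (1 - Real.exp (-ε)) with hδ
  have hδ0 : 0 < δ := by rw [hδ]; nlinarith
  have hδ1 : δ ≤ 3 / 8 := by rw [hδ]; nlinarith
  have hδ2 : 3 / 4 * Real.exp (-ε) ≤ 1 - (1 / 2 + δ) ^ 2 := by
    have : 2 * δ = 3 / 4 - 3 / 4 * Real.exp (-ε) := by rw [hδ]; ring
    nlinarith
  have h1 : ∀ᶠ d : ℕ in atTop, -Real.log (δ / 2) / (ε / 2) ≤ (d : ℝ) :=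
    tendsto_natCast_atTop_atTop.eventually_ge_atTop _
  filter_upwards [h1] with d h1
  rw [div_le_iff₀ (by positivity)] at h1
  have hp := pc_ge d (s := 1 / 2) (δ := δ) (by norm_num) hδ0 (by linarith)
  have h3 : δ / 2 * √(3 / 4 * Real.exp (-ε)) ^ d ≤ pc (d + 1) (1 / 2) := by
    refine le_trans ?_ hp
    gcongr
  have h4 := Real.log_le_log (by positivity) h3
  rw [Real.log_mul (by positivity) (by positivity), Real.log_pow, Real.log_sqrt (by positivity),
    Real.log_mul (by norm_num) he0.ne', Real.log_exp] at h4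
  have h5 := Ln_eq
  rw [Real.log_sqrt (by norm_num)] at h5
  have h6 : (d : ℝ) * ((Real.log (3 / 4) + -ε) / 2) = -(d * Ln) - d * (ε / 2) := by
    have : Real.log (3 / 4) = -(2 * Ln) := by linarith
    rw [this]
    ring
  rw [h6] at h4
  have h7 := Ln_pos
  nlinarith

theorem log_pc_le {ε : ℝ} (hε : 0 < ε) : ∀ᶠ d : ℕ in atTop,
    (Ln - ε) * (d + 3) ≤ -(Real.log (pc (d + 1) (1 / 2))) := by
  have h1 : ∀ᶠ d : ℕ in atTop, (ε / 2 + 2 / ε + 3 * Ln) / (ε / 2) ≤ (d : ℝ) :=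
    tendsto_natCast_atTop_atTop.eventually_ge_atTop _
  filter_upwards [h1] with d h1
  rw [div_le_iff₀ (by positivity)] at h1
  have hd0 : (0 : ℝ) ≤ d := Nat.cast_nonneg d
  have hp := pc_le d (t := 1 / 2) (by norm_num)
  have hpos := pc_pos (c := d + 1) (by omega) (s := 1 / 2) (by norm_num) (by norm_num)
  have h2 : (1 : ℝ) - (1 / 2) ^ 2 = 3 / 4 := by norm_num
  rw [h2] at hp
  have h4 := Real.log_le_log hpos hp
  rw [Real.log_mul (by positivity) (by positivity), Real.log_pow, Ln_eq] at h4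
  have h5 : Real.log ((d : ℝ) + 1) ≤ ε / 2 * (d + 1) + 2 / ε := by
    have e1 : Real.log ((d : ℝ) + 1) = 2 * Real.log (√((d : ℝ) + 1)) := by
      rw [Real.log_sqrt (by positivity)]
      ring
    have hs : 0 < √((d : ℝ) + 1) := Real.sqrt_pos.2 (by positivity)
    have e2 := Real.log_le_sub_one_of_pos hs
    have e3 : √((d : ℝ) + 1) ^ 2 = d + 1 := Real.sq_sqrt (by positivity)
    set t := √((d : ℝ) + 1) with ht
    have e4 : 2 * t ≤ ε / 2 * t ^ 2 + 2 / ε := by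
      have e5 : ε / 2 * t ^ 2 + 2 / ε - 2 * t = (ε * t - 2) ^ 2 / (2 * ε) := by
        field_simp
        ring
      have e6 : 0 ≤ (ε * t - 2) ^ 2 / (2 * ε) := by positivity
      linarith
    rw [e1, ← e3]
    linarith
  have h7 := Ln_pos
  nlinarith

/-- `log₂ (2/√3)` -/
noncomputable def L2 : ℝ := Real.logb 2 (2 / √3)

theorem log2_pos : 0 < Real.log 2 := Real.log_pos (by norm_num)

theorem L2_eq : L2 = Ln / Real.log 2 := rfl

theorem pn_pos {n : ℕ} (hn : 3 ≤ n) : 0 < pn n := by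
  obtain ⟨d, rfl⟩ : ∃ d, n = d + 1 + 2 := ⟨n - 3, by omega⟩
  exact pc_pos (c := d + 1) (by omega) (s := 1 / 2) (by norm_num) (by norm_num)

theorem logb_pn_le {ε : ℝ} (hε : 0 < ε) : ∀ᶠ n : ℕ in atTop,
    -(Real.logb 2 (pn n)) ≤ (L2 + ε) * n := by
  have hl := log2_pos
  obtain ⟨d₀, h⟩ := eventually_atTop.1 (log_pc_ge (show 0 < ε * Real.log 2 by positivity))
  filter_upwards [eventually_ge_atTop (d₀ + 3)] with n hn
  obtain ⟨d, rfl⟩ : ∃ d, n = d + 1 + 2 := ⟨n - 3, by omega⟩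
  have h1 := h d (by omega)
  have hpn : pn (d + 1 + 2) = pc (d + 1) (1 / 2) := rfl
  rw [hpn, L2_eq]
  unfold Real.logb
  rw [← neg_div, div_le_iff₀ hl]
  refine h1.trans (le_of_eq ?_)
  push_cast
  field_simp
  ring

theorem le_logb_pn {ε : ℝ} (hε : 0 < ε) : ∀ᶠ n : ℕ in atTop,
    (L2 - ε) * n ≤ -(Real.logb 2 (pn n)) := by
  have hl := log2_pos
  obtain ⟨d₀, h⟩ := eventually_atTop.1 (log_pc_le (show 0 < ε * Real.log 2 by positivity))
  filter_upwards [eventually_ge_atTop (d₀ + 3)] with n hn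
  obtain ⟨d, rfl⟩ : ∃ d, n = d + 1 + 2 := ⟨n - 3, by omega⟩
  have h1 := h d (by omega)
  have hpn : pn (d + 1 + 2) = pc (d + 1) (1 / 2) := rfl
  rw [hpn, L2_eq]
  unfold Real.logb
  rw [← neg_div, le_div_iff₀ hl]
  refine le_trans (le_of_eq ?_) h1
  push_cast
  field_simp
  ring

/-- The number of points. -/
noncomputable def nN (x : ℝ) (n : ℕ) : ℕ := ⌈Real.exp (x * n) / pn n⌉₊

/-- The exponent of the largest kissing configuration. -/
noncomputable def expo (n : ℕ) (X : Fin N → S n) : ℝ := Real.logb 2 (best (Rs n (1 / 2)) X) / n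

theorem nN_pos (x : ℝ) {n : ℕ} (hn : 3 ≤ n) : 0 < nN x n := by
  unfold nN
  have := pn_pos hn
  exact Nat.ceil_pos.2 (by positivity)

theorem nN_ge (x : ℝ) {n : ℕ} (hn : 3 ≤ n) : Real.exp (x * n) ≤ nN x n * pn n := by
  have hv := pn_pos hn
  have := Nat.le_ceil (Real.exp (x * n) / pn n)
  rwa [div_le_iff₀ hv] at this

theorem nN_le (x : ℝ) {n : ℕ} (hn : 3 ≤ n) : nN x n * pn n ≤ Real.exp (x * n) + pn n := by
  have hv := pn_pos hn
  have := (Nat.ceil_lt_add_one (a := Real.exp (x * n) / pn n) (by positivity)).le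
  have h2 := mul_le_mul_of_nonneg_right this hv.le
  rw [add_mul, div_mul_cancel₀ _ hv.ne', one_mul] at h2
  exact h2

theorem expo_le_rate {n : ℕ} (hn : 1 ≤ n) (hN : 0 < N) (X : Fin N → S n) :
    expo n X ≤ codeRate (Real.pi / 3) n := by
  have hn0 : (0 : ℝ) < n := by exact_mod_cast hn
  haveI : NeZero n := ⟨by omega⟩
  have h1 : (1 : ℝ) ≤ best (Rs n (1 / 2)) X := by exact_mod_cast one_le_best hN X
  have h2 : (best (Rs n (1 / 2)) X : ℝ) ≤ kissing n := by exact_mod_cast best_le_kissing X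
  unfold expo codeRate
  rw [div_le_div_iff_of_pos_right hn0]
  exact Real.logb_le_logb_of_le (by norm_num) (by positivity) h2

/-- The upper bound for the exponent. -/
theorem expo_up {x ε : ℝ} (hε : 0 < ε) : ∀ᶠ n : ℕ in atTop,
    (lawG (mu n) (nN x n)).real {X | L2 + max 0 (x - y0) / Real.log 2 + ε < expo n X} ≤ ε := by
  have hl := log2_pos
  set x1 := max x y0 with hx1
  set δ := min ε (ε / 2 * Real.log 2) with hδ
  have hδ0 : 0 < δ := by positivity
  have hδε : δ ≤ ε := min_le_left _ _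
  have hδl : δ ≤ ε / 2 * Real.log 2 := min_le_right _ _
  obtain ⟨n₁, h₁⟩ := eventually_atTop.1 (up_bigG (x := x1) (le_max_right _ _) hδ0)
  obtain ⟨c₀, h₃⟩ := sup60
  obtain ⟨d₁, hd₁⟩ := eventually_atTop.1 pc_small
  have h2 : ∀ᶠ n : ℕ in atTop, 4 / δ ≤ (n : ℝ) := tendsto_natCast_atTop_atTop.eventually_ge_atTop _
  filter_upwards [h2, eventually_ge_atTop (n₁ + c₀ + d₁ + 3), logb_pn_le (half_pos hε)]
    with n h2 hn h4
  obtain ⟨d, rfl⟩ : ∃ d, n = d + 1 + 2 := ⟨n - 3, by omega⟩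
  have hpn : pn (d + 1 + 2) = pc (d + 1) (1 / 2) := rfl
  have hn0 : (0 : ℝ) < ((d + 1 + 2 : ℕ) : ℝ) := by positivity
  have hG := geo_sph (c := d + 1) (by omega) (s := 1 / 2) (by norm_num) (by norm_num)
  have hp := hd₁ d (by omega)
  have hp1 : pc (d + 1) (1 / 2) ≤ 1 := hp.trans (pow_le_one₀ (by norm_num) (by norm_num))
  have hS : Sat (mu (d + 1 + 2)) (Rs (d + 1 + 2) (1 / 2)) (pc (d + 1) (1 / 2))
      (Real.exp (-(((d + 1 + 2 : ℕ) : ℝ) / 20))) := by
    intro K hK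
    have h := h₃ (d + 1) (by omega) K hK
    have e1 : Real.exp (-(((d + 1 + 2 : ℕ) : ℝ) / 20)) =
        Real.exp (-(((d + 1 : ℕ) : ℝ) + 2) / 20) := by
      congr 1
      push_cast
      ring
    rw [e1]
    exact h
  have hx0 : 0 ≤ x1 * ((d + 1 + 2 : ℕ) : ℝ) := mul_nonneg (y0_pos.le.trans (le_max_right _ _)) hn0.le
  have hN : nN x (d + 1 + 2) * pc (d + 1) (1 / 2) ≤
      Real.exp ((x1 + δ / 4) * ((d + 1 + 2 : ℕ) : ℝ)) := by
    refine (nN_le x (by omega)).trans ?_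
    have e1 : Real.exp (x * ((d + 1 + 2 : ℕ) : ℝ)) ≤ Real.exp (x1 * ((d + 1 + 2 : ℕ) : ℝ)) :=
      Real.exp_le_exp.2 (mul_le_mul_of_nonneg_right (le_max_left _ _) hn0.le)
    have e2 : 1 ≤ Real.exp (x1 * ((d + 1 + 2 : ℕ) : ℝ)) := Real.one_le_exp hx0
    have e3 : 2 ≤ Real.exp (δ / 4 * ((d + 1 + 2 : ℕ) : ℝ)) := by
      rw [div_le_iff₀ hδ0] at h2
      have := Real.add_one_le_exp (δ / 4 * ((d + 1 + 2 : ℕ) : ℝ))
      linarith
    have e4 : Real.exp ((x1 + δ / 4) * ((d + 1 + 2 : ℕ) : ℝ)) =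
        Real.exp (x1 * ((d + 1 + 2 : ℕ) : ℝ)) * Real.exp (δ / 4 * ((d + 1 + 2 : ℕ) : ℝ)) := by
      rw [← Real.exp_add]
      congr 1
      ring
    rw [e4, hpn]
    nlinarith
  have h3 := h₁ (d + 1 + 2) (by omega) (S (d + 1 + 2)) (mu (d + 1 + 2)) (Rs (d + 1 + 2) (1 / 2))
    (pc (d + 1) (1 / 2)) hG hp1 (cells_sph d) hS (nN x (d + 1 + 2)) hN
  refine (measureReal_mono ?_ (measure_ne_top _ _)).trans (h3.trans hδε)
  intro X hX
  simp only [Set.mem_ofPred_eq] at hX ⊢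
  by_contra hcon
  push Not at hcon
  have hb : (1 : ℝ) ≤ best (Rs (d + 1 + 2) (1 / 2)) X := by
    exact_mod_cast one_le_best (nN_pos x (by omega)) X
  have hpp := hG.pos
  have h5 := Real.logb_le_logb_of_le (b := 2) (by norm_num) (by positivity) hcon.le
  rw [Real.logb_mul (by positivity) hpp.ne'] at h5
  have h6 : Real.logb 2 (Real.exp ((x1 - y0 + δ) * ((d + 1 + 2 : ℕ) : ℝ))) =
      (x1 - y0 + δ) * ((d + 1 + 2 : ℕ) : ℝ) / Real.log 2 := by
    unfold Real.logb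
    rw [Real.log_exp]
  rw [h6] at h5
  rw [hpn] at h4
  have h7 : max 0 (x - y0) = x1 - y0 := by
    rw [hx1, ← max_sub_sub_right, sub_self, max_comm]
  have h8 : expo (d + 1 + 2) X ≤ L2 + max 0 (x - y0) / Real.log 2 + ε := by
    unfold expo
    rw [div_le_iff₀ hn0, h7]
    have h9 : (x1 - y0 + δ) * ((d + 1 + 2 : ℕ) : ℝ) / Real.log 2 =
        (x1 - y0) / Real.log 2 * ((d + 1 + 2 : ℕ) : ℝ) +
          δ / Real.log 2 * ((d + 1 + 2 : ℕ) : ℝ) := by
      ring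
    have h10 : δ / Real.log 2 ≤ ε / 2 := by
      rw [div_le_iff₀ hl]
      exact hδl
    have h11 := mul_le_mul_of_nonneg_right h10 hn0.le
    have h12 : (L2 + (x1 - y0) / Real.log 2 + ε) * ((d + 1 + 2 : ℕ) : ℝ) =
        (L2 + ε / 2) * ((d + 1 + 2 : ℕ) : ℝ) +
          (x1 - y0) / Real.log 2 * ((d + 1 + 2 : ℕ) : ℝ) + ε / 2 * ((d + 1 + 2 : ℕ) : ℝ) := by ring
    rw [h12]
    linarith
  linarith

/-- The lower bound for the exponent. -/
theorem expo_low {x ε : ℝ} (hx : 0 < x) (hε : 0 < ε) : ∀ᶠ n : ℕ in atTop,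
    (lawG (mu n) (nN x n)).real {X | expo n X < L2 - ε} ≤ ε := by
  have hw : 0 < min x xk := lt_min hx xk_pos
  set δ := min ε (min x xk / 2) with hδ
  have hδ0 : 0 < δ := by positivity
  obtain ⟨n₂, h₂⟩ := low_evG hδ0 xk_lt
  obtain ⟨d₁, hd₁⟩ := eventually_atTop.1 pc_small
  obtain ⟨d₂, hd₂⟩ := eventually_atTop.1 (tri_ev hδ0)
  have h2 : ∀ᶠ n : ℕ in atTop, 2 / min x xk ≤ (n : ℝ) :=
    tendsto_natCast_atTop_atTop.eventually_ge_atTop _
  filter_upwards [h2, eventually_ge_atTop (n₂ + d₁ + d₂ + 3), le_logb_pn hε] with n h2 hn h4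
  obtain ⟨d, rfl⟩ : ∃ d, n = d + 1 + 2 := ⟨n - 3, by omega⟩
  have hpn : pn (d + 1 + 2) = pc (d + 1) (1 / 2) := rfl
  have hn0 : (0 : ℝ) < ((d + 1 + 2 : ℕ) : ℝ) := by positivity
  have hG := geo_sph (c := d + 1) (by omega) (s := 1 / 2) (by norm_num) (by norm_num)
  have hp := hd₁ d (by omega)
  have e2 := h₂ (d + 1 + 2) (by omega) (μ := mu (d + 1 + 2)) (R := Rs (d + 1 + 2) (1 / 2))
    hG (hd₂ d (by omega)) hp x (nN x (d + 1 + 2)) (nN_ge x (by omega))
  refine (measureReal_mono ?_ (measure_ne_top _ _)).trans (e2.trans (min_le_left _ _))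
  intro X hX
  simp only [Set.mem_ofPred_eq] at hX ⊢
  by_contra hcon
  push Not at hcon
  have hpp := hG.pos
  have h3 : 1 ≤ best (Rs (d + 1 + 2) (1 / 2)) X * pc (d + 1) (1 / 2) := by
    refine le_trans ?_ hcon
    rw [div_le_iff₀ hw] at h2
    have h4 : δ ≤ min x xk / 2 := min_le_right _ _
    nlinarith
  have hb : (1 : ℝ) ≤ best (Rs (d + 1 + 2) (1 / 2)) X := by
    exact_mod_cast one_le_best (nN_pos x (by omega)) X
  have h6 := Real.logb_nonneg (b := 2) (by norm_num) h3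
  rw [Real.logb_mul (by positivity) hpp.ne'] at h6
  rw [hpn] at h4
  have h7 : L2 - ε ≤ expo (d + 1 + 2) X := by
    unfold expo
    rw [le_div_iff₀ hn0]
    linarith
  linarith

/-- **The exponent of the largest kissing configuration in random sets.** -/
theorem main2 {x ε : ℝ} (hx : 0 < x) (hε : 0 < ε) : ∀ᶠ n : ℕ in atTop,
    1 - ε ≤ (lawG (mu n) (nN x n)).real {X | L2 - ε ≤ expo n X ∧
      expo n X ≤ min (codeRate (Real.pi / 3) n) (L2 + max 0 (x - y0) / Real.log 2 + ε)} := by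
  have hε2 : 0 < ε / 2 := by positivity
  filter_upwards [expo_up (x := x) hε2, expo_low hx hε2, eventually_ge_atTop 3] with n h1 h2 hn
  obtain ⟨d, rfl⟩ : ∃ d, n = d + 1 + 2 := ⟨n - 3, by omega⟩
  refine prob_ge ?_
  refine (measureReal_mono (s₂ := {X | L2 + max 0 (x - y0) / Real.log 2 + ε / 2 <
      expo (d + 1 + 2) X} ∪ {X | expo (d + 1 + 2) X < L2 - ε / 2}) ?_ (measure_ne_top _ _)).trans ?_
  · intro X hX
    by_contra hcon
    simp only [Set.mem_union, Set.mem_ofPred_eq, not_or, not_lt] at hcon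
    apply hX
    refine ⟨by linarith [hcon.2], le_min (expo_le_rate (by omega) (nN_pos x (by omega)) X) ?_⟩
    linarith [hcon.1]
  · refine (measureReal_union_le _ _).trans ?_
    linarith

/-- **Large random sets contain nearly optimal kissing configurations.** -/
theorem net_ev {ε : ℝ} (hε : 0 < ε) : ∃ x₀ : ℝ, 0 < x₀ ∧ ∀ᶠ n : ℕ in atTop, ∀ N : ℕ,
    Real.exp (x₀ * n) ≤ N * pn n →
    1 - ε ≤ (lawG (mu n) N).real {X | codeRate (Real.pi / 3) n - ε ≤ expo n X} := by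
  have hl := log2_pos
  have hc : Real.cos (Real.pi / 3) < 1 := by rw [Real.cos_pi_div_three]; norm_num
  obtain ⟨B, hB1, hB2⟩ := (((Pool.Agent.U26.KP.KK_small hc).eventually (gt_mem_nhds
    (show (0 : ℝ) < ε * Real.log 2 / 2 by positivity))).and (eventually_ge_atTop 2)).exists
  have hB0 : (0 : ℝ) < B := by exact_mod_cast (by omega : 0 < B)
  have hB2' : (2 : ℝ) ≤ B := by exact_mod_cast hB2
  set K := Pool.Agent.U26.KP.KK (Real.pi / 3) B with hK
  have hK1 : 1 ≤ K := by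
    rw [hK]
    unfold Pool.Agent.U26.KP.KK
    have : 0 < 2 / ((1 - Real.cos (Real.pi / 3)) * (1 / (B : ℝ)) / 8) := by
      have : 0 < 1 - Real.cos (Real.pi / 3) := by linarith
      positivity
    linarith
  have hK0 : 0 < K := by linarith
  have hLK : 0 ≤ Real.log K := Real.log_nonneg hK1
  set ρ : ℝ := 1 / (8 * (B : ℝ)) with hρ
  have hρ0 : 0 < ρ := by positivity
  have hlB : 0 < Real.log (16 * B) := Real.log_pos (by linarith)
  refine ⟨Real.log (16 * B) + 1, by linarith, ?_⟩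
  obtain ⟨d₁, hd₁⟩ := eventually_atTop.1 pc_small
  have h2 : ∀ᶠ n : ℕ in atTop, 2 / ε / (ρ ^ 2 / 8) ≤ (n : ℝ) :=
    tendsto_natCast_atTop_atTop.eventually_ge_atTop _
  have h3 : ∀ᶠ n : ℕ in atTop, (Real.log (2 * B) + Real.log K) / (ε * Real.log 2 / 2) ≤ (n : ℝ) :=
    tendsto_natCast_atTop_atTop.eventually_ge_atTop _
  filter_upwards [h2, h3, eventually_ge_atTop (d₁ + 3)] with n h2 h3 hn N hN
  obtain ⟨d, rfl⟩ : ∃ d, n = d + 1 + 2 := ⟨n - 3, by omega⟩
  have hpn : pn (d + 1 + 2) = pc (d + 1) (1 / 2) := rfl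
  have hn0 : (0 : ℝ) < ((d + 1 + 2 : ℕ) : ℝ) := by positivity
  have hp := hd₁ d (by omega)
  have hp1 : pc (d + 1) (1 / 2) ≤ 1 := hp.trans (pow_le_one₀ (by norm_num) (by norm_num))
  have hpos := pn_pos (n := d + 1 + 2) (by omega)
  rw [div_le_iff₀ (by positivity)] at h2 h3
  have hN1 : Real.exp ((Real.log (16 * B) + 1) * ((d + 1 + 2 : ℕ) : ℝ)) ≤ N := by
    refine hN.trans ?_
    rw [hpn]
    exact mul_le_of_le_one_right (Nat.cast_nonneg N) hp1
  have hNpos : 0 < N := by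
    have : (0 : ℝ) < N := lt_of_lt_of_le (Real.exp_pos _) hN1
    exact_mod_cast this
  have h4 := net_prob d hB2 N
  rw [← hK, ← hρ] at h4
  have h5 : ρ ^ 2 / 8 * ((d + 1 + 2 : ℕ) : ℝ) ≤ N * (ρ ^ 2 / 8 * (ρ / 2) ^ d) := by
    have e1 : (ρ / 2) ^ d = Real.exp (-(Real.log (16 * B) * d)) := by
      have : ρ / 2 = (16 * (B : ℝ))⁻¹ := by
        rw [hρ]
        field_simp
        norm_num
      rw [this, inv_pow, Real.exp_neg, mul_comm (Real.log (16 * (B : ℝ))), Real.exp_nat_mul,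
        Real.exp_log (by positivity)]
    have e2 : ((d + 1 + 2 : ℕ) : ℝ) ≤ N * (ρ / 2) ^ d := by
      rw [e1]
      calc ((d + 1 + 2 : ℕ) : ℝ) ≤ Real.exp (((d + 1 + 2 : ℕ) : ℝ)) := by
            linarith [Real.add_one_le_exp (((d + 1 + 2 : ℕ) : ℝ))]
        _ ≤ Real.exp ((Real.log (16 * B) + 1) * ((d + 1 + 2 : ℕ) : ℝ)) *
            Real.exp (-(Real.log (16 * B) * d)) := by
            rw [← Real.exp_add]
            refine Real.exp_le_exp.2 ?_
            push_cast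
            nlinarith
        _ ≤ _ := mul_le_mul_of_nonneg_right hN1 (Real.exp_pos _).le
    have e3 := mul_le_mul_of_nonneg_left e2 (show 0 ≤ ρ ^ 2 / 8 by positivity)
    linarith
  have h6 : 2 * Real.exp (-(N * (ρ ^ 2 / 8 * (ρ / 2) ^ d))) ≤ ε := by
    have e1 : 2 / ε ≤ N * (ρ ^ 2 / 8 * (ρ / 2) ^ d) := by linarith
    have e2 : 2 / ε ≤ Real.exp (N * (ρ ^ 2 / 8 * (ρ / 2) ^ d)) := by
      linarith [Real.add_one_le_exp (N * (ρ ^ 2 / 8 * (ρ / 2) ^ d))]
    rw [Real.exp_neg]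
    have e3 := inv_anti₀ (by positivity) e2
    calc 2 * (Real.exp (N * (ρ ^ 2 / 8 * (ρ / 2) ^ d)))⁻¹ ≤ 2 * (2 / ε)⁻¹ := by linarith
      _ = ε := by
        rw [inv_div]
        ring
  refine prob_ge ((measureReal_mono ?_ (measure_ne_top _ _)).trans (h4.trans h6))
  intro X hX
  simp only [Set.mem_compl_iff, Set.mem_ofPred_eq, not_le] at hX ⊢
  by_contra hcon
  push Not at hcon
  have hb : (1 : ℝ) ≤ best (Rs (d + 1 + 2) (1 / 2)) X := by exact_mod_cast one_le_best hNpos X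
  haveI : NeZero (d + 1 + 2) := ⟨by omega⟩
  have hkp : (0 : ℝ) < kissing (d + 1 + 2) := by
    have : (best (Rs (d + 1 + 2) (1 / 2)) X : ℝ) ≤ kissing (d + 1 + 2) := by
      exact_mod_cast best_le_kissing X
    linarith
  have h7 := Real.log_le_log hkp hcon
  rw [Real.log_mul (by positivity) (by positivity), ← mul_assoc,
    Real.log_mul (by positivity) (by positivity), Real.log_pow] at h7
  push_cast at h7
  have h13 : (((d + 1 + 2) / B : ℕ) : ℝ) ≤ ((d + 1 + 2 : ℕ) : ℝ) / B := Nat.cast_div_le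
  have h14 : ((((d + 1 + 2) / B : ℕ) : ℝ) + 1) * Real.log K ≤
      ((d + 1 + 2 : ℕ) : ℝ) * (Real.log K / B) + Real.log K := by
    have : ((((d + 1 + 2) / B : ℕ) : ℝ) + 1) * Real.log K ≤
        (((d + 1 + 2 : ℕ) : ℝ) / B + 1) * Real.log K :=
      mul_le_mul_of_nonneg_right (by linarith) hLK
    refine this.trans (le_of_eq ?_)
    ring
  have h15 : ((d + 1 + 2 : ℕ) : ℝ) * (Real.log K / B) ≤
      ((d + 1 + 2 : ℕ) : ℝ) * (ε * Real.log 2 / 2) := mul_le_mul_of_nonneg_left hB1.le hn0.le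
  have h16 : codeRate (Real.pi / 3) (d + 1 + 2) - ε ≤ expo (d + 1 + 2) X := by
    unfold codeRate expo
    change Real.logb 2 (kissing (d + 1 + 2)) / _ - ε ≤ _
    rw [sub_le_iff_le_add, ← sub_le_iff_le_add', ← sub_div, div_le_iff₀ hn0]
    unfold Real.logb
    rw [← sub_div, div_le_iff₀ hl]
    linarith
  linarith

/-- The criterion in terms of the exponent. -/
theorem crit_mp {a : ℝ} (ha : L2 < a) : ∃ x : ℝ, 0 < x ∧ ∃ η : ℝ, 0 < η ∧
    ∀ᶠ n : ℕ in atTop, a ≤ codeRate (Real.pi / 3) n →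
      1 / 2 ≤ (lawG (mu n) (nN x n)).real {X | L2 + η ≤ expo n X} := by
  set g := a - L2 with hg
  have hg0 : 0 < g := by linarith
  obtain ⟨x, hx, h⟩ := net_ev (show 0 < min (g / 2) (1 / 2) by positivity)
  refine ⟨x, hx, g / 2, by positivity, ?_⟩
  filter_upwards [h, eventually_ge_atTop 3] with n h hn hrate
  have h0 := h (nN x n) (nN_ge x hn)
  obtain ⟨d, rfl⟩ : ∃ d, n = d + 1 + 2 := ⟨n - 3, by omega⟩
  have h1 : min (g / 2) (1 / 2) ≤ g / 2 := min_le_left _ _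
  have h2 : min (g / 2) (1 / 2) ≤ 1 / 2 := min_le_right _ _
  refine le_trans (by linarith) (h0.trans (measureReal_mono ?_ (measure_ne_top _ _)))
  intro X hX
  simp only [Set.mem_ofPred_eq] at hX ⊢
  linarith

theorem crit_mpr {x η : ℝ} {n : ℕ} (hn : 3 ≤ n)
    (h : 1 / 2 ≤ (lawG (mu n) (nN x n)).real {X | L2 + η ≤ expo n X}) :
    L2 + η ≤ codeRate (Real.pi / 3) n := by
  have hne : {X : Fin (nN x n) → S n | L2 + η ≤ expo n X}.Nonempty := by
    by_contra hcon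
    rw [Set.not_nonempty_iff_eq_empty] at hcon
    rw [hcon, measureReal_empty] at h
    norm_num at h
  obtain ⟨X, hX⟩ := hne
  exact le_trans hX (expo_le_rate (by omega) (nN_pos x hn) X)

theorem rate_bdd : IsBoundedUnder (· ≤ ·) atTop (codeRate (Real.pi / 3)) :=
  isBoundedUnder_of ⟨_, fun n => codeRate_le sin_pos n⟩

theorem rate_bdd' : IsBoundedUnder (· ≥ ·) atTop (codeRate (Real.pi / 3)) :=
  isBoundedUnder_of ⟨0, fun n => codeRate_nonneg _ n⟩

theorem crit_limsup : L2 < limsup (codeRate (Real.pi / 3)) atTop ↔ ∃ x : ℝ, 0 < x ∧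
    ∃ η : ℝ, 0 < η ∧ ∃ᶠ n : ℕ in atTop,
      1 / 2 ≤ (lawG (mu n) (nN x n)).real {X | L2 + η ≤ expo n X} := by
  constructor
  · intro h
    obtain ⟨a, ha1, ha2⟩ := exists_between h
    have h1 := frequently_lt_of_lt_limsup rate_bdd'.isCoboundedUnder_le ha2
    obtain ⟨x, hx, η, hη, h2⟩ := crit_mp ha1
    refine ⟨x, hx, η, hη, ?_⟩
    exact (h1.and_eventually h2).mono fun n h => h.2 h.1.le
  · rintro ⟨x, hx, η, hη, h⟩
    have h1 : ∃ᶠ n : ℕ in atTop, L2 + η ≤ codeRate (Real.pi / 3) n :=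
      (h.and_eventually (eventually_ge_atTop 3)).mono fun n h => crit_mpr h.2 h.1
    have h2 := le_limsup_of_frequently_le h1 rate_bdd
    linarith

theorem crit_liminf : L2 < liminf (codeRate (Real.pi / 3)) atTop ↔ ∃ x : ℝ, 0 < x ∧
    ∃ η : ℝ, 0 < η ∧ ∀ᶠ n : ℕ in atTop,
      1 / 2 ≤ (lawG (mu n) (nN x n)).real {X | L2 + η ≤ expo n X} := by
  constructor
  · intro h
    obtain ⟨a, ha1, ha2⟩ := exists_between h
    have h1 := eventually_lt_of_lt_liminf ha2 rate_bdd'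
    obtain ⟨x, hx, η, hη, h2⟩ := crit_mp ha1
    refine ⟨x, hx, η, hη, ?_⟩
    filter_upwards [h1, h2] with n h1 h2
    exact h2 h1.le
  · rintro ⟨x, hx, η, hη, h⟩
    have h1 : ∀ᶠ n : ℕ in atTop, L2 + η ≤ codeRate (Real.pi / 3) n := by
      filter_upwards [h, eventually_ge_atTop 3] with n h hn
      exact crit_mpr hn h
    have h2 := le_liminf_of_le rate_bdd.isCoboundedUnder_ge h1
    linarith

end Pool.Agent.U279.KR
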