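import Pool.Agent.U279.KR.Rec

set_option autoImplicit false

/-! Moments of the projection to a plane, and bounds for the eigenvalues of high degree. -/

open MeasureTheory Metric Set Filter Topology
open scoped ENNReal RealInnerProductSpace Pointwise

namespace Pool.Agent.U279.KR

open Pool.Agent.N303.SH

/-- the square of the length of the projection -/
noncomputable def qq (c : ℕ) (x : S (c + 2)) : ℝ :=
  ⟪e0 c, (x : E (c + 2))⟫ ^ 2 + ⟪e1 c, (x : E (c + 2))⟫ ^ 2

lemma qq_cont (c : ℕ) : Continuous (qq c) := by unfold qq; fun_prop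

lemma qq_nonneg (c : ℕ) (x : S (c + 2)) : 0 ≤ qq c x := by unfold qq; positivity

lemma qq_le (c : ℕ) (x : S (c + 2)) : qq c x ≤ 1 := by
  have h := sum_ej c x
  have h2 : 0 ≤ ∑ j : Fin c, ⟪ej c j, (x : E (c + 2))⟫ ^ 2 := Finset.sum_nonneg fun j _ => sq_nonneg _
  unfold qq
  linarith

lemma int_r {n : ℕ} {f : S n → ℝ} (hf : Continuous f) : Integrable f (sg n) :=
  hf.integrable_of_hasCompactSupport (HasCompactSupport.of_compactSpace f)

/-- the moments -/
noncomputable def mq (c m : ℕ) : ℝ := ∫ x : S (c + 2), qq c x ^ m ∂(sg (c + 2))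

lemma mq_rec (c m : ℕ) : ((c : ℝ) + 2 * m + 2) * mq c (m + 1) = (2 * m + 2) * mq c m := by
  have hq := qq_cont c
  have h1 : ∀ j : Fin c, ∫ x : S (c + 2), (qq c x ^ (m + 1) -
      (2 * m + 2) * (⟪ej c j, (x : E (c + 2))⟫ ^ 2 * qq c x ^ m)) ∂(sg (c + 2)) = 0 := by
    intro j
    have a1 := rotq (on_e c).huv (e0_ej c j) (on_e c).hv (norm_ej c j) (e1_ej c j) m
    have a2 := rotq (u := e1 c) (v := e0 c) (w := ej c j) (by rw [real_inner_comm]; exact (on_e c).huv)
      (e1_ej c j) (on_e c).hu (norm_ej c j) (e0_ej c j) m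
    rw [integral_complex_ofReal, Complex.ofReal_eq_zero] at a1 a2
    have a3 := congrArg₂ (· + ·) a1 a2
    simp only [add_zero] at a3
    rw [← integral_add (int_r (by fun_prop)) (int_r (by fun_prop))] at a3
    rw [← a3]
    congr 1
    ext x
    unfold qq
    rcases Nat.eq_zero_or_pos m with hm | hm
    · subst hm
      simp
      ring
    · obtain ⟨l, rfl⟩ := Nat.exists_eq_add_of_le' hm
      simp only [Nat.add_sub_cancel]
      push_cast
      ring
  have h2 := Finset.sum_congr (rfl : (Finset.univ : Finset (Fin c)) = Finset.univ) (fun j _ => h1 j)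
  rw [Finset.sum_const_zero, ← integral_finsetSum] at h2
  · have h3 : ∫ x : S (c + 2), ∑ j : Fin c, (qq c x ^ (m + 1) -
        (2 * m + 2) * (⟪ej c j, (x : E (c + 2))⟫ ^ 2 * qq c x ^ m)) ∂(sg (c + 2)) =
        ∫ x : S (c + 2), (((c : ℝ) + 2 * m + 2) * qq c x ^ (m + 1) - (2 * m + 2) * qq c x ^ m)
          ∂(sg (c + 2)) := by
      congr 1
      ext x
      have h4 := sum_ej c x
      rw [Finset.sum_sub_distrib, Finset.sum_const, Finset.card_univ, Fintype.card_fin,
        nsmul_eq_mul, ← Finset.mul_sum, ← Finset.sum_mul, h4]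
      change _ - (2 * (m : ℝ) + 2) * ((1 - qq c x) * qq c x ^ m) = _
      ring
    rw [h3, integral_sub ((int_r (by fun_prop)).const_mul _) ((int_r (by fun_prop)).const_mul _),
      integral_const_mul, integral_const_mul] at h2
    unfold mq
    linarith
  · intro j _
    exact int_r (by fun_prop)

lemma mq_zero (c : ℕ) : mq c 0 = (sg (c + 2)).real univ := by
  unfold mq
  simp

lemma mq_eq (c m : ℕ) : mq c m = (sg (c + 2)).real univ *
    ∏ j ∈ Finset.range m, ((j : ℝ) + 1) / (((c : ℝ) + 2) / 2 + j) := by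
  induction m with
  | zero => rw [mq_zero]; simp
  | succ m ih =>
    have h := mq_rec c m
    rw [Finset.prod_range_succ, ← mul_assoc, ← ih]
    have h1 : (0 : ℝ) < (c : ℝ) + 2 * m + 2 := by positivity
    have h2 : (0 : ℝ) < ((c : ℝ) + 2) / 2 + m := by positivity
    rw [mul_div_assoc', eq_div_iff h2.ne']
    linarith

/-- continuous nonnegative functions which vanish on `(-∞, s]` -/
structure Fs (s : ℝ) (φ : ℝ → ℝ) : Prop where
  cont : Continuous φ
  nonneg : ∀ t, 0 ≤ φ t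
  zero : ∀ t, t ≤ s → φ t = 0

variable {s : ℝ} {φ ψ : ℝ → ℝ} {c : ℕ}

lemma la_add (hφ : Continuous φ) (hψ : Continuous ψ) (k : ℕ) :
    la (e0 c) (e1 c) (fun t => φ t + ψ t) k = la (e0 c) (e1 c) φ k + la (e0 c) (e1 c) ψ k := by
  unfold la
  rw [← Finset.sum_add_distrib]
  refine Finset.sum_congr rfl fun i _ => ?_
  have : mo (e0 c) (e1 c) (fun t => φ t + ψ t) i (k - i) =
      mo (e0 c) (e1 c) φ i (k - i) + mo (e0 c) (e1 c) ψ i (k - i) := by
    unfold mo
    rw [← integral_add (int_r (by fun_prop)) (int_r (by fun_prop))]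
    congr 1
    ext x
    ring
  rw [this]
  ring

lemma la_smul (φ : ℝ → ℝ) (a : ℝ) (k : ℕ) :
    la (e0 c) (e1 c) (fun t => a * φ t) k = a * la (e0 c) (e1 c) φ k := by
  unfold la
  rw [Finset.mul_sum]
  refine Finset.sum_congr rfl fun i _ => ?_
  have : mo (e0 c) (e1 c) (fun t => a * φ t) i (k - i) = a * mo (e0 c) (e1 c) φ i (k - i) := by
    unfold mo
    rw [← integral_const_mul]
    congr 1
    ext x
    ring
  rw [this]
  ring

lemma la_zero_eq (φ : ℝ → ℝ) : la (e0 c) (e1 c) φ 0 =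
    ∫ x : S (c + 2), φ ⟪e0 c, (x : E (c + 2))⟫ ∂(sg (c + 2)) := by
  unfold la mo
  simp

lemma la_zero_nonneg (h : ∀ t, 0 ≤ φ t) : 0 ≤ la (e0 c) (e1 c) φ 0 := by
  rw [la_zero_eq]
  exact integral_nonneg fun x => h _

/-- **Positivity of the eigenvalues of low degree.** -/
lemma la_pos (hc : 1 ≤ c) {s ρ : ℝ} (hs : 0 < s) (hρ : 0 < ρ) (hρs : ρ ≤ s) (K : ℕ)
    (hK : ∀ j : ℕ, j ≤ K → (j : ℝ) / ρ + ρ * (c + j) ≤ ((c : ℝ) + 2 * j) * s) :
    ∀ k : ℕ, k ≤ K → ∀ φ : ℝ → ℝ, Fs s φ → 0 ≤ la (e0 c) (e1 c) φ k ∧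
      ρ * la (e0 c) (e1 c) φ k ≤ la (e0 c) (e1 c) φ (k + 1) := by
  intro k
  induction k with
  | zero =>
    intro _ φ hφ
    have h0 := la_zero_nonneg (c := c) hφ.nonneg
    refine ⟨h0, ?_⟩
    rw [zero_add, rec_la0, la_zero_eq, la_zero_eq, ← integral_const_mul]
    refine integral_mono ((int_r (by have := hφ.cont; fun_prop)).const_mul _)
      (int_r (by have := hφ.cont; fun_prop)) fun x => ?_
    change ρ * φ _ ≤ _ * φ _
    rcases le_or_gt (⟪e0 c, (x : E (c + 2))⟫) s with h1 | h1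
    · rw [hφ.zero _ h1]; simp
    · exact mul_le_mul_of_nonneg_right (by linarith) (hφ.nonneg _)
  | succ k ih =>
    intro hk φ hφ
    obtain ⟨i1, i2⟩ := ih (by omega) φ hφ
    have hψ : Fs s (fun t => (t - s) * φ t) := by
      refine ⟨by have := hφ.cont; fun_prop, fun t => ?_, fun t ht => ?_⟩
      · rcases le_or_gt t s with h1 | h1
        · rw [hφ.zero t h1]; simp
        · exact mul_nonneg (by linarith) (hφ.nonneg t)
      · rw [hφ.zero t ht, mul_zero]
    obtain ⟨j1, j2⟩ := ih (by omega) _ hψ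
    have hp : 0 ≤ la (e0 c) (e1 c) φ (k + 1) := (mul_nonneg hρ.le i1).trans i2
    have hq : 0 ≤ la (e0 c) (e1 c) (fun t => (t - s) * φ t) (k + 1) := (mul_nonneg hρ.le j1).trans j2
    refine ⟨hp, ?_⟩
    have hcont := hφ.cont
    have g1 : la (e0 c) (e1 c) (fun t => t * φ t) (k + 1) =
        la (e0 c) (e1 c) (fun t => (t - s) * φ t) (k + 1) + s * la (e0 c) (e1 c) φ (k + 1) := by
      rw [← la_smul, ← la_add (by fun_prop) (by fun_prop)]
      congr 1
      ext t
      ring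
    have g2 := rec_la c hcont k
    rw [g1] at g2
    have g3 := hK (k + 1) hk
    push_cast at g2 g3
    have hcp : (0 : ℝ) < (c : ℝ) + (k + 1) := by positivity
    have g4 : la (e0 c) (e1 c) φ k ≤ la (e0 c) (e1 c) φ (k + 1) / ρ := by
      rw [le_div_iff₀ hρ]; linarith
    have g5 : ((k : ℝ) + 1) * la (e0 c) (e1 c) φ k ≤
        ((k : ℝ) + 1) * (la (e0 c) (e1 c) φ (k + 1) / ρ) :=
      mul_le_mul_of_nonneg_left g4 (by positivity)
    have g6 : 0 ≤ ((c : ℝ) + 2 * (k + 1)) * la (e0 c) (e1 c) (fun t => (t - s) * φ t) (k + 1) :=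
      mul_nonneg (by positivity) hq
    have g7 : (((k : ℝ) + 1) / ρ + ρ * (c + (k + 1))) * la (e0 c) (e1 c) φ (k + 1) ≤
        (((c : ℝ) + 2 * (k + 1)) * s) * la (e0 c) (e1 c) φ (k + 1) :=
      mul_le_mul_of_nonneg_right g3 hp
    have g8 : ((c : ℝ) + (k + 1)) * (ρ * la (e0 c) (e1 c) φ (k + 1)) ≤
        ((c : ℝ) + (k + 1)) * la (e0 c) (e1 c) φ (k + 1 + 1) := by
      have g9 : ((k : ℝ) + 1) * (la (e0 c) (e1 c) φ (k + 1) / ρ) =
        ((k : ℝ) + 1) / ρ * la (e0 c) (e1 c) φ (k + 1) := by ring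
      rw [g9] at g5
      have g10 : la (e0 c) (e1 c) φ (k + 1 + 1) = la (e0 c) (e1 c) φ (k + 2) := rfl
      rw [g10, g2]
      nlinarith
    exact le_of_mul_le_mul_left g8 hcp

lemma norm_zz (c : ℕ) (x : S (c + 2)) : ‖zz (e0 c) (e1 c) x‖ = Real.sqrt (qq c x) := by
  unfold zz qq
  rw [Complex.norm_def, Complex.normSq_add_mul_I]

/-- **The eigenvalues of high degree are small.** -/
lemma la_small (hs : 0 < s) (hφ : Fs s φ) (h1 : ∀ t, φ t ≤ 1) {K k m : ℕ} (hKk : K ≤ k)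
    (hKm : K ≤ 2 * m) :
    |la (e0 c) (e1 c) φ k| ≤ (s ^ (2 * m - K))⁻¹ * mq c m := by
  have g1 := la_eq (on_e c) hφ.cont k
  have g2 : |la (e0 c) (e1 c) φ k| = ‖(la (e0 c) (e1 c) φ k : ℂ)‖ := by
    rw [Complex.norm_real, Real.norm_eq_abs]
  rw [g2, g1]
  refine (norm_integral_le_integral_norm _).trans ?_
  unfold mq
  rw [← integral_const_mul]
  have hq := qq_cont c
  have hz := zz_cont (e0 c) (e1 c)
  refine integral_mono ?_ ((int_r (by fun_prop)).const_mul _) fun x => ?_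
  · have := hφ.cont
    exact int_r (by fun_prop)
  · change ‖(φ ⟪e0 c, (x : E (c + 2))⟫ : ℂ) * zz (e0 c) (e1 c) x ^ k‖ ≤ _
    rw [norm_mul, norm_pow, norm_zz, Complex.norm_real, Real.norm_eq_abs,
      abs_of_nonneg (hφ.nonneg _)]
    have hq0 := qq_nonneg c x
    have hq1 := qq_le c x
    have hr0 := Real.sqrt_nonneg (qq c x)
    have hr1 : Real.sqrt (qq c x) ≤ 1 := Real.sqrt_le_one.2 hq1
    rcases le_or_gt (⟪e0 c, (x : E (c + 2))⟫) s with h2 | h2
    · rw [hφ.zero _ h2, zero_mul]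
      positivity
    · have h3 : s ≤ Real.sqrt (qq c x) := by
        apply Real.le_sqrt_of_sq_le
        unfold qq
        nlinarith [sq_nonneg ⟪e1 c, (x : E (c + 2))⟫]
      have h4 : Real.sqrt (qq c x) ^ (2 * m) = qq c x ^ m := by
        rw [pow_mul, Real.sq_sqrt hq0]
      calc φ ⟪e0 c, (x : E (c + 2))⟫ * Real.sqrt (qq c x) ^ k
          ≤ 1 * Real.sqrt (qq c x) ^ K :=
            mul_le_mul (h1 _) (pow_le_pow_of_le_one hr0 hr1 hKk) (by positivity) zero_le_one
        _ = Real.sqrt (qq c x) ^ K := one_mul _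
        _ = (s ^ (2 * m - K))⁻¹ * (Real.sqrt (qq c x) ^ K * s ^ (2 * m - K)) := by
            field_simp
        _ ≤ (s ^ (2 * m - K))⁻¹ * (Real.sqrt (qq c x) ^ K * Real.sqrt (qq c x) ^ (2 * m - K)) := by
            gcongr
        _ = (s ^ (2 * m - K))⁻¹ * qq c x ^ m := by
            rw [← pow_add, show K + (2 * m - K) = 2 * m by omega, h4]

end Pool.Agent.U279.KR
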