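import Pool.Agent.U279.KR.Asy
import Pool.Agent.U279.KR.GenBig
import Pool.Agent.U26.KP.Rates

set_option autoImplicit false

/-! Kissing configurations in large random sets. -/

open MeasureTheory Metric Set Filter Topology Finset
open scoped ENNReal RealInnerProductSpace

namespace Pool.Agent.U279.KR

open Pool.Agent.N303.SH
open Pool.Agent.H818R2 (sphMax kissing codeRate IsSphCode sph_nonempty sph_bdd le_sphMax)

section Gen

variable {Ω : Type} [MeasurableSpace Ω] {μ : Measure Ω} [IsProbabilityMeasure μ] {M N : ℕ}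

open Classical in
/-- The indices of the sets without points. -/
noncomputable def EmpG (B : Fin M → Set Ω) (X : Fin N → Ω) : Finset (Fin M) :=
  univ.filter fun i => ∀ j, X j ∉ B i

/-- Most of the sets contain points. -/
theorem Emp_probG (hM : 0 < M) (B : Fin M → Set Ω) (hB : ∀ i, MeasurableSet (B i)) {v : ℝ}
    (hv : ∀ i, μ.real (B i) = v) :
    (lawG μ N).real {X | (M : ℝ) / 2 ≤ (EmpG B X).card} ≤ 2 * Real.exp (-(N * v)) := by
  classical
  have hMR : (0 : ℝ) < M := by exact_mod_cast hM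
  have hv0 : 0 ≤ v := by rw [← hv ⟨0, hM⟩]; exact measureReal_nonneg
  have hv1 : v ≤ 1 := by rw [← hv ⟨0, hM⟩]; exact measureReal_le_one
  let E : Fin M → Set (Fin N → Ω) := fun i => Set.univ.pi fun _ => (B i)ᶜ
  have hEm : ∀ i, MeasurableSet (E i) := fun i => MeasurableSet.univ_pi fun _ => (hB i).compl
  have hEv : ∀ i, lawG μ N (E i) = ENNReal.ofReal ((1 - v) ^ N) := by
    intro i
    show (Measure.pi fun _ : Fin N => μ) (Set.univ.pi _) = _
    rw [Measure.pi_pi]
    have h1 : μ ((B i)ᶜ) = ENNReal.ofReal (1 - v) := by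
      have h2 : μ (B i) = ENNReal.ofReal v := by
        rw [← hv i, measureReal_def, ENNReal.ofReal_toReal (measure_ne_top _ _)]
      rw [prob_compl_eq_one_sub (hB i), h2, ENNReal.ofReal_sub _ hv0, ENNReal.ofReal_one]
    simp only [h1, Finset.prod_const, Finset.card_univ, Fintype.card_fin]
    rw [ENNReal.ofReal_pow (by linarith)]
  let W : (Fin N → Ω) → ℝ≥0∞ := fun X => ∑ i : Fin M, (E i).indicator 1 X
  have hW : Measurable W := Finset.measurable_sum _ fun i _ => measurable_one.indicator (hEm i)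
  have hWc : ∀ X, ((EmpG B X).card : ℝ≥0∞) = W X := by
    intro X
    have h1 : ((EmpG B X).card : ℝ≥0∞) =
        ∑ i : Fin M, if (∀ j, X j ∉ B i) then 1 else 0 := by
      unfold EmpG
      rw [Finset.card_filter, Nat.cast_sum]
      refine Finset.sum_congr rfl fun i _ => ?_
      split_ifs <;> simp
    rw [h1]
    refine Finset.sum_congr rfl fun i _ => ?_
    by_cases h : ∀ j, X j ∉ B i
    · rw [if_pos h, Set.indicator_of_mem (show X ∈ E i from fun j _ => h j)]
      rfl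
    · rw [if_neg h, Set.indicator_of_notMem]
      intro h'
      exact h fun j => h' j (Set.mem_univ j)
  have hint : ∫⁻ X, W X ∂(lawG μ N) = ENNReal.ofReal (M * (1 - v) ^ N) := by
    show ∫⁻ X, ∑ i : Fin M, (E i).indicator 1 X ∂(lawG μ N) = _
    rw [lintegral_finsetSum _ fun i _ => measurable_one.indicator (hEm i)]
    have h1 : ∀ i ∈ (univ : Finset (Fin M)), ∫⁻ X, (E i).indicator 1 X ∂(lawG μ N) =
        ENNReal.ofReal ((1 - v) ^ N) := fun i _ => by
      rw [lintegral_indicator_one (hEm i), hEv i]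
    rw [Finset.sum_congr rfl h1, Finset.sum_const, Finset.card_univ, Fintype.card_fin,
      nsmul_eq_mul, ENNReal.ofReal_mul (by positivity), ENNReal.ofReal_natCast]
  have hc : ENNReal.ofReal (M / 2) ≠ 0 := by
    rw [Ne, ENNReal.ofReal_eq_zero, not_le]
    positivity
  have hsub : {X : Fin N → Ω | (M : ℝ) / 2 ≤ (EmpG B X).card} ⊆
      {X | ENNReal.ofReal (M / 2) ≤ W X} := by
    intro X hX
    simp only [Set.mem_ofPred_eq] at hX ⊢
    rw [← hWc X, ← ENNReal.ofReal_natCast]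
    exact ENNReal.ofReal_le_ofReal hX
  have h1 := (measure_mono hsub).trans
    (meas_ge_le_lintegral_div (μ := lawG μ N) hW.aemeasurable hc ENNReal.ofReal_ne_top)
  rw [hint, ← ENNReal.ofReal_div_of_pos (by positivity)] at h1
  have h2 := ENNReal.toReal_mono ENNReal.ofReal_ne_top h1
  have h0 : 0 ≤ 1 - v := by linarith
  rw [ENNReal.toReal_ofReal (by positivity)] at h2
  refine h2.trans ?_
  have h3 : (M : ℝ) * (1 - v) ^ N / (M / 2) = 2 * (1 - v) ^ N := by
    field_simp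
  rw [h3]
  have h4 : 1 - v ≤ Real.exp (-v) := by
    have := Real.add_one_le_exp (-v)
    linarith
  have h5 := pow_le_pow_left₀ h0 h4 N
  rw [← Real.exp_nat_mul] at h5
  have h6 : (N : ℝ) * -v = -(N * v) := by ring
  rw [h6] at h5
  linarith

end Gen

variable {n N M : ℕ} {ρ : ℝ}

theorem cap_near {x y : S n} (hρ : 0 < ρ) (h : x ∈ cap n (1 - ρ ^ 2 / 2) y) :
    ‖(x : E n) - y‖ < ρ := by
  have hx : ‖(x : E n)‖ = 1 := by simp
  have hy : ‖(y : E n)‖ = 1 := by simp
  have h1 : 1 - ρ ^ 2 / 2 < ⟪(y : E n), (x : E n)⟫ := h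
  have h2 : ‖(x : E n) - y‖ ^ 2 < ρ ^ 2 := by
    rw [norm_sub_sq_real, hx, hy, real_inner_comm]
    linarith
  exact lt_of_pow_lt_pow_left₀ 2 hρ.le h2

theorem best_ge_netS (hρ : 0 < ρ) (y : Fin M → S n)
    (hy : ∀ i j, i ≠ j → ⟪(y i : E n), (y j : E n)⟫ ≤ 1 / 2 - 2 * ρ) (X : Fin N → S n) :
    M ≤ best (Rs n (1 / 2)) X + (EmpG (fun i => cap n (1 - ρ ^ 2 / 2) (y i)) X).card := by
  classical
  set Em := EmpG (fun i => cap n (1 - ρ ^ 2 / 2) (y i)) X with hEm
  set T : Finset (Fin M) := univ \ Em with hT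
  have hScard : T.card + Em.card = M := by
    rw [hT, Finset.card_sdiff_add_card_eq_card (Finset.subset_univ _), Finset.card_univ,
      Fintype.card_fin]
  have hex : ∀ i ∈ T, ∃ j, X j ∈ cap n (1 - ρ ^ 2 / 2) (y i) := by
    intro i hi
    rw [hT, Finset.mem_sdiff] at hi
    by_contra h
    push Not at h
    exact hi.2 (Finset.mem_filter.2 ⟨Finset.mem_univ _, h⟩)
  rcases T.eq_empty_or_nonempty with h0 | ⟨i₀, hi₀⟩
  · rw [h0, Finset.card_empty] at hScard
    omega
  have hne : Nonempty (Fin N) := ⟨(hex i₀ hi₀).choose⟩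
  choose! g hg using hex
  have hsep : ∀ i ∈ T, ∀ i' ∈ T, i ≠ i' → ⟪(X (g i) : E n), (X (g i') : E n)⟫ ≤ 1 / 2 := by
    intro i hi i' hi' hii
    have h1 := cap_near hρ (hg i hi)
    have h2 := cap_near hρ (hg i' hi')
    have h3 := hy i i' hii
    have e1 : ⟪(X (g i) : E n), (X (g i') : E n)⟫ = ⟪(y i : E n), (y i' : E n)⟫ +
        ⟪(X (g i) : E n) - y i, (y i' : E n)⟫ + ⟪(X (g i) : E n), (X (g i') : E n) - y i'⟫ := by
      rw [inner_sub_left, inner_sub_right]
      ring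
    have e2 : ⟪(X (g i) : E n) - y i, (y i' : E n)⟫ ≤ ρ := by
      refine (real_inner_le_norm _ _).trans ?_
      have : ‖(y i' : E n)‖ = 1 := by simp
      rw [this, mul_one]
      exact h1.le
    have e3 : ⟪(X (g i) : E n), (X (g i') : E n) - y i'⟫ ≤ ρ := by
      refine (real_inner_le_norm _ _).trans ?_
      have : ‖(X (g i) : E n)‖ = 1 := by simp
      rw [this, one_mul]
      exact h2.le
    rw [e1]
    linarith
  have hinj : Set.InjOn g T := by
    intro i hi i' hi' h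
    by_contra hne
    have h1 := hsep i hi i' hi' hne
    rw [h, real_inner_self_eq_norm_sq] at h1
    have : ‖(X (g i') : E n)‖ = 1 := by simp
    rw [this] at h1
    norm_num at h1
  have hcard : (T.image g).card = T.card := Finset.card_image_of_injOn hinj
  have hb : (T.image g).card ≤ best (Rs n (1 / 2)) X := by
    refine le_best ?_
    intro a ha b hb hab
    obtain ⟨i, hi, rfl⟩ := Finset.mem_image.1 ha
    obtain ⟨i', hi', rfl⟩ := Finset.mem_image.1 hb
    exact not_lt.2 (hsep i hi i' hi' fun h => hab (by rw [h]))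
  omega

theorem sin_pos : 0 < Real.sin (Real.pi / 3 / 2) :=
  Real.sin_pos_of_pos_of_lt_pi (by positivity) (by linarith [Real.pi_pos])

/-- The largest kissing configuration among random points is at most the kissing number. -/
theorem best_le_kissing [NeZero n] (X : Fin N → S n) : best (Rs n (1 / 2)) X ≤ kissing n := by
  classical
  obtain ⟨s, hs, hc⟩ := exists_best (Rs n (1 / 2)) X
  have hin : ∀ i ∈ s, ∀ j ∈ s, i ≠ j → ⟪(X i : E n), (X j : E n)⟫ ≤ 1 / 2 :=
    fun i hi j hj hij => not_lt.1 (hs i hi j hj hij)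
  have hinj : Set.InjOn (fun i => (X i : E n)) s := by
    intro i hi j hj h
    by_contra hne
    have h1 := hin i hi j hj hne
    have h2 : (X i : E n) = X j := h
    rw [h2, real_inner_self_eq_norm_sq] at h1
    have : ‖(X j : E n)‖ = 1 := by simp
    rw [this] at h1
    norm_num at h1
  have hcard : (s.image fun i => (X i : E n)).card = s.card := Finset.card_image_of_injOn hinj
  rw [← hc, ← hcard]
  refine le_sphMax sin_pos ⟨?_, ?_⟩
  · intro x hx
    obtain ⟨i, -, rfl⟩ := Finset.mem_image.1 hx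
    simp
  · intro x hx y hy hxy
    obtain ⟨i, hi, rfl⟩ := Finset.mem_image.1 hx
    obtain ⟨j, hj, rfl⟩ := Finset.mem_image.1 hy
    rw [Real.cos_pi_div_three]
    exact hin i hi j hj fun h => hxy (by rw [h])

theorem one_le_best (hN : 0 < N) (X : Fin N → S n) : 1 ≤ best (Rs n (1 / 2)) X := by
  have h := le_best (R := Rs n (1 / 2)) (X := X) (s := {⟨0, hN⟩}) fun i hi j hj hij => by
    rw [Finset.mem_singleton] at hi hj
    exact absurd (hi.trans hj.symm) hij
  simpa using h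

/-- lower bound for small caps -/
theorem pc_small_ge (d : ℕ) (hρ : 0 < ρ) (hρ1 : ρ ≤ 1) :
    ρ ^ 2 / 8 * (ρ / 2) ^ d ≤ pc (d + 1) (1 - ρ ^ 2 / 2) := by
  have h := pc_ge d (s := 1 - ρ ^ 2 / 2) (δ := ρ ^ 2 / 4) (by nlinarith) (by positivity) (by nlinarith)
  refine le_trans ?_ h
  have h1 : ρ / 2 ≤ Real.sqrt (1 - (1 - ρ ^ 2 / 2 + ρ ^ 2 / 4) ^ 2) := by
    refine Real.le_sqrt_of_sq_le ?_
    have : ρ ^ 2 ≤ 1 := pow_le_one₀ hρ.le hρ1
    nlinarith [sq_nonneg ρ, sq_nonneg (ρ ^ 2)]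
  have h2 : ρ ^ 2 / 8 = ρ ^ 2 / 4 / 2 := by ring
  rw [h2]
  gcongr

/-- **Large random sets contain nearly optimal kissing configurations.** -/
theorem net_prob (d : ℕ) {B : ℕ} (hB : 2 ≤ B) (N : ℕ) :
    (lawG (mu (d + 1 + 2)) N).real {X | (best (Rs (d + 1 + 2) (1 / 2)) X : ℝ) *
      (2 * (B * Pool.Agent.U26.KP.KK (Real.pi / 3) B ^ ((d + 1 + 2) / B + 1))) <
        kissing (d + 1 + 2)} ≤
      2 * Real.exp (-(N * ((1 / (8 * (B : ℝ))) ^ 2 / 8 * (1 / (8 * (B : ℝ)) / 2) ^ d))) := by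
  classical
  have hB0 : (0 : ℝ) < B := by exact_mod_cast (by omega : 0 < B)
  have hB2 : (2 : ℝ) ≤ B := by exact_mod_cast hB
  obtain ⟨P, hP, hPc⟩ := Nat.sSup_mem (sph_nonempty (d + 1 + 2) (Real.pi / 3)) (sph_bdd sin_pos)
  change P.card = kissing (d + 1 + 2) at hPc
  have hcos : Real.cos (Real.pi / 3) = 1 / 2 := Real.cos_pi_div_three
  obtain ⟨Q, hQ1, hQ2, hQc⟩ := Pool.Agent.U26.KP.gain hB (c := 1 / 2) (by norm_num) (by norm_num) P
    hP.1 (fun x hx y hy hxy => by rw [← hcos]; exact hP.2 x hx y hy hxy)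
  set K := Pool.Agent.U26.KP.KK (Real.pi / 3) B with hK
  have hKe : (2 / ((1 - 1 / 2) * (1 / (B : ℝ)) / 8) + 1 : ℝ) = K := by
    rw [hK]
    unfold Pool.Agent.U26.KP.KK
    rw [hcos]
  rw [hKe] at hQc
  set ρ : ℝ := 1 / (8 * (B : ℝ)) with hρ
  have hρ0 : 0 < ρ := by positivity
  have hρ1 : ρ ≤ 1 := by
    rw [hρ, div_le_one (by positivity)]
    linarith
  have hb : 1 - (1 - 1 / 2) * (1 - 1 / (B : ℝ) / 2) / (1 - 1 / (B : ℝ)) ≤ 1 / 2 - 2 * ρ := by
    set b : ℝ := 1 / B with hbd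
    have hb0 : 0 < b := by positivity
    have hb1 : b ≤ 1 / 2 := by rw [hbd]; exact one_div_le_one_div_of_le (by norm_num) hB2
    have h2 : 2 * ρ = b / 4 := by
      rw [hρ, hbd]
      field_simp
      norm_num
    rw [h2]
    have h1 : (1 - 1 / 2) * (1 + b / 2) ≤ (1 - 1 / 2) * (1 - b / 2) / (1 - b) := by
      rw [le_div_iff₀ (by linarith), mul_assoc]
      apply mul_le_mul_of_nonneg_left _ (by norm_num)
      nlinarith
    linarith
  set M := Q.card with hM
  rcases Nat.eq_zero_or_pos M with h0 | hMpos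
  · have hk0 : (kissing (d + 1 + 2) : ℝ) ≤ 0 := by
      rw [← hPc]
      refine hQc.trans ?_
      rw [h0]
      simp
    have : {X : Fin N → S (d + 1 + 2) | (best (Rs (d + 1 + 2) (1 / 2)) X : ℝ) *
      (2 * (B * K ^ ((d + 1 + 2) / B + 1))) < kissing (d + 1 + 2)} = ∅ := by
      ext X
      simp only [Set.mem_ofPred_eq, Set.mem_empty_iff_false, iff_false, not_lt]
      have hK0 : 0 ≤ K := by
        rw [← hKe]
        positivity
      have : 0 ≤ (best (Rs (d + 1 + 2) (1 / 2)) X : ℝ) *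
        (2 * (B * K ^ ((d + 1 + 2) / B + 1))) := by positivity
      linarith
    rw [this, measureReal_empty]
    positivity
  set e := Q.equivFin.symm with he
  set y : Fin M → S (d + 1 + 2) := fun i => ⟨(e i : E (d + 1 + 2)), by
    rw [mem_sphere_zero_iff_norm]; exact hQ1 _ (e i).2⟩ with hy
  have hyy : ∀ i j, i ≠ j → ⟪(y i : E (d + 1 + 2)), (y j : E (d + 1 + 2))⟫ ≤ 1 / 2 - 2 * ρ := by
    intro i j hij
    refine (hQ2 _ (e i).2 _ (e j).2 fun h => hij (e.injective (Subtype.ext h))).trans hb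
  have hcapp : ∀ i, (mu (d + 1 + 2)).real (cap (d + 1 + 2) (1 - ρ ^ 2 / 2) (y i)) =
      pc (d + 1) (1 - ρ ^ 2 / 2) := fun i => mu_cap (d + 1) _ (y i)
  have h1 := Emp_probG (N := N) hMpos (fun i => cap (d + 1 + 2) (1 - ρ ^ 2 / 2) (y i))
    (fun i => cap_meas _ _ _) hcapp
  have h2 : (2 : ℝ) * Real.exp (-(N * pc (d + 1) (1 - ρ ^ 2 / 2))) ≤
      2 * Real.exp (-(N * (ρ ^ 2 / 8 * (ρ / 2) ^ d))) := by
    have := mul_le_mul_of_nonneg_left (pc_small_ge d hρ0 hρ1) (Nat.cast_nonneg (α := ℝ) N)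
    exact mul_le_mul_of_nonneg_left (Real.exp_le_exp.2 (by linarith)) (by norm_num)
  refine le_trans (measureReal_mono ?_ (measure_ne_top _ _)) (h1.trans h2)
  intro X hX
  simp only [Set.mem_ofPred_eq] at hX ⊢
  have h3 : (M : ℝ) ≤ best (Rs (d + 1 + 2) (1 / 2)) X +
      (EmpG (fun i => cap (d + 1 + 2) (1 - ρ ^ 2 / 2) (y i)) X).card := by
    exact_mod_cast best_ge_netS hρ0 y hyy X
  by_contra hcon
  push Not at hcon
  have h4 : (M : ℝ) / 2 ≤ best (Rs (d + 1 + 2) (1 / 2)) X := by linarith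
  rw [← hPc] at hX
  have hK0 : 0 ≤ K := by
    rw [← hKe]
    positivity
  have h5 : (B : ℝ) * K ^ ((d + 1 + 2) / B + 1) * M ≤
      best (Rs (d + 1 + 2) (1 / 2)) X * (2 * (B * K ^ ((d + 1 + 2) / B + 1))) := by
    have h6 : 0 ≤ 2 * ((B : ℝ) * K ^ ((d + 1 + 2) / B + 1)) := by positivity
    have := mul_le_mul_of_nonneg_right h4 h6
    linarith
  have h7 := hQc.trans h5
  linarith

end Pool.Agent.U279.KR
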