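import Pool.Agent.U279.KR.Sup
import Pool.Agent.TH429.J231

set_option autoImplicit false

/-! Numerical bounds for caps of angle `60` degrees. -/

open MeasureTheory Metric Set Filter Topology
open scoped ENNReal RealInnerProductSpace Pointwise

namespace Pool.Agent.U279.KR

open Pool.Agent.N303.SH

/-- `x log x` -/
noncomputable def gg (x : ℝ) : ℝ := x * Real.log x

lemma gg_ge {x : ℝ} (hx : 0 < x) : 1 + Real.log x ≤ gg (x + 1) - gg x := by
  unfold gg
  have h1 : 1 - ((x + 1) / x)⁻¹ ≤ Real.log ((x + 1) / x) := Real.one_sub_inv_le_log_of_pos (by positivity)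
  rw [Real.log_div (by positivity) hx.ne', inv_div] at h1
  have h2 := mul_le_mul_of_nonneg_left h1 (show (0 : ℝ) ≤ x + 1 by linarith)
  have h3 : (x + 1) * (1 - x / (x + 1)) = 1 := by field_simp; ring
  rw [h3] at h2
  linarith

lemma gg_le {x : ℝ} (hx : 0 < x) : gg (x + 1) - gg x ≤ 1 + Real.log (x + 1) := by
  unfold gg
  have h1 : Real.log ((x + 1) / x) ≤ (x + 1) / x - 1 := Real.log_le_sub_one_of_pos (by positivity)
  rw [Real.log_div (by positivity) hx.ne'] at h1
  have h2 := mul_le_mul_of_nonneg_left h1 hx.le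
  have h3 : x * ((x + 1) / x - 1) = 1 := by field_simp; ring
  rw [h3] at h2
  linarith

lemma gg_mono {x y : ℝ} (hx : 1 ≤ x) (hxy : x ≤ y) : gg x ≤ gg y := by
  unfold gg
  exact mul_le_mul hxy (Real.log_le_log (by linarith) hxy) (Real.log_nonneg hx) (by linarith)

/-- the product in the moments -/
lemma prod_le {h : ℝ} (hh : 1 < h) (m : ℕ) : ∏ j ∈ Finset.range m, ((j : ℝ) + 1) / (h + j) ≤
    Real.exp (gg (m + 1) + gg (h - 1) - gg (h + m - 1)) := by
  induction m with
  | zero =>
    simp [gg]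
  | succ m ih =>
    rw [Finset.prod_range_succ]
    have hm : (0 : ℝ) < (m : ℝ) + 1 := by positivity
    have hhm : (0 : ℝ) < h + m := by positivity
    have hhm1 : (0 : ℝ) < h + m - 1 := by
      have : (0 : ℝ) ≤ m := Nat.cast_nonneg m
      linarith
    have h1 := gg_ge hm
    have h2 := gg_le hhm1
    rw [sub_add_cancel] at h2
    have h3 : ((m : ℝ) + 1) / (h + m) = Real.exp (Real.log (m + 1) - Real.log (h + m)) := by
      rw [Real.exp_sub, Real.exp_log hm, Real.exp_log hhm]
    rw [h3]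
    calc (∏ j ∈ Finset.range m, ((j : ℝ) + 1) / (h + j)) *
          Real.exp (Real.log (m + 1) - Real.log (h + m))
        ≤ Real.exp (gg (m + 1) + gg (h - 1) - gg (h + m - 1)) *
          Real.exp (Real.log (m + 1) - Real.log (h + m)) :=
          mul_le_mul_of_nonneg_right ih (Real.exp_pos _).le
      _ ≤ _ := by
          rw [← Real.exp_add]
          apply Real.exp_le_exp.2
          push_cast
          have e1 : h + ((m : ℝ) + 1) - 1 = h + m := by ring
          rw [e1]
          linarith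

/-- lower bound for the measure of a cap -/
lemma pc_ge (d : ℕ) {s δ : ℝ} (hs : 0 < s) (hδ : 0 < δ) (h1 : s + δ ≤ 1) :
    δ / 2 * Real.sqrt (1 - (s + δ) ^ 2) ^ d ≤ pc (d + 1) s := by
  have hz := fun (h : ℝ → ℝ≥0∞) (hh : Measurable h) =>
    Pool.Agent.TH331.RZ.zonal_main d (⟨e0 (d + 1), by
      rw [mem_sphere_zero_iff_norm]; exact (on_e (d + 1)).hu⟩ : S (d + 1 + 2)) h hh
  set C := (volume : Measure (Pool.Agent.Helper88.SE.E (d + 1))).toSphere univ with hC
  set w : ℝ → ℝ≥0∞ := fun z => ENNReal.ofReal (Real.sqrt (1 - z ^ 2) ^ d) with hw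
  have hA := hz ((Ioi s).indicator fun _ => 1) (measurable_const.indicator measurableSet_Ioi)
  have hB := hz (fun _ => 1) measurable_const
  simp only [mul_one, lintegral_one] at hB
  have hcapm : MeasurableSet {x : S (d + 1 + 2) | s < ⟪e0 (d + 1), (x : E (d + 1 + 2))⟫} :=
    (isOpen_lt continuous_const (by fun_prop)).measurableSet
  have hA2 : sg (d + 1 + 2) {x : S (d + 1 + 2) | s < ⟪e0 (d + 1), (x : E (d + 1 + 2))⟫} =
      C * ∫⁻ z in Icc (-1 : ℝ) 1, w z * (Ioi s).indicator (fun _ => 1) z := by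
    rw [← hA, ← lintegral_indicator_one hcapm]
    refine lintegral_congr fun x => ?_
    by_cases h : s < ⟪e0 (d + 1), (x : E (d + 1 + 2))⟫
    · rw [Set.indicator_of_mem (by exact h), Set.indicator_of_mem (by exact h)]
      rfl
    · rw [Set.indicator_of_notMem (by exact h), Set.indicator_of_notMem (by exact h)]
  have hle2 : ∫⁻ z in Icc (-1 : ℝ) 1, w z ≤ 2 := by
    calc ∫⁻ z in Icc (-1 : ℝ) 1, w z ≤ ∫⁻ _ in Icc (-1 : ℝ) 1, 1 := by
          refine lintegral_mono fun z => ?_
          rw [hw]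
          refine ENNReal.ofReal_le_one.2 (pow_le_one₀ (Real.sqrt_nonneg _) ?_)
          rw [Real.sqrt_le_one]
          nlinarith [sq_nonneg z]
      _ = 2 := by
          rw [lintegral_one, Measure.restrict_apply_univ, Real.volume_Icc]
          norm_num
  have hge : ENNReal.ofReal (Real.sqrt (1 - (s + δ) ^ 2) ^ d) * ENNReal.ofReal δ ≤
      ∫⁻ z in Icc (-1 : ℝ) 1, w z * (Ioi s).indicator (fun _ => 1) z := by
    calc ENNReal.ofReal (Real.sqrt (1 - (s + δ) ^ 2) ^ d) * ENNReal.ofReal δ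
        = ∫⁻ _ in Ioc s (s + δ), ENNReal.ofReal (Real.sqrt (1 - (s + δ) ^ 2) ^ d) := by
          rw [lintegral_const, Measure.restrict_apply_univ, Real.volume_Ioc, add_sub_cancel_left]
      _ ≤ ∫⁻ z in Ioc s (s + δ), w z * (Ioi s).indicator (fun _ => 1) z := by
          refine setLIntegral_mono' measurableSet_Ioc fun z hz => ?_
          rw [Set.indicator_of_mem (show z ∈ Ioi s from hz.1), mul_one, hw]
          refine ENNReal.ofReal_le_ofReal (pow_le_pow_left₀ (Real.sqrt_nonneg _) ?_ _)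
          refine Real.sqrt_le_sqrt ?_
          nlinarith [hz.1, hz.2]
      _ ≤ _ := by
          refine lintegral_mono_set fun z hz => ⟨?_, ?_⟩
          · linarith [hz.1]
          · linarith [hz.2]
  have hCt : C ≠ ∞ := measure_ne_top _ _
  have hV := sg_pos (d + 1)
  have hC0 : C ≠ 0 := by
    intro h0
    rw [h0, zero_mul] at hB
    exact sgu_ne_zero (d + 1) hB
  have hCp : 0 < C.toReal := ENNReal.toReal_pos hC0 hCt
  have hVle : (sg (d + 1 + 2)).real univ ≤ C.toReal * 2 := by
    have h2 : sg (d + 1 + 2) univ ≤ C * 2 := by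
      have : sg (d + 1 + 2) univ = C * ∫⁻ z in Icc (-1 : ℝ) 1, w z := hB
      rw [this]
      exact mul_le_mul' le_rfl hle2
    have h3 := ENNReal.toReal_mono (ENNReal.mul_ne_top hCt (by norm_num)) h2
    rw [ENNReal.toReal_mul] at h3
    exact h3
  have hcle : C.toReal * (Real.sqrt (1 - (s + δ) ^ 2) ^ d * δ) ≤ capS (d + 1) s := by
    have h2 : C * (ENNReal.ofReal (Real.sqrt (1 - (s + δ) ^ 2) ^ d) * ENNReal.ofReal δ) ≤
        sg (d + 1 + 2) {x : S (d + 1 + 2) | s < ⟪e0 (d + 1), (x : E (d + 1 + 2))⟫} := by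
      rw [hA2]
      exact mul_le_mul' le_rfl hge
    have h3 := ENNReal.toReal_mono (measure_ne_top _ _) h2
    rw [ENNReal.toReal_mul, ENNReal.toReal_mul, ENNReal.toReal_ofReal (by positivity),
      ENNReal.toReal_ofReal hδ.le] at h3
    exact h3
  unfold pc
  rw [le_div_iff₀ hV]
  calc δ / 2 * Real.sqrt (1 - (s + δ) ^ 2) ^ d * (sg (d + 1 + 2)).real univ
      ≤ δ / 2 * Real.sqrt (1 - (s + δ) ^ 2) ^ d * (C.toReal * 2) := by gcongr
    _ = C.toReal * (Real.sqrt (1 - (s + δ) ^ 2) ^ d * δ) := by ring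
    _ ≤ _ := hcle

end Pool.Agent.U279.KR
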