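import Pool.Agent.U279.KR.Num

set_option autoImplicit false

/-! Supersaturation for caps of angle `60` degrees. -/

open MeasureTheory Metric Set Filter Topology
open scoped ENNReal RealInnerProductSpace Pointwise

namespace Pool.Agent.U279.KR

open Pool.Agent.N303.SH

lemma gg_main {h : ℝ} (hh : 0 < h) : gg (h / 3) + gg h - gg (4 * h / 3) =
    h * Real.log (3 / 4) - (2 * h / 3) * Real.log 2 := by
  unfold gg
  have e4 : Real.log (4 * h / 3) = 2 * Real.log 2 + Real.log h - Real.log 3 := by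
    rw [Real.log_div (by positivity) (by norm_num), Real.log_mul (by norm_num) hh.ne',
      show (4 : ℝ) = 2 ^ 2 by norm_num, Real.log_pow]
    push_cast
    ring
  have e3 : Real.log (h / 3) = Real.log h - Real.log 3 := Real.log_div hh.ne' (by norm_num)
  have e34 : Real.log (3 / 4) = Real.log 3 - 2 * Real.log 2 := by
    rw [Real.log_div (by norm_num) (by norm_num), show (4 : ℝ) = 2 ^ 2 by norm_num, Real.log_pow]
    push_cast
    ring
  rw [e4, e3, e34]
  ring

/-- the constant of the eigenvalues of high degree -/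
noncomputable def bb (c : ℕ) : ℝ := (((1 : ℝ) / 2) ^ (2 * ((c + 2) / 6) - (c / 13 + 1)))⁻¹ *
  ∏ j ∈ Finset.range ((c + 2) / 6), ((j : ℝ) + 1) / (((c : ℝ) + 2) / 2 + j)

lemma bb_le {c : ℕ} (hc : 40 ≤ c) : bb c ≤ Real.exp ((((c : ℝ) + 2) / 2) * Real.log (3 / 4) -
    (c / 13) * Real.log 2 + 3 + 3 * Real.log (4 * (((c : ℝ) + 2) / 2) / 3)) := by
  set h : ℝ := ((c : ℝ) + 2) / 2 with hh
  have hc' : (40 : ℝ) ≤ c := by exact_mod_cast hc
  have hh1 : 21 ≤ h := by rw [hh]; linarith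
  set m := (c + 2) / 6 with hm
  have hm1 : (m : ℝ) ≤ h / 3 := by
    have h1 : 6 * m ≤ c + 2 := Nat.mul_div_le (c + 2) 6
    have h2 : (6 : ℝ) * m ≤ (c : ℝ) + 2 := by exact_mod_cast h1
    rw [hh]; linarith
  have hm2 : h / 3 ≤ m + 1 := by
    have h1 : c + 2 < 6 * (m + 1) := by omega
    have h2 : (c : ℝ) + 2 < 6 * ((m : ℝ) + 1) := by exact_mod_cast h1
    rw [hh]; linarith
  have hprod := prod_le (h := h) (by linarith) m
  have hK : (c : ℝ) / 13 ≤ ((c / 13 + 1 : ℕ) : ℝ) := by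
    have h1 : c < 13 * (c / 13 + 1) := by omega
    have h2 : (c : ℝ) < 13 * ((c / 13 + 1 : ℕ) : ℝ) := by exact_mod_cast h1
    linarith
  have hKm : c / 13 + 1 ≤ 2 * m := by omega
  have hpow : (((1 : ℝ) / 2) ^ (2 * m - (c / 13 + 1)))⁻¹ ≤
      Real.exp ((2 * h / 3 - c / 13) * Real.log 2) := by
    rw [one_div, inv_pow, inv_inv, ← Real.rpow_natCast, Real.rpow_def_of_pos (by norm_num)]
    apply Real.exp_le_exp.2
    rw [mul_comm]
    refine mul_le_mul_of_nonneg_right ?_ (Real.log_nonneg (by norm_num))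
    rw [Nat.cast_sub hKm]
    push_cast at hK ⊢
    linarith
  have hg1 : gg ((m : ℝ) + 1) ≤ gg (h / 3) + 1 + Real.log (4 * h / 3) := by
    have h1 : gg ((m : ℝ) + 1) ≤ gg (h / 3 + 1) :=
      gg_mono (by have : (0 : ℝ) ≤ m := Nat.cast_nonneg m
                  linarith) (by linarith)
    have h2 := gg_le (x := h / 3) (by linarith)
    have h3 : Real.log (h / 3 + 1) ≤ Real.log (4 * h / 3) := Real.log_le_log (by linarith) (by linarith)
    linarith
  have hg2 : gg (h - 1) ≤ gg h := gg_mono (by linarith) (by linarith)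
  have hg3 : gg (4 * h / 3) - 2 - 2 * Real.log (4 * h / 3) ≤ gg (h + m - 1) := by
    have h1 : gg (4 * h / 3 - 2) ≤ gg (h + m - 1) := gg_mono (by linarith) (by linarith)
    have h2 := gg_le (x := 4 * h / 3 - 2) (by linarith)
    have h3 := gg_le (x := 4 * h / 3 - 1) (by linarith)
    rw [show 4 * h / 3 - 2 + 1 = 4 * h / 3 - 1 by ring] at h2
    rw [show 4 * h / 3 - 1 + 1 = 4 * h / 3 by ring] at h3
    have h4 : Real.log (4 * h / 3 - 1) ≤ Real.log (4 * h / 3) := Real.log_le_log (by linarith) (by linarith)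
    linarith
  have hmain := gg_main (h := h) (by linarith)
  unfold bb
  rw [← hh, ← hm]
  calc (((1 : ℝ) / 2) ^ (2 * m - (c / 13 + 1)))⁻¹ *
      ∏ j ∈ Finset.range m, ((j : ℝ) + 1) / (h + j)
      ≤ Real.exp ((2 * h / 3 - c / 13) * Real.log 2) *
        Real.exp (gg (m + 1) + gg (h - 1) - gg (h + m - 1)) :=
        mul_le_mul hpow hprod (Finset.prod_nonneg fun j _ => by positivity) (Real.exp_pos _).le
    _ ≤ _ := by
        rw [← Real.exp_add]
        apply Real.exp_le_exp.2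
        linarith

lemma log_small : ∃ c0 : ℕ, ∀ c : ℕ, c0 ≤ c →
    20 + 3 * Real.log (4 * (((c : ℝ) + 2) / 2) / 3) ≤ 2 / 1000 * c := by
  have h1 : Tendsto (fun c : ℕ => Real.log (c : ℝ) / c) atTop (𝓝 0) := by
    have := Real.isLittleO_log_id_atTop.tendsto_div_nhds_zero.comp tendsto_natCast_atTop_atTop
    exact this
  have h2 := (h1.eventually (gt_mem_nhds (show (0 : ℝ) < 1 / 6000 by norm_num)))
  obtain ⟨c1, hc1⟩ := eventually_atTop.1 h2
  refine ⟨max c1 1000000, fun c hc => ?_⟩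
  have hc2 := hc1 c (le_trans (le_max_left _ _) hc)
  have hc3 : (1000000 : ℝ) ≤ c := by exact_mod_cast le_trans (le_max_right _ _) hc
  have hc0 : (0 : ℝ) < c := by linarith
  rw [div_lt_iff₀ hc0] at hc2
  have h3 : Real.log (4 * (((c : ℝ) + 2) / 2) / 3) ≤ Real.log c :=
    Real.log_le_log (by positivity) (by linarith)
  linarith

/-- **The numerical bound.** -/
theorem bb_small : ∃ c0 : ℕ, ∀ c : ℕ, c0 ≤ c → bb c ≤ Real.exp (-((c : ℝ) + 2) / 20) * pc c (1 / 2) := by
  obtain ⟨c1, hc1⟩ := log_small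
  refine ⟨max c1 41, fun c hc => ?_⟩
  have hc2 := hc1 c (le_trans (le_max_left _ _) hc)
  have hc3 : 41 ≤ c := le_trans (le_max_right _ _) hc
  have hb := bb_le (c := c) (by omega)
  obtain ⟨d, rfl⟩ : ∃ d, c = d + 1 := ⟨c - 1, by omega⟩
  have hp := pc_ge d (s := 1 / 2) (δ := 1 / 1000) (by norm_num) (by norm_num) (by norm_num)
  have hx : (1 : ℝ) - (1 / 2 + 1 / 1000) ^ 2 = 748999 / 1000000 := by norm_num
  rw [hx] at hp
  have hpow : Real.exp ((d : ℝ) / 2 * Real.log (748999 / 1000000)) =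
      Real.sqrt (748999 / 1000000) ^ d := by
    rw [← Real.rpow_natCast, Real.sqrt_eq_rpow, ← Real.rpow_mul (by norm_num),
      Real.rpow_def_of_pos (by norm_num)]
    congr 1
    ring
  have hl2 := Real.log_two_gt_d9
  have hl34 : Real.log (3 / 4) ≤ Real.log (748999 / 1000000) + 1337 / 1000000 := by
    have h1 : Real.log ((3 / 4) / (748999 / 1000000)) ≤ (3 / 4) / (748999 / 1000000) - 1 :=
      Real.log_le_sub_one_of_pos (by norm_num)
    rw [Real.log_div (by norm_num) (by norm_num)] at h1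
    have h2 : (3 / 4 : ℝ) / (748999 / 1000000) - 1 ≤ 1337 / 1000000 := by norm_num
    linarith
  have hl3 : Real.log (3 / 4) ≤ 0 := Real.log_nonpos (by norm_num) (by norm_num)
  have hl5 : -(8 : ℝ) ≤ Real.log (1 / 1000 / 2) := by
    rw [Real.le_log_iff_exp_le (by norm_num)]
    have h1 := Real.exp_one_gt_d9
    have h2 : Real.exp (-8) = (Real.exp 1 ^ 8)⁻¹ := by
      rw [← Real.exp_nat_mul, ← Real.exp_neg]
      norm_num
    rw [h2]
    rw [inv_le_comm₀ (by positivity) (by norm_num)]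
    calc ((1 : ℝ) / 1000 / 2)⁻¹ = 2000 := by norm_num
      _ ≤ (2.7 : ℝ) ^ 8 := by norm_num
      _ ≤ Real.exp 1 ^ 8 := pow_le_pow_left₀ (by norm_num) (by linarith) 8
  have hd : (40 : ℝ) ≤ d := by
    have : 40 ≤ d := by omega
    exact_mod_cast this
  refine hb.trans ?_
  have h6 : Real.exp (-(((d + 1 : ℕ) : ℝ) + 2) / 20) * (1 / 1000 / 2 *
      Real.sqrt (748999 / 1000000) ^ d) ≤ Real.exp (-(((d + 1 : ℕ) : ℝ) + 2) / 20) * pc (d + 1) (1 / 2) :=
    mul_le_mul_of_nonneg_left hp (Real.exp_pos _).le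
  refine le_trans ?_ h6
  rw [← hpow, ← Real.exp_log (show (0 : ℝ) < 1 / 1000 / 2 by norm_num), ← Real.exp_add, ← Real.exp_add]
  apply Real.exp_le_exp.2
  push_cast at hc2 ⊢
  have k1 := mul_le_mul_of_nonneg_left hl34 (show (0 : ℝ) ≤ d / 2 by linarith)
  have k2 := mul_le_mul_of_nonneg_left hl2.le (show (0 : ℝ) ≤ (d + 1) / 13 by linarith)
  linarith

/-- the lower bound for all eigenvalues -/
lemma la_ge {c : ℕ} (hc : 40 ≤ c) (j k : ℕ) :
    -(bb c * (sg (c + 2)).real univ) ≤ la (e0 c) (e1 c) (ph (1 / 2) j) k := by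
  have hV := sg_pos c
  have hb : 0 ≤ bb c := by
    unfold bb
    refine mul_nonneg (by positivity) (Finset.prod_nonneg fun j _ => by positivity)
  rcases le_or_gt k (c / 13) with h | h
  · have h1 := (la_pos (c := c) (by omega) (s := 1 / 2) (ρ := 1 / 4) (by norm_num) (by norm_num)
      (by norm_num) (c / 13) (fun i hi => ?_) k h _ (ph_Fs (1 / 2) j)).1
    · have := mul_nonneg hb hV.le
      linarith
    · have h2 : 13 * i ≤ c := by omega
      have h3 : (13 : ℝ) * i ≤ c := by exact_mod_cast h2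
      linarith
  · have h1 := la_small (c := c) (s := 1 / 2) (by norm_num) (ph_Fs (1 / 2) j) (ph_le (1 / 2) j)
      (K := c / 13 + 1) (k := k) (m := (c + 2) / 6) (by omega) (by omega)
    rw [mq_eq] at h1
    have h2 := (abs_le.1 h1).1
    refine le_trans (le_of_eq ?_) h2
    unfold bb
    ring

lemma pc_pos {c : ℕ} (hc : 1 ≤ c) {s : ℝ} (hs : 0 < s) (hs1 : s < 1) : 0 < pc c s := by
  obtain ⟨d, rfl⟩ : ∃ d, c = d + 1 := ⟨c - 1, by omega⟩
  refine lt_of_lt_of_le ?_ (pc_ge d hs (δ := (1 - s) / 2) (by linarith) (by linarith))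
  have : 0 < 1 - (s + (1 - s) / 2) ^ 2 := by nlinarith
  have h2 := Real.sqrt_pos.2 this
  have h3 : 0 < (1 - s) / 2 / 2 := by linarith
  positivity

/-- **Supersaturation for caps of angle 60 degrees.** -/
theorem sup60 : ∃ c0 : ℕ, ∀ c : ℕ, c0 ≤ c → ∀ A : Set (S (c + 2)), MeasurableSet A →
    pc c (1 / 2) * ((mu (c + 2)).real A ^ 2 - Real.exp (-((c : ℝ) + 2) / 20) * (mu (c + 2)).real A) ≤
      ∫ w in A, (mu (c + 2)).real (A ∩ cap (c + 2) (1 / 2) w) ∂(mu (c + 2)) := by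
  obtain ⟨c1, h1⟩ := bb_small
  refine ⟨max c1 40, fun c hc A hA => ?_⟩
  have hc1 := h1 c (le_trans (le_max_left _ _) hc)
  have hc2 : 40 ≤ c := le_trans (le_max_right _ _) hc
  have hV := sg_pos c
  have hb : 0 ≤ bb c := by
    unfold bb
    refine mul_nonneg (by positivity) (Finset.prod_nonneg fun j _ => by positivity)
  have h2 := sup_mu (mul_nonneg hb hV.le) (la_ge hc2) hA
  rw [mul_div_cancel_right₀ _ hV.ne'] at h2
  refine le_trans ?_ h2
  have h3 := mul_le_mul_of_nonneg_right hc1 (measureReal_nonneg (μ := mu (c + 2)) (s := A))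
  linarith

end Pool.Agent.U279.KR
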