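import Pool.Agent.U279.KR.Mom

set_option autoImplicit false

/-! The quadratic form of a zonal kernel. -/

open MeasureTheory Metric Set Filter Topology
open scoped ENNReal RealInnerProductSpace Pointwise

namespace Pool.Agent.U279.KR

open Pool.Agent.N303.SH

variable {n : ℕ}

/-- the square of the norm of the component of degree `k` -/
noncomputable def Nk (k : ℕ) (f : C(S n, ℝ)) : ℝ := ∑ i, ip (e n k i) f ^ 2

lemma Nk_nonneg (k : ℕ) (f : C(S n, ℝ)) : 0 ≤ Nk k f := by unfold Nk; positivity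

lemma ip_pk (k : ℕ) (f : C(S n, ℝ)) : ip f (pk k f) = Nk k f := by
  unfold pk Nk
  rw [ip_sum]
  refine Finset.sum_congr rfl fun i _ => ?_
  rw [ip_smul, ip_comm f, sq]

lemma ip_eq_sum {m : ℕ} {f : C(S n, ℝ)} (hf : f ∈ P n m) :
    ip f f = ∑ k ∈ Finset.range (m + 1), Nk k f := by
  have h1 : ip f f = ip f (∑ k ∈ Finset.range (m + 1), pk k f) := by
    rw [← exp_P m f hf]
  rw [h1, ip_sum]
  exact Finset.sum_congr rfl fun k _ => ip_pk k f

lemma one_H : (1 : C(S n, ℝ)) ∈ H n 0 := ⟨one_P 0, fun j hj => absurd hj (Nat.not_lt_zero j)⟩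

lemma ip_one_sq (f : C(S n, ℝ)) : ip 1 f ^ 2 ≤ (sg n).real univ * Nk 0 f := by
  have h1 : ip 1 f = ∑ i, ip (e n 0 i) 1 * ip (e n 0 i) f := by
    have h2 := e_exp 0 (one_H (n := n))
    have h3 : ip f 1 = ip f (∑ i, ip (e n 0 i) 1 • e n 0 i) := by rw [← h2]
    rw [ip_comm, h3, ip_sum]
    refine Finset.sum_congr rfl fun i _ => ?_
    rw [ip_smul, ip_comm f]
  have h4 : (sg n).real univ = ∑ i, ip (e n 0 i) 1 ^ 2 := by
    have h5 : ip (1 : C(S n, ℝ)) 1 = (sg n).real univ := by
      unfold ip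
      simp
    rw [← h5]
    have h2 := e_exp 0 (one_H (n := n))
    have h3 : ip (1 : C(S n, ℝ)) 1 = ip 1 (∑ i, ip (e n 0 i) 1 • e n 0 i) := by rw [← h2]
    rw [h3, ip_sum]
    refine Finset.sum_congr rfl fun i _ => ?_
    rw [ip_smul, ip_comm 1, sq]
  rw [h1, h4]
  exact Finset.sum_mul_sq_le_sq_mul_sq _ _ _

variable {c : ℕ} {s : ℝ} {φ : ℝ → ℝ}

/-- the operator applied to a polynomial -/
lemma To_P_eq (hφ : Continuous φ) {m : ℕ} {f : C(S (c + 2), ℝ)} (hf : f ∈ P (c + 2) m)
    (w : S (c + 2)) : To φ f w = ∑ k ∈ Finset.range (m + 1), la (e0 c) (e1 c) φ k * pk k f w := by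
  have key : ∀ (N : ℕ) (F : ℕ → C(S (c + 2), ℝ)), To φ (∑ k ∈ Finset.range N, F k) w =
      ∑ k ∈ Finset.range N, To φ (F k) w := by
    intro N F
    induction N with
    | zero =>
      unfold To
      simp
    | succ N ih => rw [Finset.sum_range_succ, Finset.sum_range_succ, To_add hφ, ih]
  have h1 : To φ f w = To φ (∑ k ∈ Finset.range (m + 1), pk k f) w := by
    rw [← exp_P m f hf]
  rw [h1, key]
  exact Finset.sum_congr rfl fun k _ => FH (on_e c) hφ k (pk_mem k f) w

/-- the quadratic form of a polynomial -/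
lemma quad_P (hφ : Continuous φ) {m : ℕ} {f : C(S (c + 2), ℝ)} (hf : f ∈ P (c + 2) m) :
    ∫ w, f w * To φ f w ∂(sg (c + 2)) =
      ∑ k ∈ Finset.range (m + 1), la (e0 c) (e1 c) φ k * Nk k f := by
  have h1 : ∀ w, f w * To φ f w =
      ∑ k ∈ Finset.range (m + 1), la (e0 c) (e1 c) φ k * (f w * pk k f w) := by
    intro w
    rw [To_P_eq hφ hf, Finset.mul_sum]
    exact Finset.sum_congr rfl fun k _ => by ring
  simp only [h1]
  rw [integral_finsetSum _ fun k _ => (int_mul f (pk k f)).const_mul _]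
  refine Finset.sum_congr rfl fun k _ => ?_
  rw [integral_const_mul, ← ip_pk]
  rfl

lemma sg_pos (c : ℕ) : 0 < (sg (c + 2)).real univ := by
  have h := mq_zero c
  rw [measureReal_def, ENNReal.toReal_pos_iff]
  refine ⟨?_, measure_lt_top _ _⟩
  rw [pos_iff_ne_zero, ne_eq, Measure.measure_univ_eq_zero]
  exact Measure.toSphere_ne_zero _

/-- **The lower bound for polynomials.** -/
lemma quad_ge (hφ : Fs s φ) {B : ℝ} (hB : 0 ≤ B)
    (hla : ∀ k, -B ≤ la (e0 c) (e1 c) φ k) {m : ℕ} {f : C(S (c + 2), ℝ)} (hf : f ∈ P (c + 2) m) :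
    la (e0 c) (e1 c) φ 0 * ip 1 f ^ 2 / (sg (c + 2)).real univ - B * ip f f ≤
      ∫ w, f w * To φ f w ∂(sg (c + 2)) := by
  have hσ := sg_pos c
  have h0 := la_zero_nonneg (c := c) hφ.nonneg
  rw [quad_P hφ.cont hf, Finset.sum_range_succ', ip_eq_sum hf, Finset.sum_range_succ']
  have h1 : la (e0 c) (e1 c) φ 0 * ip 1 f ^ 2 / (sg (c + 2)).real univ ≤
      la (e0 c) (e1 c) φ 0 * Nk 0 f := by
    rw [mul_div_assoc]
    refine mul_le_mul_of_nonneg_left ?_ h0
    rw [div_le_iff₀ hσ, mul_comm]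
    exact ip_one_sq f
  have h2 : -B * ∑ k ∈ Finset.range m, Nk (k + 1) f ≤
      ∑ k ∈ Finset.range m, la (e0 c) (e1 c) φ (k + 1) * Nk (k + 1) f := by
    rw [Finset.mul_sum]
    exact Finset.sum_le_sum fun k _ => mul_le_mul_of_nonneg_right (hla _) (Nk_nonneg _ _)
  have h3 := mul_nonneg hB (Nk_nonneg 0 f)
  linarith

lemma poly_near (F : C(S n, ℝ)) {ε : ℝ} (hε : 0 < ε) : ∃ N, ∃ p ∈ P n N, ‖F - p‖ < ε := by
  have hsep : (vC (n := n)).range.SeparatesPoints := by
    intro x y hxy
    have h1 : ∃ i, (x : E n) i ≠ (y : E n) i := by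
      by_contra h
      push Not at h
      apply hxy
      apply Subtype.ext
      ext i
      exact h i
    obtain ⟨i, hi⟩ := h1
    refine ⟨xc i, ⟨xc i, ?_, rfl⟩, hi⟩
    exact ⟨MvPolynomial.X i, by simp [vC]⟩
  obtain ⟨⟨g, p, hp⟩, hg⟩ :=
    ContinuousMap.exists_mem_subalgebra_near_continuousMap_of_separatesPoints _ hsep F ε hε
  refine ⟨p.totalDegree, vC p, mem_P.2 ⟨p, le_rfl, rfl⟩, ?_⟩
  rw [norm_sub_rev]
  have : (vC p : C(S n, ℝ)) = g := hp
  rw [this]
  exact hg

/-- polynomials near the indicator of a set -/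
lemma approx {K : Set (S n)} (hK : MeasurableSet K) {ε : ℝ} (hε : 0 < ε) :
    ∃ m, ∃ p ∈ P n m, (∀ x, |p x| ≤ 2) ∧
      ∫ x, |K.indicator (fun _ => (1 : ℝ)) x - p x| ∂(sg n) ≤ ε := by
  have hi : Integrable (K.indicator fun _ => (1 : ℝ)) (sg n) :=
    (integrable_const (1 : ℝ)).indicator hK
  obtain ⟨g, hg, hgi⟩ := hi.exists_boundedContinuous_integral_sub_le (half_pos hε)
  have hk01 : ∀ x, 0 ≤ K.indicator (fun _ => (1 : ℝ)) x ∧ K.indicator (fun _ => (1 : ℝ)) x ≤ 1 := by
    intro x
    by_cases hx : x ∈ K <;> simp [hx]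
  set F : C(S n, ℝ) := ⟨fun x => max 0 (min 1 (g x)), by fun_prop⟩ with hF
  have hF01 : ∀ x, 0 ≤ F x ∧ F x ≤ 1 := by
    intro x
    change 0 ≤ max 0 (min 1 (g x)) ∧ max 0 (min 1 (g x)) ≤ 1
    exact ⟨le_max_left _ _, max_le zero_le_one (min_le_left _ _)⟩
  have hFg : ∀ x, |K.indicator (fun _ => (1 : ℝ)) x - F x| ≤
      ‖K.indicator (fun _ => (1 : ℝ)) x - g x‖ := by
    intro x
    obtain ⟨a, b⟩ := hk01 x
    change |_ - max 0 (min 1 (g x))| ≤ _
    rw [Real.norm_eq_abs]
    set t := K.indicator (fun _ => (1 : ℝ)) x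
    rcases le_total (g x) 0 with h1 | h1
    · rw [min_eq_right (by linarith), max_eq_left h1, sub_zero, abs_of_nonneg a,
        abs_of_nonneg (by linarith)]
      linarith
    · rcases le_total (g x) 1 with h2 | h2
      · rw [min_eq_right h2, max_eq_right h1]
      · rw [min_eq_left h2, max_eq_right zero_le_one, abs_of_nonpos (by linarith),
          abs_of_nonpos (by linarith)]
        linarith
  set V := (sg n).real univ + 1 with hV
  have hVp : 0 < V := by rw [hV]; positivity
  obtain ⟨m, p, hp, hpF⟩ := poly_near F (ε := min 1 (ε / 2 / V)) (by positivity)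
  have hpx : ∀ x, |F x - p x| ≤ min 1 (ε / 2 / V) := by
    intro x
    have := (F - p).norm_coe_le_norm x
    rw [Real.norm_eq_abs] at this
    exact this.trans hpF.le
  refine ⟨m, p, hp, fun x => ?_, ?_⟩
  · have h1 := (hpx x).trans (min_le_left _ _)
    have h2 := hF01 x
    rw [abs_le] at h1 ⊢
    constructor <;> linarith
  · have i1 : Integrable (fun x => |K.indicator (fun _ => (1 : ℝ)) x - p x|) (sg n) :=
      (hi.sub (int_c p)).abs
    have i2 : Integrable (fun x => ‖K.indicator (fun _ => (1 : ℝ)) x - g x‖) (sg n) :=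
      (hi.sub hgi).norm
    calc ∫ x, |K.indicator (fun _ => (1 : ℝ)) x - p x| ∂(sg n)
        ≤ ∫ x, (‖K.indicator (fun _ => (1 : ℝ)) x - g x‖ + ε / 2 / V) ∂(sg n) := by
          refine integral_mono i1 (i2.add (integrable_const _)) fun x => ?_
          calc |K.indicator (fun _ => (1 : ℝ)) x - p x|
              = |(K.indicator (fun _ => (1 : ℝ)) x - F x) + (F x - p x)| := by ring_nf
            _ ≤ _ := (abs_add_le _ _).trans
              (add_le_add (hFg x) ((hpx x).trans (min_le_right _ _)))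
      _ ≤ ε / 2 + ε / 2 := by
          rw [integral_add i2 (integrable_const _), integral_const, smul_eq_mul]
          refine add_le_add hg ?_
          have h3 : (sg n).real univ * (ε / 2 / V) ≤ V * (ε / 2 / V) := by
            refine mul_le_mul_of_nonneg_right (by rw [hV]; linarith) (by positivity)
          refine h3.trans (le_of_eq ?_)
          field_simp
      _ = ε := by ring

/-- **The lower bound for sets.** -/
lemma quad_set (hφ : Fs s φ) (h1 : ∀ t, φ t ≤ 1) {B : ℝ} (hB : 0 ≤ B)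
    (hla : ∀ k, -B ≤ la (e0 c) (e1 c) φ k) {K : Set (S (c + 2))} (hK : MeasurableSet K) :
    la (e0 c) (e1 c) φ 0 * (sg (c + 2)).real K ^ 2 / (sg (c + 2)).real univ -
      B * (sg (c + 2)).real K ≤
      ∫ w in K, ∫ x in K, φ ⟪(w : E (c + 2)), (x : E (c + 2))⟫ ∂(sg (c + 2)) ∂(sg (c + 2)) := by
  have hσ := sg_pos c
  set σ := sg (c + 2) with hσd
  set χ : S (c + 2) → ℝ := K.indicator fun _ => (1 : ℝ) with hχ
  have hχ01 : ∀ x, 0 ≤ χ x ∧ χ x ≤ 1 := by
    intro x
    by_cases hx : x ∈ K <;> simp [hχ, hx]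
  have hχi : Integrable χ σ := (integrable_const (1 : ℝ)).indicator hK
  have hl0 := la_zero_nonneg (c := c) hφ.nonneg
  have hφc := hφ.cont
  have hφ0 := hφ.nonneg
  set L := la (e0 c) (e1 c) φ 0
  set V := σ.real univ
  -- the set as an integral
  have hKint : σ.real K = ∫ x, χ x ∂σ := by
    rw [hχ, integral_indicator_const _ hK, smul_eq_mul, mul_one]
  have hQ : ∫ w in K, ∫ x in K, φ ⟪(w : E (c + 2)), (x : E (c + 2))⟫ ∂σ ∂σ =
      ∫ w, χ w * ∫ x, φ ⟪(w : E (c + 2)), (x : E (c + 2))⟫ * χ x ∂σ ∂σ := by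
    rw [← integral_indicator hK]
    congr 1
    ext w
    by_cases hw : w ∈ K
    · rw [Set.indicator_of_mem hw, hχ, Set.indicator_of_mem hw, one_mul, ← integral_indicator hK]
      congr 1
      ext x
      by_cases hx : x ∈ K <;> simp [hx]
    · rw [Set.indicator_of_notMem hw, hχ, Set.indicator_of_notMem hw, zero_mul]
  rw [hQ]
  refine le_of_forall_pos_le_add fun δ hδ => ?_
  -- total error factor
  set M := L * 3 + B * 3 + 3 * V + 1 with hM
  have hMp : 0 < M := by positivity
  obtain ⟨m, p, hp, hp2, hpe⟩ := approx hK (ε := δ / M) (by positivity)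
  set η := ∫ x, |χ x - p x| ∂σ with hη
  have hη0 : 0 ≤ η := integral_nonneg fun x => abs_nonneg _
  have hpi : Integrable p σ := int_c p
  have hdi : Integrable (fun x => |χ x - p x|) σ := (hχi.sub hpi).abs
  have key := quad_ge hφ hB hla hp
  -- the mean
  have e1 : |ip 1 p - σ.real K| ≤ η := by
    rw [hKint]
    unfold ip
    have : ∫ x, (1 : C(S (c + 2), ℝ)) x * p x ∂σ - ∫ x, χ x ∂σ = ∫ x, (p x - χ x) ∂σ := by
      rw [integral_sub hpi hχi]
      simp [hσd]
    rw [this]
    refine (abs_integral_le_integral_abs).trans (le_of_eq ?_)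
    rw [hη]
    congr 1
    ext x
    rw [abs_sub_comm]
  have hKV : σ.real K ≤ V := measureReal_mono (Set.subset_univ _) (measure_ne_top _ _)
  have hK0 : 0 ≤ σ.real K := measureReal_nonneg
  have hip2 : |ip 1 p| ≤ 2 * V := by
    unfold ip
    refine (abs_integral_le_integral_abs).trans ?_
    calc ∫ x, |(1 : C(S (c + 2), ℝ)) x * p x| ∂σ ≤ ∫ _, (2 : ℝ) ∂σ := by
          refine integral_mono (int_r (by fun_prop)) (integrable_const _) fun x => ?_
          simpa using hp2 x
      _ = 2 * V := by rw [integral_const, smul_eq_mul, mul_comm]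
  have e1' : σ.real K ^ 2 / V ≤ ip 1 p ^ 2 / V + 3 * η := by
    have h2 : σ.real K ^ 2 ≤ ip 1 p ^ 2 + 3 * V * η := by
      have h3 : σ.real K ^ 2 - ip 1 p ^ 2 ≤ |ip 1 p - σ.real K| * (3 * V) := by
        calc σ.real K ^ 2 - ip 1 p ^ 2 ≤ |σ.real K ^ 2 - ip 1 p ^ 2| := le_abs_self _
          _ = |ip 1 p - σ.real K| * |ip 1 p + σ.real K| := by
              rw [← abs_mul, ← abs_neg]
              congr 1
              ring
          _ ≤ _ := by
              refine mul_le_mul_of_nonneg_left ?_ (abs_nonneg _)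
              refine (abs_add_le _ _).trans ?_
              rw [abs_of_nonneg hK0]
              linarith
      have h4 : |ip 1 p - σ.real K| * (3 * V) ≤ η * (3 * V) :=
        mul_le_mul_of_nonneg_right e1 (by positivity)
      linarith
    rw [div_le_iff₀ hσ, add_mul, div_mul_cancel₀ _ hσ.ne']
    linarith
  -- the square norm
  have e2 : ip p p ≤ σ.real K + 3 * η := by
    rw [hKint]
    unfold ip
    have h2 : ∫ x, p x * p x ∂σ ≤ ∫ x, (χ x + 3 * |χ x - p x|) ∂σ := by
      refine integral_mono (int_mul p p) (hχi.add (hdi.const_mul 3)) fun x => ?_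
      have h3 : χ x * χ x = χ x := by
        by_cases hx : x ∈ K <;> simp [hχ, hx]
      have h4 : p x * p x - χ x * χ x ≤ 3 * |χ x - p x| := by
        calc p x * p x - χ x * χ x = (p x - χ x) * (p x + χ x) := by ring
          _ ≤ |(p x - χ x) * (p x + χ x)| := le_abs_self _
          _ = |χ x - p x| * |p x + χ x| := by rw [abs_mul, abs_sub_comm]
          _ ≤ |χ x - p x| * 3 := by
              refine mul_le_mul_of_nonneg_left ?_ (abs_nonneg _)
              refine (abs_add_le _ _).trans ?_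
              have := hp2 x
              have := hχ01 x
              rw [abs_of_nonneg this.1]
              linarith
          _ = _ := mul_comm _ _
      change p x * p x ≤ χ x + 3 * |χ x - p x|
      linarith
    rwa [integral_add hχi (hdi.const_mul 3), integral_const_mul] at h2
  -- the quadratic form
  have hin : ∀ w : S (c + 2), Integrable (fun x : S (c + 2) =>
      φ ⟪(w : E (c + 2)), (x : E (c + 2))⟫ * χ x) σ := by
    intro w
    refine Integrable.bdd_mul (c := 1) hχi ?_ ?_
    · exact (by fun_prop : Continuous fun x : S (c + 2) =>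
        φ ⟪(w : E (c + 2)), (x : E (c + 2))⟫).aestronglyMeasurable
    · refine Eventually.of_forall fun x => ?_
      rw [Real.norm_eq_abs, abs_of_nonneg (hφ0 _)]
      exact h1 _
  have hTχ : ∀ w : S (c + 2), |∫ x, φ ⟪(w : E (c + 2)), (x : E (c + 2))⟫ * χ x ∂σ - To φ p w| ≤ η := by
    intro w
    unfold To
    have hpp : Integrable (fun x : S (c + 2) => φ ⟪(w : E (c + 2)), (x : E (c + 2))⟫ * p x) σ :=
      int_r (by fun_prop)
    rw [← integral_sub (hin w) hpp]
    refine (abs_integral_le_integral_abs).trans ?_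
    refine integral_mono (((hin w).sub hpp).abs) hdi fun x => ?_
    simp only
    rw [← mul_sub, abs_mul, abs_of_nonneg (hφ0 _)]
    exact mul_le_of_le_one_left (abs_nonneg _) (h1 _)
  have hTp : ∀ w, |To φ p w| ≤ 2 * V := by
    intro w
    unfold To
    refine (abs_integral_le_integral_abs).trans ?_
    calc ∫ x, |φ ⟪(w : E (c + 2)), (x : E (c + 2))⟫ * p x| ∂σ ≤ ∫ _, (2 : ℝ) ∂σ := by
          refine integral_mono (int_r (by fun_prop)) (integrable_const _) fun x => ?_
          simp only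
          rw [abs_mul, abs_of_nonneg (hφ0 _)]
          calc φ _ * |p x| ≤ 1 * 2 := mul_le_mul (h1 _) (hp2 x) (abs_nonneg _) zero_le_one
            _ = 2 := one_mul _
      _ = 2 * V := by rw [integral_const, smul_eq_mul, mul_comm]
  have hTc : Continuous fun w => To φ p w := by
    have : (fun w => To φ p w) = fun w =>
        ∑ k ∈ Finset.range (m + 1), la (e0 c) (N303.SH.e1 c) φ k * pk k p w := by
      funext w
      exact To_P_eq hφc hp w
    rw [this]
    fun_prop
  have hUc : Measurable fun w : S (c + 2) =>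
      ∫ x, φ ⟪(w : E (c + 2)), (x : E (c + 2))⟫ * χ x ∂σ := by
    have hm : StronglyMeasurable (Function.uncurry fun w x : S (c + 2) =>
        φ ⟪(w : E (c + 2)), (x : E (c + 2))⟫ * χ x) := by
      refine StronglyMeasurable.mul ?_ ?_
      · exact (by unfold Function.uncurry; fun_prop : Continuous (Function.uncurry
          fun w x : S (c + 2) => φ ⟪(w : E (c + 2)), (x : E (c + 2))⟫)).stronglyMeasurable
      · exact ((measurable_const.indicator hK).comp measurable_snd).stronglyMeasurable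
    exact hm.integral_prod_right.measurable
  have hχU : Integrable (fun w => χ w * ∫ x, φ ⟪(w : E (c + 2)), (x : E (c + 2))⟫ * χ x ∂σ) σ := by
    refine Integrable.mono' (g := fun _ => 2 * V + η) (integrable_const _) ?_ ?_
    · exact ((measurable_const.indicator hK).mul hUc).aestronglyMeasurable
    · refine Eventually.of_forall fun w => ?_
      rw [Real.norm_eq_abs, abs_mul, abs_of_nonneg (hχ01 w).1]
      have h3 := hTχ w
      have h4 := hTp w
      have h5 : |∫ x, φ ⟪(w : E (c + 2)), (x : E (c + 2))⟫ * χ x ∂σ| ≤ 2 * V + η := by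
        rw [abs_le] at *
        constructor <;> linarith [h3.1, h3.2, h4.1, h4.2]
      calc χ w * |∫ x, φ ⟪(w : E (c + 2)), (x : E (c + 2))⟫ * χ x ∂σ| ≤ 1 * (2 * V + η) :=
            mul_le_mul (hχ01 w).2 h5 (abs_nonneg _) zero_le_one
        _ = _ := one_mul _
  have e3 : ∫ w, p w * To φ p w ∂σ ≤
      ∫ w, χ w * ∫ x, φ ⟪(w : E (c + 2)), (x : E (c + 2))⟫ * χ x ∂σ ∂σ + 3 * V * η := by
    have hη' : 3 * V * η = ∫ x, (η + 2 * V * |χ x - p x|) ∂σ := by
      rw [integral_add (integrable_const _) (hdi.const_mul _), integral_const, smul_eq_mul,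
        integral_const_mul]
      ring
    have hii : Integrable (fun x => η + 2 * V * |χ x - p x|) σ :=
      (integrable_const _).add (hdi.const_mul _)
    rw [hη', ← integral_add hχU hii]
    refine integral_mono (int_r (by fun_prop)) (hχU.add hii) fun w => ?_
    simp only [Pi.add_apply]
    set U := ∫ x, φ ⟪(w : E (c + 2)), (x : E (c + 2))⟫ * χ x ∂σ with hU
    have h3 : p w * To φ p w - χ w * U = (p w - χ w) * To φ p w + χ w * (To φ p w - U) := by ring
    have h4 : (p w - χ w) * To φ p w ≤ |χ w - p w| * (2 * V) := by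
      refine (le_abs_self _).trans ?_
      rw [abs_mul, abs_sub_comm]
      exact mul_le_mul_of_nonneg_left (hTp w) (abs_nonneg _)
    have h5 : χ w * (To φ p w - U) ≤ η := by
      have h6 := hTχ w
      rw [← hU, abs_sub_comm] at h6
      calc χ w * (To φ p w - U) ≤ χ w * |To φ p w - U| :=
            mul_le_mul_of_nonneg_left (le_abs_self _) (hχ01 w).1
        _ ≤ 1 * η := mul_le_mul (hχ01 w).2 h6 (abs_nonneg _) zero_le_one
        _ = η := one_mul _
    linarith
  have hcomb : L * σ.real K ^ 2 / V - B * σ.real K ≤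
      (L * ip 1 p ^ 2 / V - B * ip p p) + (L * 3 + B * 3) * η := by
    have h3 := mul_le_mul_of_nonneg_left e1' hl0
    have h4 := mul_le_mul_of_nonneg_left e2 hB
    rw [mul_div_assoc, mul_div_assoc]
    linarith
  have hfin : M * η ≤ δ := by
    calc M * η ≤ M * (δ / M) := mul_le_mul_of_nonneg_left hpe hMp.le
      _ = δ := by field_simp
  have hle : (L * 3 + B * 3) * η + 3 * V * η ≤ M * η := by
    rw [hM]; linarith
  linarith

end Pool.Agent.U279.KR
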