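import Pool.Agent.N303.SH.G

set_option autoImplicit false

/-! Recurrences for the eigenvalues of zonal kernels on the sphere, from rotations. -/

open MeasureTheory Metric Set Filter Topology
open scoped ENNReal RealInnerProductSpace Pointwise

namespace Pool.Agent.U279.KR

open Pool.Agent.N303.SH

variable {n : ℕ}

/-- an inner product which is constant along the rotations -/
lemma inner_const (A : E n →L[ℝ] E n) (hA : ∀ x y : E n, ⟪A x, y⟫ = -⟪x, A y⟫) (u : E n)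
    (hu : ∀ x, ⟪u, A x⟫ = 0) (x : E n) (s t : ℝ) :
    ⟪u, rexp A hA s x⟫ = ⟪u, rexp A hA t x⟫ := by
  have hd : ∀ s, HasDerivAt (fun s => ⟪u, rexp A hA s x⟫) 0 s := by
    intro s
    have := rexp_deriv A hA u x s
    rwa [hu] at this
  exact is_const_of_deriv_eq_zero (fun s => (hd s).differentiableAt) (fun s => (hd s).deriv) s t

variable {u v w : E n}

/-- rotations in the plane of `v` and `w`, orthogonal to `u` -/
lemma rotw (huv : ⟪u, v⟫ = 0) (huw : ⟪u, w⟫ = 0) (hv : ‖v‖ = 1) (hw : ‖w‖ = 1) (hvw : ⟪v, w⟫ = 0)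
    {φ : ℝ → ℝ} (hφ : Continuous φ) (k : ℕ) :
    ∫ x : S n, (φ ⟪u, (x : E n)⟫ : ℂ) * (((⟪v, (x : E n)⟫ : ℝ) : ℂ) * zz u v x ^ k -
      Complex.I * (k : ℂ) * ((⟪w, (x : E n)⟫ : ℝ) : ℂ) ^ 2 * zz u v x ^ (k - 1)) ∂(sg n) = 0 := by
  set A := R235.VE.Aij v w with hA
  have hAs : ∀ x y : E n, ⟪A x, y⟫ = -⟪x, A y⟫ := R235.VE.Aij_skew v w
  have hAu : ∀ x, ⟪u, A x⟫ = 0 := by
    intro x
    rw [hA, R235.VE.Aij_apply, inner_sub_right, inner_smul_right, inner_smul_right, huv, huw]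
    ring
  have hAv : ∀ x, ⟪v, A x⟫ = -⟪w, x⟫ := by
    intro x
    rw [hA, R235.VE.Aij_apply, inner_sub_right, inner_smul_right, inner_smul_right, hvw,
      real_inner_self_eq_norm_sq, hv]
    ring
  have hAw : ∀ x, ⟪w, A x⟫ = ⟪v, x⟫ := by
    intro x
    rw [hA, R235.VE.Aij_apply, inner_sub_right, inner_smul_right, inner_smul_right,
      real_inner_comm v w, hvw, real_inner_self_eq_norm_sq, hw]
    ring
  have hz := zz_cont u v
  refine rotint A hAs (G := fun x => (φ ⟪u, x⟫ : ℂ) * (((⟪w, x⟫ : ℝ) : ℂ) * zz u v x ^ k))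
    (G' := fun x => (φ ⟪u, x⟫ : ℂ) * (((⟪v, x⟫ : ℝ) : ℂ) * zz u v x ^ k -
      Complex.I * (k : ℂ) * ((⟪w, x⟫ : ℝ) : ℂ) ^ 2 * zz u v x ^ (k - 1))) (by fun_prop) (by fun_prop) ?_
  intro x s
  set y := rexp A hAs s x with hy
  have d0 : HasDerivAt (fun s => (φ ⟪u, rexp A hAs s x⟫ : ℂ)) 0 s := by
    have : (fun s => (φ ⟪u, rexp A hAs s x⟫ : ℂ)) = fun _ => (φ ⟪u, y⟫ : ℂ) := by
      funext t
      rw [hy, inner_const A hAs u hAu x t s]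
    rw [this]
    exact hasDerivAt_const s _
  have d1 : HasDerivAt (fun s => ⟪u, rexp A hAs s x⟫) 0 s := by
    have := rexp_deriv A hAs u x s
    rwa [hAu] at this
  have d2 : HasDerivAt (fun s => ⟪v, rexp A hAs s x⟫) (-⟪w, y⟫) s := by
    have := rexp_deriv A hAs v x s
    rwa [hAv] at this
  have d3 : HasDerivAt (fun s => ⟪w, rexp A hAs s x⟫) ⟪v, y⟫ s := by
    have := rexp_deriv A hAs w x s
    rwa [hAw] at this
  have d4 : HasDerivAt (fun s => zz u v (rexp A hAs s x)) (-Complex.I * (⟪w, y⟫ : ℝ)) s := by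
    have e1 := d1.ofReal_comp.add (d2.ofReal_comp.mul_const Complex.I)
    refine e1.congr_deriv ?_
    push_cast
    ring
  have d5 := d0.mul (d3.ofReal_comp.mul (d4.pow k))
  refine d5.congr_deriv ?_
  simp only [Pi.mul_apply, Pi.pow_apply, ← hy]
  ring

/-- the same with the square of the modulus -/
lemma rotq (huv : ⟪u, v⟫ = 0) (huw : ⟪u, w⟫ = 0) (hv : ‖v‖ = 1) (hw : ‖w‖ = 1) (hvw : ⟪v, w⟫ = 0)
    (m : ℕ) : ∫ x : S n, (((⟪v, (x : E n)⟫ ^ 2 - ⟪w, (x : E n)⟫ ^ 2) *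
      (⟪u, (x : E n)⟫ ^ 2 + ⟪v, (x : E n)⟫ ^ 2) ^ m - 2 * m * ⟪v, (x : E n)⟫ ^ 2 *
      ⟪w, (x : E n)⟫ ^ 2 * (⟪u, (x : E n)⟫ ^ 2 + ⟪v, (x : E n)⟫ ^ 2) ^ (m - 1) : ℝ) : ℂ) ∂(sg n) = 0 := by
  set A := R235.VE.Aij v w with hA
  have hAs : ∀ x y : E n, ⟪A x, y⟫ = -⟪x, A y⟫ := R235.VE.Aij_skew v w
  have hAu : ∀ x, ⟪u, A x⟫ = 0 := by
    intro x
    rw [hA, R235.VE.Aij_apply, inner_sub_right, inner_smul_right, inner_smul_right, huv, huw]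
    ring
  have hAv : ∀ x, ⟪v, A x⟫ = -⟪w, x⟫ := by
    intro x
    rw [hA, R235.VE.Aij_apply, inner_sub_right, inner_smul_right, inner_smul_right, hvw,
      real_inner_self_eq_norm_sq, hv]
    ring
  have hAw : ∀ x, ⟪w, A x⟫ = ⟪v, x⟫ := by
    intro x
    rw [hA, R235.VE.Aij_apply, inner_sub_right, inner_smul_right, inner_smul_right,
      real_inner_comm v w, hvw, real_inner_self_eq_norm_sq, hw]
    ring
  refine rotint A hAs (G := fun x => ((⟪w, x⟫ * ⟪v, x⟫ * (⟪u, x⟫ ^ 2 + ⟪v, x⟫ ^ 2) ^ m : ℝ) : ℂ))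
    (G' := fun x => (((⟪v, x⟫ ^ 2 - ⟪w, x⟫ ^ 2) *
      (⟪u, x⟫ ^ 2 + ⟪v, x⟫ ^ 2) ^ m - 2 * m * ⟪v, x⟫ ^ 2 *
      ⟪w, x⟫ ^ 2 * (⟪u, x⟫ ^ 2 + ⟪v, x⟫ ^ 2) ^ (m - 1) : ℝ) : ℂ)) (by fun_prop) (by fun_prop) ?_
  intro x s
  set y := rexp A hAs s x with hy
  have d1 : HasDerivAt (fun s => ⟪u, rexp A hAs s x⟫) 0 s := by
    have := rexp_deriv A hAs u x s
    rwa [hAu] at this
  have d2 : HasDerivAt (fun s => ⟪v, rexp A hAs s x⟫) (-⟪w, y⟫) s := by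
    have := rexp_deriv A hAs v x s
    rwa [hAv] at this
  have d3 : HasDerivAt (fun s => ⟪w, rexp A hAs s x⟫) ⟪v, y⟫ s := by
    have := rexp_deriv A hAs w x s
    rwa [hAw] at this
  have d4 := ((d3.mul d2).mul (((d1.pow 2).add (d2.pow 2)).pow m)).ofReal_comp
  refine d4.congr_deriv ?_
  congr 1
  simp only [Pi.mul_apply, Pi.pow_apply, Pi.add_apply, ← hy]
  push_cast
  ring

/-- the remaining basis vectors -/
noncomputable def ej (c : ℕ) (j : Fin c) : E (c + 2) := EuclideanSpace.single j.succ.succ 1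

lemma inner_e1 (c : ℕ) (x : E (c + 2)) : ⟪e1 c, x⟫ = x 1 := by
  unfold e1
  rw [EuclideanSpace.inner_single_left]
  simp

lemma inner_ej (c : ℕ) (j : Fin c) (x : E (c + 2)) : ⟪ej c j, x⟫ = x j.succ.succ := by
  unfold ej
  rw [EuclideanSpace.inner_single_left]
  simp

lemma norm_ej (c : ℕ) (j : Fin c) : ‖ej c j‖ = 1 := by simp [ej]

lemma e0_ej (c : ℕ) (j : Fin c) : ⟪e0 c, ej c j⟫ = 0 := by
  rw [inner_e0]
  simp [ej]

lemma e1_ej (c : ℕ) (j : Fin c) : ⟪e1 c, ej c j⟫ = 0 := by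
  rw [inner_e1]
  unfold ej
  rw [PiLp.single_apply]
  rw [if_neg]
  intro h
  have := congrArg Fin.val h
  simp at this

lemma sum_ej (c : ℕ) (x : S (c + 2)) :
    ∑ j : Fin c, ⟪ej c j, (x : E (c + 2))⟫ ^ 2 =
      1 - (⟪e0 c, (x : E (c + 2))⟫ ^ 2 + ⟪e1 c, (x : E (c + 2))⟫ ^ 2) := by
  have h5 : ‖(x : E (c + 2))‖ ^ 2 = 1 := by rw [S_norm]; norm_num
  rw [EuclideanSpace.real_norm_sq_eq, Fin.sum_univ_succ, Fin.sum_univ_succ] at h5
  simp only [inner_ej, inner_e0, inner_e1]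
  have h6 : (Fin.succ 0 : Fin (c + 2)) = 1 := rfl
  rw [h6] at h5
  linarith

/-- **The recurrence of the eigenvalues** (complex form). -/
lemma recc (c : ℕ) {φ : ℝ → ℝ} (hφ : Continuous φ) (k : ℕ) :
    ((c : ℂ) + (k + 1 : ℕ)) * ∫ x : S (c + 2), (φ ⟪e0 c, (x : E (c + 2))⟫ : ℂ) *
        zz (e0 c) (e1 c) x ^ (k + 2) ∂(sg (c + 2)) =
      ((c : ℂ) + 2 * (k + 1 : ℕ)) * ∫ x : S (c + 2), ((⟪e0 c, (x : E (c + 2))⟫ *
        φ ⟪e0 c, (x : E (c + 2))⟫ : ℝ) : ℂ) * zz (e0 c) (e1 c) x ^ (k + 1) ∂(sg (c + 2)) -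
      (k + 1 : ℕ) * ∫ x : S (c + 2), (φ ⟪e0 c, (x : E (c + 2))⟫ : ℂ) *
        zz (e0 c) (e1 c) x ^ k ∂(sg (c + 2)) := by
  have hz := zz_cont (e0 c) (e1 c)
  have h1 := fun j : Fin c => rotw (on_e c).huv (e0_ej c j) (on_e c).hv (norm_ej c j) (e1_ej c j)
    hφ (k + 1)
  have h2 := Finset.sum_congr (rfl : (Finset.univ : Finset (Fin c)) = Finset.univ) (fun j _ => h1 j)
  rw [Finset.sum_const_zero, ← integral_finsetSum] at h2
  · have i1 : Integrable (fun x : S (c + 2) => (φ ⟪e0 c, (x : E (c + 2))⟫ : ℂ) *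
        zz (e0 c) (e1 c) x ^ (k + 2)) (sg (c + 2)) := int_cc (by fun_prop)
    have i2 : Integrable (fun x : S (c + 2) => ((⟪e0 c, (x : E (c + 2))⟫ *
        φ ⟪e0 c, (x : E (c + 2))⟫ : ℝ) : ℂ) * zz (e0 c) (e1 c) x ^ (k + 1)) (sg (c + 2)) :=
      int_cc (by fun_prop)
    have i3 : Integrable (fun x : S (c + 2) => (φ ⟪e0 c, (x : E (c + 2))⟫ : ℂ) *
        zz (e0 c) (e1 c) x ^ k) (sg (c + 2)) := int_cc (by fun_prop)
    have h3 : ∫ x : S (c + 2), ∑ j : Fin c, (φ ⟪e0 c, (x : E (c + 2))⟫ : ℂ) *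
        (((⟪e1 c, (x : E (c + 2))⟫ : ℝ) : ℂ) * zz (e0 c) (e1 c) x ^ (k + 1) -
        Complex.I * ((k + 1 : ℕ) : ℂ) * ((⟪ej c j, (x : E (c + 2))⟫ : ℝ) : ℂ) ^ 2 *
          zz (e0 c) (e1 c) x ^ (k + 1 - 1)) ∂(sg (c + 2)) =
        ∫ x : S (c + 2), (-Complex.I) * ((((c : ℂ) + (k + 1 : ℕ)) *
          ((φ ⟪e0 c, (x : E (c + 2))⟫ : ℂ) * zz (e0 c) (e1 c) x ^ (k + 2)) -
        ((c : ℂ) + 2 * (k + 1 : ℕ)) * (((⟪e0 c, (x : E (c + 2))⟫ *
          φ ⟪e0 c, (x : E (c + 2))⟫ : ℝ) : ℂ) * zz (e0 c) (e1 c) x ^ (k + 1))) +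
        (k + 1 : ℕ) * ((φ ⟪e0 c, (x : E (c + 2))⟫ : ℂ) * zz (e0 c) (e1 c) x ^ k)) ∂(sg (c + 2)) := by
      congr 1
      ext x
      have h4 := sum_ej c x
      have h5 : (∑ j : Fin c, ((⟪ej c j, (x : E (c + 2))⟫ : ℝ) : ℂ) ^ 2) =
          1 - (((⟪e0 c, (x : E (c + 2))⟫ : ℝ) : ℂ) ^ 2 + ((⟪e1 c, (x : E (c + 2))⟫ : ℝ) : ℂ) ^ 2) := by
        exact_mod_cast h4
      rw [← Finset.mul_sum, Finset.sum_sub_distrib, Finset.sum_const, Finset.card_univ,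
        Fintype.card_fin, nsmul_eq_mul, ← Finset.sum_mul, ← Finset.mul_sum, h5, Nat.add_sub_cancel]
      set a : ℂ := ((⟪e0 c, (x : E (c + 2))⟫ : ℝ) : ℂ) with ha
      set b : ℂ := ((⟪e1 c, (x : E (c + 2))⟫ : ℝ) : ℂ) with hb
      have hzz : zz (e0 c) (e1 c) x = a + b * Complex.I := rfl
      set z := zz (e0 c) (e1 c) x with hzd
      have hbz : b = -Complex.I * (z - a) := by
        rw [hzz]
        linear_combination b * Complex.I_sq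
      have hq : a ^ 2 + b ^ 2 = 2 * a * z - z ^ 2 := by
        rw [hzz]
        linear_combination (b ^ 2) * Complex.I_sq
      rw [hq, hbz]
      push_cast
      rw [← ha]
      ring
    have i12 : Integrable (fun x : S (c + 2) => ((c : ℂ) + (k + 1 : ℕ)) *
          ((φ ⟪e0 c, (x : E (c + 2))⟫ : ℂ) * zz (e0 c) (e1 c) x ^ (k + 2)) -
        ((c : ℂ) + 2 * (k + 1 : ℕ)) * (((⟪e0 c, (x : E (c + 2))⟫ *
          φ ⟪e0 c, (x : E (c + 2))⟫ : ℝ) : ℂ) * zz (e0 c) (e1 c) x ^ (k + 1))) (sg (c + 2)) :=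
      (i1.const_mul _).sub (i2.const_mul _)
    rw [h3, integral_const_mul, integral_add i12 (i3.const_mul _),
      integral_sub (i1.const_mul _) (i2.const_mul _), integral_const_mul, integral_const_mul,
      integral_const_mul] at h2
    have h6 := (mul_eq_zero.1 h2).resolve_left (neg_ne_zero.2 Complex.I_ne_zero)
    linear_combination h6
  · intro j _
    exact int_cc (by fun_prop)

/-- **The recurrence of the eigenvalues.** -/
lemma rec_la (c : ℕ) {φ : ℝ → ℝ} (hφ : Continuous φ) (k : ℕ) :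
    ((c : ℝ) + (k + 1 : ℕ)) * la (e0 c) (e1 c) φ (k + 2) =
      ((c : ℝ) + 2 * (k + 1 : ℕ)) * la (e0 c) (e1 c) (fun t => t * φ t) (k + 1) -
      (k + 1 : ℕ) * la (e0 c) (e1 c) φ k := by
  have h1 := recc c hφ k
  have hφ' : Continuous fun t => t * φ t := by fun_prop
  have e1 := la_eq (on_e c) hφ (k + 2)
  have e2 := la_eq (on_e c) hφ' (k + 1)
  have e3 := la_eq (on_e c) hφ k
  unfold zz at h1
  rw [← e1, ← e2, ← e3] at h1
  exact_mod_cast h1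

/-- the first two eigenvalues -/
lemma rec_la0 (c : ℕ) (φ : ℝ → ℝ) :
    la (e0 c) (e1 c) φ 1 = la (e0 c) (e1 c) (fun t => t * φ t) 0 := by
  unfold la
  simp [Finset.sum_range_succ, mo, mul_comm]

end Pool.Agent.U279.KR
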