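import Pool.Agent.U279.KR.GenUp2
import Pool.Agent.U279.KR.Num2

set_option autoImplicit false

/-! The geometry of the sphere: caps, cells, triangles. -/

open MeasureTheory Metric Set Filter Topology
open scoped ENNReal RealInnerProductSpace Pointwise

namespace Pool.Agent.U279.KR

open Pool.Agent.N303.SH

/-- the zonal density -/
noncomputable def wz (d : ℕ) (z : ℝ) : ℝ≥0∞ := ENNReal.ofReal (Real.sqrt (1 - z ^ 2) ^ d)

/-- the constant of the zonal law -/
noncomputable def KK (d : ℕ) : ℝ≥0∞ :=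
  (sg (d + 1 + 2) univ)⁻¹ * (volume : Measure (Pool.Agent.Helper88.SE.E (d + 1))).toSphere univ

lemma zonm (d : ℕ) (q : S (d + 1 + 2)) {h : ℝ → ℝ≥0∞} (hh : Measurable h) :
    ∫⁻ x : S (d + 1 + 2), h ⟪(q : E (d + 1 + 2)), (x : E (d + 1 + 2))⟫ ∂(mu (d + 1 + 2)) =
      KK d * ∫⁻ z in Icc (-1 : ℝ) 1, wz d z * h z := by
  have hz := Pool.Agent.TH331.RZ.zonal_main d q h hh
  unfold mu
  rw [lintegral_smul_measure, smul_eq_mul]
  have h2 : ∫⁻ x : S (d + 1 + 2), h ⟪(q : E (d + 1 + 2)), (x : E (d + 1 + 2))⟫ ∂(sg (d + 1 + 2)) =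
      (volume : Measure (Pool.Agent.Helper88.SE.E (d + 1))).toSphere univ *
        ∫⁻ z in Icc (-1 : ℝ) 1, ENNReal.ofReal (Real.sqrt (1 - z ^ 2) ^ d) * h z := hz
  rw [h2, ← mul_assoc]
  rfl

lemma wz_meas (d : ℕ) : Measurable (wz d) := by
  unfold wz
  exact ENNReal.measurable_ofReal.comp (by fun_prop)

lemma KK_le (d : ℕ) : KK d ≤ ENNReal.ofReal ((d : ℝ) + 1) := by
  have h0 : ‖e0 (d + 1)‖ = 1 := (on_e (d + 1)).hu
  set w0 : S (d + 1 + 2) := ⟨e0 (d + 1), by rw [mem_sphere_zero_iff_norm]; exact h0⟩ with hw0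
  have h1 := zonm d w0 (h := fun _ => 1) measurable_const
  simp only [mul_one, lintegral_one, measure_univ] at h1
  have hd : (0 : ℝ) < (d : ℝ) + 1 := by positivity
  have h2 : ENNReal.ofReal (((d : ℝ) + 1)⁻¹) ≤ ∫⁻ z in Icc (-1 : ℝ) 1, wz d z := by
    have hsub : Icc (-((d : ℝ) + 1)⁻¹) (((d : ℝ) + 1)⁻¹) ⊆ Icc (-1 : ℝ) 1 := by
      have : ((d : ℝ) + 1)⁻¹ ≤ 1 := inv_le_one_of_one_le₀ (by linarith [Nat.cast_nonneg (α := ℝ) d])
      exact Icc_subset_Icc (by linarith) this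
    calc ENNReal.ofReal (((d : ℝ) + 1)⁻¹) =
          ∫⁻ _ in Icc (-((d : ℝ) + 1)⁻¹) (((d : ℝ) + 1)⁻¹), ENNReal.ofReal (1 / 2) := by
          rw [lintegral_const, Measure.restrict_apply_univ, Real.volume_Icc,
            ← ENNReal.ofReal_mul (by norm_num)]
          congr 1
          ring
      _ ≤ ∫⁻ z in Icc (-((d : ℝ) + 1)⁻¹) (((d : ℝ) + 1)⁻¹), wz d z := by
          refine setLIntegral_mono' measurableSet_Icc fun z hz => ?_
          unfold wz
          refine ENNReal.ofReal_le_ofReal ?_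
          have hz2 : z ^ 2 ≤ (((d : ℝ) + 1)⁻¹) ^ 2 := by
            rw [← sq_abs z]
            exact pow_le_pow_left₀ (abs_nonneg _) (abs_le.2 ⟨hz.1, hz.2⟩) 2
          have hz3 : (((d : ℝ) + 1)⁻¹) ^ 2 ≤ 1 := by
            have : ((d : ℝ) + 1)⁻¹ ≤ 1 :=
              inv_le_one_of_one_le₀ (by linarith [Nat.cast_nonneg (α := ℝ) d])
            exact pow_le_one₀ (by positivity) this
          have hz4 : 0 ≤ 1 - z ^ 2 := by linarith
          have hs : 1 - z ^ 2 ≤ Real.sqrt (1 - z ^ 2) := by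
            have hs1 : Real.sqrt (1 - z ^ 2) ≤ 1 := by
              rw [Real.sqrt_le_one]
              linarith [sq_nonneg z]
            have hs2 := Real.sq_sqrt hz4
            nlinarith [Real.sqrt_nonneg (1 - z ^ 2)]
          have hb : 1 + (d : ℝ) * (-z ^ 2) ≤ (1 + (-z ^ 2)) ^ d :=
            one_add_mul_le_pow (by linarith) d
          have hc : (d : ℝ) * z ^ 2 ≤ 1 / 2 := by
            have h3 : (d : ℝ) * z ^ 2 ≤ d * (((d : ℝ) + 1)⁻¹) ^ 2 :=
              mul_le_mul_of_nonneg_left hz2 (Nat.cast_nonneg d)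
            refine h3.trans ?_
            rw [inv_pow, ← div_eq_mul_inv, div_le_iff₀ (by positivity)]
            nlinarith [sq_nonneg (d : ℝ), Nat.cast_nonneg (α := ℝ) d]
          have hd' : (1 + (-z ^ 2)) ^ d ≤ Real.sqrt (1 - z ^ 2) ^ d :=
            pow_le_pow_left₀ (by linarith) (by linarith) d
          linarith
      _ ≤ _ := lintegral_mono_set hsub
  have h3 : KK d * ENNReal.ofReal (((d : ℝ) + 1)⁻¹) ≤ 1 := by
    rw [h1]
    exact mul_le_mul' le_rfl h2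
  rw [ENNReal.ofReal_inv_of_pos hd, ← div_eq_mul_inv,
    ENNReal.div_le_iff (by simpa using hd) ENNReal.ofReal_ne_top, one_mul] at h3
  exact h3

/-- upper bound for the integral of the zonal density over a cap with a bounded factor -/
lemma zon_le (d : ℕ) (q : S (d + 1 + 2)) {t b : ℝ} (ht : -1 ≤ t) (ht1 : 0 ≤ t) {h : ℝ → ℝ≥0∞}
    (hh : Measurable h) (hb : 0 ≤ b)
    (hle : ∀ z, t < z → z ≤ 1 → wz d z * h z ≤ ENNReal.ofReal b) :
    ∫⁻ x : S (d + 1 + 2), (Ioi t).indicator h ⟪(q : E (d + 1 + 2)), (x : E (d + 1 + 2))⟫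
      ∂(mu (d + 1 + 2)) ≤ ENNReal.ofReal (((d : ℝ) + 1) * b) := by
  rw [zonm d q (hh.indicator measurableSet_Ioi), ENNReal.ofReal_mul (by positivity)]
  refine mul_le_mul' (KK_le d) ?_
  calc ∫⁻ z in Icc (-1 : ℝ) 1, wz d z * (Ioi t).indicator h z
      ≤ ∫⁻ z in Icc (-1 : ℝ) 1, (Ioc t 1).indicator (fun _ => ENNReal.ofReal b) z := by
        refine setLIntegral_mono' measurableSet_Icc fun z hz => ?_
        by_cases h1 : t < z
        · rw [Set.indicator_of_mem (show z ∈ Ioi t from h1),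
            Set.indicator_of_mem (show z ∈ Ioc t 1 from ⟨h1, hz.2⟩)]
          exact hle z h1 hz.2
        · rw [Set.indicator_of_notMem (show z ∉ Ioi t from h1), mul_zero]
          exact bot_le
    _ ≤ ∫⁻ z, (Ioc t 1).indicator (fun _ => ENNReal.ofReal b) z := setLIntegral_le_lintegral _ _
    _ = ENNReal.ofReal b * ENNReal.ofReal (1 - t) := by
        rw [lintegral_indicator_const measurableSet_Ioc, Real.volume_Ioc]
    _ ≤ ENNReal.ofReal b * 1 := by
        refine mul_le_mul' le_rfl (ENNReal.ofReal_le_one.2 (by linarith))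
    _ = _ := mul_one _

lemma cap_lint (n : ℕ) (ν : Measure (S n)) (t : ℝ) (q : S n) :
    ν (cap n t q) = ∫⁻ x : S n, (Ioi t).indicator (fun _ => 1) ⟪(q : E n), (x : E n)⟫ ∂ν := by
  rw [← lintegral_indicator_one (cap_meas n t q)]
  refine lintegral_congr fun x => ?_
  by_cases h : t < ⟪(q : E n), (x : E n)⟫
  · rw [Set.indicator_of_mem (by exact h), Set.indicator_of_mem (by exact h)]
    rfl
  · rw [Set.indicator_of_notMem (by exact h), Set.indicator_of_notMem (by exact h)]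

/-- upper bound for the measure of a cap -/
lemma cap_le (d : ℕ) (q : S (d + 1 + 2)) {t : ℝ} (ht : 0 ≤ t) :
    mu (d + 1 + 2) (cap (d + 1 + 2) t q) ≤
      ENNReal.ofReal (((d : ℝ) + 1) * Real.sqrt (1 - t ^ 2) ^ d) := by
  rw [cap_lint]
  refine zon_le d q (by linarith) ht measurable_const (by positivity) fun z hz hz1 => ?_
  rw [mul_one]
  unfold wz
  refine ENNReal.ofReal_le_ofReal (pow_le_pow_left₀ (Real.sqrt_nonneg _) ?_ _)
  exact Real.sqrt_le_sqrt (by nlinarith)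

lemma pc_le (d : ℕ) {t : ℝ} (ht : 0 ≤ t) :
    pc (d + 1) t ≤ ((d : ℝ) + 1) * Real.sqrt (1 - t ^ 2) ^ d := by
  have h0 : ‖e0 (d + 1)‖ = 1 := (on_e (d + 1)).hu
  set w0 : S (d + 1 + 2) := ⟨e0 (d + 1), by rw [mem_sphere_zero_iff_norm]; exact h0⟩ with hw0
  rw [← mu_cap (d + 1) t w0]
  have h1 := ENNReal.toReal_mono ENNReal.ofReal_ne_top (cap_le d w0 ht)
  rw [ENNReal.toReal_ofReal (by positivity)] at h1
  exact h1

/-- the relation of forming a small angle -/
def Rs (n : ℕ) (s : ℝ) (x y : S n) : Prop := s < ⟪(x : E n), (y : E n)⟫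

lemma geo_sph {c : ℕ} (hc : 1 ≤ c) {s : ℝ} (hs : 0 < s) (hs1 : s < 1) :
    Geo (mu (c + 2)) (Rs (c + 2) s) (pc c s) where
  meas := by
    have hc : Continuous fun p : S (c + 2) × S (c + 2) => ⟪(p.1 : E (c + 2)), (p.2 : E (c + 2))⟫ := by
      fun_prop
    exact (isOpen_lt continuous_const hc).measurableSet
  symm := fun x y h => by
    unfold Rs at *
    rw [real_inner_comm]
    exact h
  vol := fun x => by
    have h1 := mu_cap c s x
    have h2 : {y | Rs (c + 2) s x y} = cap (c + 2) s x := rfl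
    rw [h2, ← h1, measureReal_def, ENNReal.ofReal_toReal (measure_ne_top _ _)]
  pos := pc_pos hc hs hs1

lemma inter_sub {n : ℕ} {x u : S n} {a : ℝ} (ha : a = ⟪(x : E n), (u : E n)⟫) (h : 1 / 2 < a) :
    ∃ v : S n, cap n (1 / 2) x ∩ cap n (1 / 2) u ⊆ cap n (1 / Real.sqrt (2 + 2 * a)) v := by
  have hx : ‖(x : E n)‖ = 1 := by simp
  have hu : ‖(u : E n)‖ = 1 := by simp
  have hns : ‖(x : E n) + u‖ ^ 2 = 2 + 2 * a := by
    rw [norm_add_sq_real, hx, hu, ← ha]
    ring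
  have hpos : 0 < 2 + 2 * a := by linarith
  have hnorm : ‖(x : E n) + u‖ = Real.sqrt (2 + 2 * a) := by
    rw [← hns, Real.sqrt_sq (norm_nonneg _)]
  have hsq : 0 < Real.sqrt (2 + 2 * a) := Real.sqrt_pos.2 hpos
  refine ⟨⟨(Real.sqrt (2 + 2 * a))⁻¹ • ((x : E n) + u), ?_⟩, ?_⟩
  · rw [mem_sphere_zero_iff_norm, norm_smul, hnorm, Real.norm_of_nonneg (by positivity)]
    field_simp
  · rintro y ⟨h1, h2⟩
    simp only [cap, Set.mem_ofPred_eq] at h1 h2 ⊢
    rw [real_inner_smul_left, inner_add_left, one_div, lt_inv_mul_iff₀ hsq, mul_inv_cancel₀ hsq.ne']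
    linarith

/-- the triangle bound -/
lemma tri_sph (d : ℕ) (x : S (d + 1 + 2)) :
    ∫⁻ u in {y | Rs (d + 1 + 2) (1 / 2) x y},
      mu (d + 1 + 2) ({y | Rs (d + 1 + 2) (1 / 2) x y} ∩ {y | Rs (d + 1 + 2) (1 / 2) u y})
        ∂(mu (d + 1 + 2)) ≤ ENNReal.ofReal (((d : ℝ) + 1) * (((d : ℝ) + 1) * Real.sqrt (1 / 2) ^ d)) := by
  set G : ℝ → ℝ≥0∞ := fun a => ENNReal.ofReal (((d : ℝ) + 1) *
    Real.sqrt (1 - (1 / Real.sqrt (2 + 2 * a)) ^ 2) ^ d) with hG
  have hGm : Measurable G := ENNReal.measurable_ofReal.comp (by fun_prop)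
  have h1 : ∀ u ∈ cap (d + 1 + 2) (1 / 2) x,
      mu (d + 1 + 2) ({y | Rs (d + 1 + 2) (1 / 2) x y} ∩ {y | Rs (d + 1 + 2) (1 / 2) u y}) ≤
        G ⟪(x : E (d + 1 + 2)), (u : E (d + 1 + 2))⟫ := by
    intro u hu
    obtain ⟨v, hv⟩ := inter_sub rfl hu
    refine (measure_mono hv).trans ?_
    exact cap_le d v (by positivity)
  calc ∫⁻ u in {y | Rs (d + 1 + 2) (1 / 2) x y},
      mu (d + 1 + 2) ({y | Rs (d + 1 + 2) (1 / 2) x y} ∩ {y | Rs (d + 1 + 2) (1 / 2) u y})
        ∂(mu (d + 1 + 2))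
      ≤ ∫⁻ u in cap (d + 1 + 2) (1 / 2) x, G ⟪(x : E (d + 1 + 2)), (u : E (d + 1 + 2))⟫
        ∂(mu (d + 1 + 2)) := setLIntegral_mono' (cap_meas _ _ _) h1
    _ = ∫⁻ u : S (d + 1 + 2), (Ioi (1 / 2)).indicator G ⟪(x : E (d + 1 + 2)), (u : E (d + 1 + 2))⟫
        ∂(mu (d + 1 + 2)) := by
        rw [← lintegral_indicator (cap_meas _ _ _)]
        refine lintegral_congr fun u => ?_
        by_cases h : 1 / 2 < ⟪(x : E (d + 1 + 2)), (u : E (d + 1 + 2))⟫
        · rw [Set.indicator_of_mem (by exact h), Set.indicator_of_mem (by exact h)]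
        · rw [Set.indicator_of_notMem (by exact h), Set.indicator_of_notMem (by exact h)]
    _ ≤ _ := by
        refine zon_le d x (by norm_num) (by norm_num) hGm (by positivity) fun z hz hz1 => ?_
        rw [hG]
        unfold wz
        rw [← ENNReal.ofReal_mul (by positivity)]
        refine ENNReal.ofReal_le_ofReal ?_
        rw [mul_left_comm, ← mul_pow]
        refine mul_le_mul_of_nonneg_left (pow_le_pow_left₀ (by positivity) ?_ _) (by positivity)
        have hz0 : 0 ≤ 1 - z ^ 2 := by nlinarith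
        rw [← Real.sqrt_mul hz0]
        refine Real.sqrt_le_sqrt ?_
        have hz2 : (0 : ℝ) < 2 + 2 * z := by linarith
        rw [div_pow, one_pow, Real.sq_sqrt hz2.le]
        have h3 : (1 - z ^ 2) * (1 - 1 / (2 + 2 * z)) = (1 - z) * (1 + 2 * z) / 2 := by
          field_simp
          ring
        rw [h3]
        nlinarith

end Pool.Agent.U279.KR
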