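import Pool.Agent.U279.KR.Lim
import Pool.Agent.U279.KR.GenState

set_option autoImplicit false

/-! The hard-cap gas. -/

open MeasureTheory Metric Set Filter Topology
open scoped ENNReal RealInnerProductSpace

namespace Pool.Agent.U279.KR

open Pool.Agent.N303.SH
open Pool.Agent.H818R2 (sphMax kissing codeRate IsSphCode sph_nonempty sph_bdd le_sphMax
  codeRate_le codeRate_nonneg)

variable {N : ℕ}

lemma inter_sub2 {n : ℕ} {v u : S n} (h : 1 / 2 < ⟪(v : E n), (u : E n)⟫) :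
    ∃ w : S n, cap n (1 / 2) u ∩ {y | ⟪(v : E n), (u : E n)⟫ ≤ ⟪(v : E n), (y : E n)⟫} ⊆
      cap n (1 / √3) w := by
  set a := ⟪(v : E n), (u : E n)⟫ with ha
  have hx : ‖(v : E n)‖ = 1 := by simp
  have hu : ‖(u : E n)‖ = 1 := by simp
  have hns : ‖(v : E n) + u‖ ^ 2 = 2 + 2 * a := by
    rw [norm_add_sq_real, hx, hu, ← ha]
    ring
  have hpos : 0 < 2 + 2 * a := by linarith
  have hnorm : ‖(v : E n) + u‖ = √(2 + 2 * a) := by
    rw [← hns, Real.sqrt_sq (norm_nonneg _)]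
  have hsq : 0 < √(2 + 2 * a) := Real.sqrt_pos.2 hpos
  refine ⟨⟨(√(2 + 2 * a))⁻¹ • ((v : E n) + u), ?_⟩, ?_⟩
  · rw [mem_sphere_zero_iff_norm, norm_smul, hnorm, Real.norm_of_nonneg (by positivity)]
    field_simp
  · rintro y ⟨h1, h2⟩
    simp only [cap, Set.mem_ofPred_eq] at h1 h2 ⊢
    rw [real_inner_smul_left, inner_add_left, lt_inv_mul_iff₀ hsq, mul_one_div,
      div_lt_iff₀ (by positivity)]
    have h3 : √(2 + 2 * a) ≤ (1 / 2 + a) * √3 := by
      rw [Real.sqrt_le_left (by positivity), mul_pow, Real.sq_sqrt (by norm_num)]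
      nlinarith
    have h4 : (1 / 2 + a) * √3 < (⟪(v : E n), (y : E n)⟫ + ⟪(u : E n), (y : E n)⟫) * √3 :=
      mul_lt_mul_of_pos_right (by linarith) (by positivity)
    exact lt_of_le_of_lt h3 h4

/-- local sparsity on the sphere -/
lemma loc_gen {n : ℕ} (μ : Measure (S n)) [IsProbabilityMeasure μ] (G : ℝ≥0∞)
    (hcap : ∀ w, μ (cap n (1 / √3) w) ≤ G) (v : S n) (T : Set (S n)) (hT : MeasurableSet T)
    (hTB : T ⊆ {y | Rs n (1 / 2) v y}) :
    ∫⁻ u in T, μ (T ∩ {y | Rs n (1 / 2) u y}) ∂μ ≤ 2 * G * μ T := by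
  have hcR : Continuous fun q : S n × S n => ⟪(q.1 : E n), (q.2 : E n)⟫ := by fun_prop
  have hc1 : Continuous fun q : S n × S n => ⟪(v : E n), (q.1 : E n)⟫ := by fun_prop
  have hc2 : Continuous fun q : S n × S n => ⟪(v : E n), (q.2 : E n)⟫ := by fun_prop
  set W : Set (S n × S n) := {q | q.1 ∈ T ∧ q.2 ∈ T ∧ 1 / 2 < ⟪(q.1 : E n), (q.2 : E n)⟫ ∧
    ⟪(v : E n), (q.2 : E n)⟫ ≤ ⟪(v : E n), (q.1 : E n)⟫} with hW
  have hWm : MeasurableSet W := by
    refine (measurable_fst hT).inter ((measurable_snd hT).inter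
      ((isOpen_lt continuous_const hcR).measurableSet.inter
        (isClosed_le hc2 hc1).measurableSet))
  set G1 : S n → ℝ≥0∞ := fun u => μ (T ∩ cap n (1 / 2) u ∩
    {y | ⟪(v : E n), (u : E n)⟫ ≤ ⟪(v : E n), (y : E n)⟫}) with hG1
  set G2 : S n → ℝ≥0∞ := fun u => μ (T ∩ cap n (1 / 2) u ∩
    {y | ⟪(v : E n), (y : E n)⟫ ≤ ⟪(v : E n), (u : E n)⟫}) with hG2
  have e2 : ∫⁻ u in T, G2 u ∂μ = μ.prod μ W := by
    rw [Measure.prod_apply hWm, ← lintegral_indicator hT]
    refine lintegral_congr fun u => ?_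
    by_cases hu : u ∈ T
    · rw [Set.indicator_of_mem hu]
      refine congrArg (fun s => μ s) ?_
      ext y
      simp only [cap, W, Set.mem_inter_iff, Set.mem_ofPred_eq, Set.mem_preimage, hu, true_and]
      tauto
    · rw [Set.indicator_of_notMem hu]
      have : Prod.mk u ⁻¹' W = ∅ := by
        ext y
        simp [W, hu]
      rw [this, measure_empty]
  have e1 : ∫⁻ u in T, G1 u ∂μ = μ.prod μ W := by
    rw [Measure.prod_apply_symm hWm, ← lintegral_indicator hT]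
    refine lintegral_congr fun u => ?_
    by_cases hu : u ∈ T
    · rw [Set.indicator_of_mem hu]
      refine congrArg (fun s => μ s) ?_
      ext y
      simp only [cap, W, Set.mem_inter_iff, Set.mem_ofPred_eq, Set.mem_preimage, hu, true_and]
      rw [real_inner_comm (y : E n) (u : E n)]
      tauto
    · rw [Set.indicator_of_notMem hu]
      have : (fun x => (x, u)) ⁻¹' W = ∅ := by
        ext y
        simp [W, hu]
      rw [this, measure_empty]
  have hG1m : ∀ u ∈ T, G1 u ≤ G := by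
    intro u hu
    have hvu : 1 / 2 < ⟪(v : E n), (u : E n)⟫ := hTB hu
    obtain ⟨w, hw⟩ := inter_sub2 hvu
    refine (measure_mono (t := cap n (1 / √3) w) ?_).trans (hcap w)
    rintro y ⟨⟨-, h1⟩, h2⟩
    exact hw ⟨h1, h2⟩
  have hI : ∫⁻ u in T, G1 u ∂μ ≤ G * μ T := by
    calc ∫⁻ u in T, G1 u ∂μ ≤ ∫⁻ _u in T, G ∂μ := setLIntegral_mono' hT hG1m
      _ = G * μ T := by rw [lintegral_const, Measure.restrict_apply_univ]
  calc ∫⁻ u in T, μ (T ∩ {y | Rs n (1 / 2) u y}) ∂μ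
      ≤ ∫⁻ u in T, (G1 u + G2 u) ∂μ := by
        refine lintegral_mono fun u => ?_
        refine (measure_mono (fun y hy => ?_)).trans (measure_union_le _ _)
        rcases le_total ⟪(v : E n), (u : E n)⟫ ⟪(v : E n), (y : E n)⟫ with h | h
        · exact Or.inl ⟨⟨hy.1, hy.2⟩, h⟩
        · exact Or.inr ⟨⟨hy.1, hy.2⟩, h⟩
    _ = ∫⁻ u in T, G1 u ∂μ + ∫⁻ u in T, G2 u ∂μ := by
        refine lintegral_add_left ?_ _
        have hm : MeasurableSet {q : S n × S n | q.2 ∈ T ∧ 1 / 2 < ⟪(q.1 : E n), (q.2 : E n)⟫ ∧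
            ⟪(v : E n), (q.1 : E n)⟫ ≤ ⟪(v : E n), (q.2 : E n)⟫} :=
          (measurable_snd hT).inter ((isOpen_lt continuous_const hcR).measurableSet.inter
            (isClosed_le hc1 hc2).measurableSet)
        have h1 := measurable_measure_prodMk_left (ν := μ) hm
        have h2 : G1 = fun u => μ (Prod.mk u ⁻¹' {q : S n × S n | q.2 ∈ T ∧
            1 / 2 < ⟪(q.1 : E n), (q.2 : E n)⟫ ∧
            ⟪(v : E n), (q.1 : E n)⟫ ≤ ⟪(v : E n), (q.2 : E n)⟫}) := by
          funext u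
          refine congrArg (fun s => μ s) ?_
          ext y
          simp only [cap, Set.mem_inter_iff, Set.mem_ofPred_eq, Set.mem_preimage]
          tauto
        rw [h2]
        exact h1
    _ ≤ G * μ T + G * μ T := by
        rw [e2, ← e1]
        exact add_le_add hI hI
    _ = 2 * G * μ T := by ring

/-- local sparsity on the sphere -/
lemma loc_sph (d : ℕ) : Loc (mu (d + 1 + 2)) (Rs (d + 1 + 2) (1 / 2))
    (2 * (((d : ℝ) + 1) * √(2 / 3) ^ d)) := by
  intro v T hT hTB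
  have h := loc_gen (mu (d + 1 + 2)) (ENNReal.ofReal (((d : ℝ) + 1) * √(2 / 3) ^ d)) (fun w => by
    have h3 := cap_le d w (t := 1 / √3) (by positivity)
    refine h3.trans (le_of_eq ?_)
    rw [div_pow, Real.sq_sqrt (by norm_num)]
    norm_num) v T hT hTB
  refine h.trans (le_of_eq ?_)
  have e : ENNReal.ofReal (2 * (((d : ℝ) + 1) * √(2 / 3) ^ d)) =
      2 * ENNReal.ofReal (((d : ℝ) + 1) * √(2 / 3) ^ d) := by
    rw [ENNReal.ofReal_mul (by norm_num : (0 : ℝ) ≤ 2), ENNReal.ofReal_ofNat]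
  rw [e]

/-- the local sparsity is exponentially smaller than needed -/
lemma loc_ev : ∀ᶠ d : ℕ in atTop, 2 * (((d : ℝ) + 1) * √(2 / 3) ^ d) ≤
    pc (d + 1) (1 / 2) * Real.exp (-(11 / 200 * ((d + 1 + 2 : ℕ) : ℝ))) := by
  set η : ℝ := 1 / 1000 with hη
  have he1 : Real.exp (-η) < 1 := (Real.exp_lt_exp.2 (by rw [hη]; norm_num)).trans_eq Real.exp_zero
  have he0 := Real.exp_pos (-η)
  set δ : ℝ := 3 / 8 * (1 - Real.exp (-η)) with hδ
  have hδ0 : 0 < δ := by rw [hδ]; nlinarith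
  have hδ1 : δ ≤ 3 / 8 := by rw [hδ]; nlinarith
  have hδ2 : 3 / 4 * Real.exp (-η) ≤ 1 - (1 / 2 + δ) ^ 2 := by
    have : 2 * δ = 3 / 4 - 3 / 4 * Real.exp (-η) := by rw [hδ]; ring
    nlinarith
  set r : ℝ := √(8 / 9 * Real.exp η) * Real.exp (11 / 200) with hr
  have hr0 : 0 < r := by positivity
  have hlog : 2 / 17 ≤ Real.log (9 / 8) := by
    have := Real.le_log_one_add_of_nonneg (show (0 : ℝ) ≤ 1 / 8 by norm_num)
    norm_num at this ⊢
    linarith
  have hr1 : r < 1 := by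
    rw [hr, ← Real.log_neg_iff (by positivity)]
    have h1 : Real.log (8 / 9) = -Real.log (9 / 8) := by
      rw [← Real.log_inv]
      norm_num
    rw [Real.log_mul (by positivity) (by positivity), Real.log_sqrt (by positivity),
      Real.log_mul (by norm_num) (by positivity), Real.log_exp, Real.log_exp, h1, hη]
    linarith
  have h1 := tendsto_pow_const_mul_const_pow_of_abs_lt_one 1 (abs_lt.2 ⟨by linarith, hr1⟩)
  have hC : 0 < δ / 8 * Real.exp (-(33 / 200)) := by positivity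
  have h2 := h1.eventually_le_const hC
  filter_upwards [h2, eventually_ge_atTop 1] with d h2 hd
  have hdR : (1 : ℝ) ≤ d := by exact_mod_cast hd
  have hp := pc_ge d (s := 1 / 2) (δ := δ) (by norm_num) hδ0 (by linarith)
  set Q := √(3 / 4 * Real.exp (-η)) ^ d with hQ
  have h3 : δ / 2 * Q ≤ pc (d + 1) (1 / 2) := by
    refine le_trans ?_ hp
    rw [hQ]
    gcongr
  have h4 : √(2 / 3) ^ d = r ^ d * Real.exp (-(11 / 200 * d)) * Q := by
    have e1 : √(2 / 3) = r * Real.exp (-(11 / 200)) * √(3 / 4 * Real.exp (-η)) := by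
      have e2 : (2 / 3 : ℝ) = (8 / 9 * Real.exp η) * (3 / 4 * Real.exp (-η)) := by
        have : Real.exp η * Real.exp (-η) = 1 := by rw [← Real.exp_add]; simp
        calc (2 / 3 : ℝ) = 2 / 3 * 1 := by ring
          _ = 2 / 3 * (Real.exp η * Real.exp (-η)) := by rw [this]
          _ = _ := by ring
      have e3 : Real.exp (11 / 200) * Real.exp (-(11 / 200)) = 1 := by rw [← Real.exp_add]; simp
      rw [e2, Real.sqrt_mul (by positivity), hr]
      calc √(8 / 9 * Real.exp η) * √(3 / 4 * Real.exp (-η)) =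
            √(8 / 9 * Real.exp η) * √(3 / 4 * Real.exp (-η)) * 1 := by ring
        _ = _ := by rw [← e3]; ring
    rw [e1, mul_pow, mul_pow, ← Real.exp_nat_mul, hQ]
    congr 3
    ring
  rw [h4]
  have h5 : Real.exp (-(11 / 200 * ((d + 1 + 2 : ℕ) : ℝ))) =
      Real.exp (-(11 / 200 * d)) * Real.exp (-(33 / 200)) := by
    rw [← Real.exp_add]
    congr 1
    push_cast
    ring
  rw [h5]
  rw [pow_one] at h2
  have hQ0 : 0 ≤ Q := by positivity
  have hE0 := Real.exp_pos (-(11 / 200 * (d : ℝ)))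
  have hr0' : 0 ≤ r ^ d := by positivity
  calc 2 * (((d : ℝ) + 1) * (r ^ d * Real.exp (-(11 / 200 * d)) * Q))
      = (2 * ((d : ℝ) + 1) * r ^ d) * (Real.exp (-(11 / 200 * d)) * Q) := by ring
    _ ≤ (4 * (d * r ^ d)) * (Real.exp (-(11 / 200 * d)) * Q) := by
        refine mul_le_mul_of_nonneg_right ?_ (by positivity)
        nlinarith
    _ ≤ (4 * (δ / 8 * Real.exp (-(33 / 200)))) * (Real.exp (-(11 / 200 * d)) * Q) := by
        refine mul_le_mul_of_nonneg_right ?_ (by positivity)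
        linarith
    _ = (δ / 2 * Q) * (Real.exp (-(11 / 200 * d)) * Real.exp (-(33 / 200))) := by ring
    _ ≤ _ := mul_le_mul_of_nonneg_right h3 (by positivity)

/-- The hypotheses of the equation of state hold on the spheres. -/
theorem hyp_sph : ∃ n₀ : ℕ, 3 ≤ n₀ ∧ ∀ n : ℕ, n₀ ≤ n → Hyp (mu n) (Rs n (1 / 2)) (pn n) n := by
  obtain ⟨c₀, h₃⟩ := sup60
  obtain ⟨d₁, hd₁⟩ := eventually_atTop.1 pc_small
  obtain ⟨d₂, hd₂⟩ := eventually_atTop.1 loc_ev
  refine ⟨c₀ + d₁ + d₂ + 3, by omega, fun n hn => ?_⟩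
  obtain ⟨d, rfl⟩ : ∃ d, n = d + 1 + 2 := ⟨n - 3, by omega⟩
  have hpn : pn (d + 1 + 2) = pc (d + 1) (1 / 2) := rfl
  rw [hpn]
  refine ⟨geo_sph (c := d + 1) (by omega) (s := 1 / 2) (by norm_num) (by norm_num),
    hd₁ d (by omega), cells_sph d, ?_, ?_⟩
  · intro K hK
    have h := h₃ (d + 1) (by omega) K hK
    have e1 : Real.exp (-(((d + 1 + 2 : ℕ) : ℝ) / 20)) =
        Real.exp (-(((d + 1 : ℕ) : ℝ) + 2) / 20) := by
      congr 1
      push_cast
      ring
    rw [e1]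
    exact h
  · intro v T hT hTB
    refine (loc_sph d v T hT hTB).trans ?_
    exact mul_le_mul' (ENNReal.ofReal_le_ofReal (hd₂ d (by omega))) le_rfl

end Pool.Agent.U279.KR
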