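import Pool.Agent.U279.KR.Quad

set_option autoImplicit false

/-! Supersaturation for spherical caps. -/

open MeasureTheory Metric Set Filter Topology
open scoped ENNReal RealInnerProductSpace Pointwise

namespace Pool.Agent.U279.KR

open Pool.Agent.N303.SH

/-- the continuous functions increasing to the indicator of `(s, ∞)` -/
noncomputable def ph (s : ℝ) (j : ℕ) (t : ℝ) : ℝ := min 1 (j * max 0 (t - s))

lemma ph_Fs (s : ℝ) (j : ℕ) : Fs s (ph s j) := by
  refine ⟨by unfold ph; fun_prop, fun t => ?_, fun t ht => ?_⟩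
  · unfold ph
    exact le_min zero_le_one (by positivity)
  · unfold ph
    rw [max_eq_left (by linarith), mul_zero, min_eq_right zero_le_one]

lemma ph_le (s : ℝ) (j : ℕ) (t : ℝ) : ph s j t ≤ 1 := min_le_left _ _

lemma ph_ind (s : ℝ) (j : ℕ) (t : ℝ) : ph s j t ≤ (Ioi s).indicator (fun _ => 1) t := by
  by_cases h : s < t
  · rw [Set.indicator_of_mem (show t ∈ Ioi s from h)]; exact ph_le s j t
  · rw [Set.indicator_of_notMem (show t ∉ Ioi s from h)]
    exact ((ph_Fs s j).zero t (not_lt.1 h)).le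

lemma ph_tendsto (s t : ℝ) : Tendsto (fun j => ph s j t) atTop (𝓝 ((Ioi s).indicator (fun _ => 1) t)) := by
  by_cases h : s < t
  · rw [Set.indicator_of_mem (show t ∈ Ioi s from h)]
    obtain ⟨J, hJ⟩ := exists_nat_gt (1 / (t - s))
    have hts : 0 < t - s := by linarith
    refine tendsto_const_nhds.congr' ?_
    filter_upwards [eventually_ge_atTop J] with j hj
    unfold ph
    rw [max_eq_right hts.le, min_eq_left]
    have h1 : (J : ℝ) ≤ j := by exact_mod_cast hj
    rw [div_lt_iff₀ hts] at hJ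
    nlinarith
  · rw [Set.indicator_of_notMem (show t ∉ Ioi s from h)]
    refine tendsto_const_nhds.congr fun j => ?_
    exact ((ph_Fs s j).zero t (not_lt.1 h)).symm

variable {c : ℕ} {s : ℝ}

/-- the cap about `w` -/
def cap (n : ℕ) (s : ℝ) (w : S n) : Set (S n) := {x | s < ⟪(w : E n), (x : E n)⟫}

lemma cap_open (n : ℕ) (s : ℝ) (w : S n) : IsOpen (cap n s w) :=
  isOpen_lt continuous_const (by fun_prop)

lemma cap_meas (n : ℕ) (s : ℝ) (w : S n) : MeasurableSet (cap n s w) := (cap_open n s w).measurableSet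

/-- the measure of a cap -/
noncomputable def capS (c : ℕ) (s : ℝ) : ℝ :=
  (sg (c + 2)).real {x : S (c + 2) | s < ⟪e0 c, (x : E (c + 2))⟫}

lemma lim_la (c : ℕ) (s : ℝ) : Tendsto (fun j => la (e0 c) (e1 c) (ph s j) 0) atTop (𝓝 (capS c s)) := by
  have h1 : capS c s = ∫ x : S (c + 2), (Ioi s).indicator (fun _ => (1 : ℝ)) ⟪e0 c, (x : E (c + 2))⟫
      ∂(sg (c + 2)) := by
    have hm : MeasurableSet {x : S (c + 2) | s < ⟪e0 c, (x : E (c + 2))⟫} :=
      (isOpen_lt continuous_const (by fun_prop)).measurableSet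
    have h2 : ∀ x : S (c + 2), (Ioi s).indicator (fun _ => (1 : ℝ)) ⟪e0 c, (x : E (c + 2))⟫ =
        {x : S (c + 2) | s < ⟪e0 c, (x : E (c + 2))⟫}.indicator (fun _ => 1) x := by
      intro x
      by_cases h : s < ⟪e0 c, (x : E (c + 2))⟫ <;> simp [Set.indicator, h]
    simp only [h2]
    rw [integral_indicator_const _ hm, smul_eq_mul, mul_one]
    rfl
  simp only [la_zero_eq]
  rw [h1]
  refine tendsto_integral_of_dominated_convergence (fun _ => (1 : ℝ)) (fun j => ?_)
    (integrable_const _) (fun j => ?_) ?_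
  · exact (by have := (ph_Fs s j).cont; fun_prop :
      Continuous fun x : S (c + 2) => ph s j ⟪e0 c, (x : E (c + 2))⟫).aestronglyMeasurable
  · refine Eventually.of_forall fun x => ?_
    rw [Real.norm_eq_abs, abs_of_nonneg ((ph_Fs s j).nonneg _)]
    exact ph_le s j _
  · exact Eventually.of_forall fun x => ph_tendsto s _

/-- measurability of the measure of the part of `A` in a cap -/
lemma meas_cap {n : ℕ} (ν : Measure (S n)) [SFinite ν] {A : Set (S n)} (hA : MeasurableSet A) :
    Measurable fun w : S n => ν (A ∩ cap n s w) := by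
  have hm : MeasurableSet {p : S n × S n | p.2 ∈ A ∧ s < ⟪(p.1 : E n), (p.2 : E n)⟫} := by
    refine (measurable_snd hA).inter ?_
    have hc : Continuous fun p : S n × S n => ⟪(p.1 : E n), (p.2 : E n)⟫ := by fun_prop
    exact (isOpen_lt continuous_const hc).measurableSet
  exact measurable_measure_prodMk_left hm

/-- **Supersaturation**, in terms of the surface measure. -/
theorem sup_sg {B : ℝ} (hB : 0 ≤ B) (hla : ∀ j k, -B ≤ la (e0 c) (e1 c) (ph s j) k)
    {A : Set (S (c + 2))} (hA : MeasurableSet A) :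
    capS c s * (sg (c + 2)).real A ^ 2 / (sg (c + 2)).real univ - B * (sg (c + 2)).real A ≤
      ∫ w in A, (sg (c + 2)).real (A ∩ cap (c + 2) s w) ∂(sg (c + 2)) := by
  have h1 : ∀ j, la (e0 c) (e1 c) (ph s j) 0 * (sg (c + 2)).real A ^ 2 / (sg (c + 2)).real univ -
      B * (sg (c + 2)).real A ≤
      ∫ w in A, (sg (c + 2)).real (A ∩ cap (c + 2) s w) ∂(sg (c + 2)) := by
    intro j
    refine (quad_set (ph_Fs s j) (ph_le s j) hB (hla j) hA).trans ?_
    have hle : ∀ w : S (c + 2), ∫ x in A, ph s j ⟪(w : E (c + 2)), (x : E (c + 2))⟫ ∂(sg (c + 2)) ≤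
        (sg (c + 2)).real (A ∩ cap (c + 2) s w) := by
      intro w
      have h2 : (sg (c + 2)).real (A ∩ cap (c + 2) s w) =
          ∫ x in A, (cap (c + 2) s w).indicator (fun _ => (1 : ℝ)) x ∂(sg (c + 2)) := by
        rw [integral_indicator_const _ (cap_meas _ _ _), smul_eq_mul, mul_one,
          measureReal_restrict_apply (cap_meas _ _ _), Set.inter_comm]
      rw [h2]
      refine integral_mono_of_nonneg (Eventually.of_forall fun x => (ph_Fs s j).nonneg _)
        ((integrable_const (1 : ℝ)).indicator (cap_meas _ _ _)) (Eventually.of_forall fun x => ?_)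
      refine (ph_ind s j _).trans (le_of_eq ?_)
      by_cases h : s < ⟪(w : E (c + 2)), (x : E (c + 2))⟫ <;> simp [Set.indicator, h, cap]
    refine integral_mono_of_nonneg (Eventually.of_forall fun w =>
      integral_nonneg fun x => (ph_Fs s j).nonneg _) ?_ (Eventually.of_forall hle)
    refine Integrable.mono' (g := fun _ => (sg (c + 2)).real univ) (integrable_const _) ?_ ?_
    · exact ((meas_cap (sg (c + 2)) hA).ennreal_toReal).aestronglyMeasurable
    · refine Eventually.of_forall fun w => ?_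
      rw [Real.norm_eq_abs, abs_of_nonneg measureReal_nonneg]
      exact measureReal_mono (Set.subset_univ _) (measure_ne_top _ _)
  have h2 := (((lim_la c s).mul_const ((sg (c + 2)).real A ^ 2)).div_const
    ((sg (c + 2)).real univ)).sub_const (B * (sg (c + 2)).real A)
  exact le_of_tendsto h2 (Eventually.of_forall h1)

/-- the uniform probability measure on the sphere -/
noncomputable def mu (n : ℕ) : Measure (S n) := (sg n univ)⁻¹ • sg n

lemma sgu_ne_zero (c : ℕ) : sg (c + 2) univ ≠ 0 := by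
  have h := sg_pos c
  intro h0
  rw [measureReal_def, h0] at h
  simp at h

instance (c : ℕ) : IsProbabilityMeasure (mu (c + 2)) := by
  refine ⟨?_⟩
  unfold mu
  rw [Measure.smul_apply, smul_eq_mul]
  exact ENNReal.inv_mul_cancel (sgu_ne_zero c) (measure_ne_top _ _)

lemma mu_real (c : ℕ) (A : Set (S (c + 2))) :
    (mu (c + 2)).real A = (sg (c + 2)).real A / (sg (c + 2)).real univ := by
  unfold mu
  rw [measureReal_def, Measure.smul_apply, smul_eq_mul, ENNReal.toReal_mul, ENNReal.toReal_inv]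
  rw [measureReal_def, measureReal_def, div_eq_inv_mul]

/-- the measure of a cap -/
noncomputable def pc (c : ℕ) (s : ℝ) : ℝ := capS c s / (sg (c + 2)).real univ

lemma mu_rot (n : ℕ) (R : E n ≃ₗᵢ[ℝ] E n) : MeasurePreserving (rot R) (mu n) (mu n) := by
  unfold mu
  exact (rot_mp R).smul_measure _

lemma mu_cap (c : ℕ) (s : ℝ) (w : S (c + 2)) : (mu (c + 2)).real (cap (c + 2) s w) = pc c s := by
  have h0 : ‖e0 c‖ = 1 := (on_e c).hu
  set w0 : S (c + 2) := ⟨e0 c, by rw [mem_sphere_zero_iff_norm]; exact h0⟩ with hw0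
  obtain ⟨T, hT⟩ := exists_rot w0 w
  have h1 : (mu (c + 2)).real (cap (c + 2) s w0) = pc c s := mu_real c _
  rw [← h1]
  have h2 : cap (c + 2) s w0 = rot T ⁻¹' cap (c + 2) s w := by
    ext x
    simp only [cap, Set.mem_preimage, Set.mem_ofPred_eq]
    rw [← hT, rot_coe, rot_coe, T.inner_map_map]
  rw [h2, measureReal_def, measureReal_def,
    (mu_rot (c + 2) T).measure_preimage (cap_meas _ _ _).nullMeasurableSet]

/-- **Supersaturation.** -/
theorem sup_mu {B : ℝ} (hB : 0 ≤ B) (hla : ∀ j k, -B ≤ la (e0 c) (e1 c) (ph s j) k)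
    {A : Set (S (c + 2))} (hA : MeasurableSet A) :
    pc c s * (mu (c + 2)).real A ^ 2 - B / (sg (c + 2)).real univ * (mu (c + 2)).real A ≤
      ∫ w in A, (mu (c + 2)).real (A ∩ cap (c + 2) s w) ∂(mu (c + 2)) := by
  have hV := sg_pos c
  have h1 := sup_sg hB hla hA
  have h2 : ∫ w in A, (mu (c + 2)).real (A ∩ cap (c + 2) s w) ∂(mu (c + 2)) =
      (∫ w in A, (sg (c + 2)).real (A ∩ cap (c + 2) s w) ∂(sg (c + 2))) /
        (sg (c + 2)).real univ ^ 2 := by
    simp only [mu_real]
    rw [integral_div]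
    unfold mu
    rw [Measure.restrict_smul, integral_smul_measure, ENNReal.toReal_inv]
    rw [← measureReal_def, smul_eq_mul]
    field_simp
  rw [h2, le_div_iff₀ (by positivity), mu_real]
  unfold pc
  refine le_trans (le_of_eq ?_) h1
  field_simp

end Pool.Agent.U279.KR
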